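import Mathlib

namespace Pool.Agent.Apc

open Module

/-- The functional with integer coefficients `c`. -/
def fnl {N : ℕ} (c : Fin N → ℤ) : (Fin N → ℚ) →ₗ[ℚ] ℚ where
  toFun v := ∑ l, (c l : ℚ) * v l
  map_add' v w := by simp [mul_add, Finset.sum_add_distrib]
  map_smul' a v := by simp [Finset.mul_sum, mul_left_comm]

theorem fnl_apply {N : ℕ} (c : Fin N → ℤ) (v : Fin N → ℚ) : fnl c v = ∑ l, (c l : ℚ) * v l := rfl

theorem exists_fnl_ne {N : ℕ} (s : Finset (Fin N → ℚ)) (hs : ∀ v ∈ s, v ≠ 0) :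
    ∃ c : Fin N → ℤ, ∀ v ∈ s, fnl c v ≠ 0 := by
  classical
  induction s using Finset.induction_on with
  | empty => exact ⟨0, by simp⟩
  | insert v s _ ih =>
    obtain ⟨c, hc⟩ := ih fun w hw => hs w (Finset.mem_insert_of_mem hw)
    obtain ⟨l, hl⟩ := Function.ne_iff.1 (hs v (Finset.mem_insert_self _ _))
    have hadd : ∀ (t : ℤ) w, fnl (t • c + Pi.single l 1) w = t * fnl c w + w l := by
      intro t w
      simp [fnl_apply, add_mul, Finset.sum_add_distrib, Finset.mul_sum, mul_assoc, Pi.single_apply]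
    obtain ⟨t, ht⟩ := Infinite.exists_notMem_finset
      ((insert v s).image fun w => (-(w l) / fnl c w).num)
    refine ⟨t • c + Pi.single l 1, fun w hw => ?_⟩
    rw [hadd]
    intro h0
    by_cases hw0 : fnl c w = 0
    · rcases Finset.mem_insert.1 hw with rfl | hw'
      · apply hl; simpa [hw0] using h0
      · exact hc w hw' hw0
    · apply ht
      refine Finset.mem_image.2 ⟨w, hw, ?_⟩
      have : -(w l) / fnl c w = t := by
        field_simp; linarith
      rw [this]; simp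

theorem exists_fnls {N : ℕ} {ι : Type*} (I : Finset ι) (q : ℕ) :
    ∀ U : ι → Submodule ℚ (Fin N → ℚ), (∀ a ∈ I, finrank ℚ (U a) ≤ q) →
      ∃ W : Fin q → Fin N → ℤ, ∀ a ∈ I, ∀ v ∈ U a, (∀ i, fnl (W i) v = 0) → v = 0 := by
  classical
  induction q with
  | zero =>
    intro U hU
    refine ⟨fun i => i.elim0, fun a ha v hv _ => ?_⟩
    have := Submodule.finrank_eq_zero.1 (Nat.le_zero.1 (hU a ha))
    rwa [this, Submodule.mem_bot] at hv
  | succ q ih =>
    intro U hU
    have hex : ∀ a, ∃ v, U a ≠ ⊥ → v ∈ U a ∧ v ≠ 0 := fun a => by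
      by_cases h : U a = ⊥
      · exact ⟨0, fun h' => absurd h h'⟩
      · obtain ⟨v, h1, h2⟩ := Submodule.exists_mem_ne_zero_of_ne_bot h
        exact ⟨v, fun _ => ⟨h1, h2⟩⟩
    choose v hv using hex
    obtain ⟨c, hc⟩ := exists_fnl_ne ((I.filter fun a => U a ≠ ⊥).image v) (by
      intro w hw
      obtain ⟨a, ha, rfl⟩ := Finset.mem_image.1 hw
      exact (hv a (Finset.mem_filter.1 ha).2).2)
    obtain ⟨W, hW⟩ := ih (fun a => U a ⊓ LinearMap.ker (fnl c)) (by
      intro a ha
      by_cases h : U a = ⊥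
      · rw [h, bot_inf_eq, finrank_bot]; exact Nat.zero_le _
      · have hlt : U a ⊓ LinearMap.ker (fnl c) < U a := by
          refine lt_of_le_of_ne inf_le_left fun e => ?_
          have h1 := (hv a h).1
          rw [← e] at h1
          exact hc _ (Finset.mem_image_of_mem _ (Finset.mem_filter.2 ⟨ha, h⟩)) h1.2
        have := Submodule.finrank_lt_finrank_of_lt hlt
        have := hU a ha
        omega)
    refine ⟨Fin.cons c W, fun a ha w hw h0 => hW a ha w ⟨hw, by simpa using h0 0⟩ fun i => ?_⟩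
    simpa using h0 i.succ

theorem exists_hom_finite_ker (A : Type*) [AddCommGroup A] [AddGroup.FG A] :
    ∃ (N : ℕ) (φ : A →+ (Fin N → ℤ)), {x | φ x = 0}.Finite := by
  classical
  obtain ⟨n, ι, fι, p, hp, e, ⟨f⟩⟩ := AddCommGroup.equiv_free_prod_directSum_zmod A
  have : ∀ i, NeZero (p i ^ e i) := fun i => ⟨pow_ne_zero _ (hp i).ne_zero⟩
  have : Finite (DirectSum ι fun i => ZMod (p i ^ e i)) :=
    Finite.of_equiv _ (DFinsupp.equivFunOnFintype (β := fun i => ZMod (p i ^ e i))).symm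
  refine ⟨n, (Finsupp.addEquivFunOnFinite.toAddMonoidHom.comp (AddMonoidHom.fst _ _)).comp
    f.toAddMonoidHom, ?_⟩
  refine Set.Finite.of_finite_image (f := fun x => (f x).2) (Set.toFinite _) ?_
  intro x hx y hy hxy
  apply f.injective
  have h1 : (f x).1 = 0 := by simpa using hx
  have h2 : (f y).1 = 0 := by simpa using hy
  exact Prod.ext (h1.trans h2.symm) hxy

theorem exists_omega {A : Type*} [AddCommGroup A] [AddGroup.FG A] {ι : Type*} (I : Finset ι)
    (q : ℕ) (v : ι → Finset A) (hv : ∀ a ∈ I, (v a).card ≤ q) :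
    ∃ ω : A →+ (Fin q → ℤ), ∀ a ∈ I,
      {x | x ∈ AddSubgroup.closure (v a : Set A) ∧ ω x = 0}.Finite := by
  classical
  obtain ⟨N, φ, hφ⟩ := exists_hom_finite_ker A
  let ψ : A →+ (Fin N → ℚ) :=
    { toFun := fun x l => (φ x l : ℚ)
      map_zero' := by ext l; simp
      map_add' := fun x y => by ext l; simp }
  let s : ι → Finset (Fin N → ℚ) := fun a => (v a).image ψ
  have hs : ∀ a ∈ I, finrank ℚ (Submodule.span ℚ (s a : Set (Fin N → ℚ))) ≤ q := fun a ha =>
    le_trans (finrank_span_finset_le_card (R := ℚ) (s a)) (Finset.card_image_le.trans (hv a ha))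
  obtain ⟨W, hW⟩ := exists_fnls I q (fun a => Submodule.span ℚ (s a : Set (Fin N → ℚ))) hs
  refine ⟨{ toFun := fun x i => ∑ l, W i l * φ x l
            map_zero' := by ext i; simp
            map_add' := fun x y => by ext i; simp [mul_add, Finset.sum_add_distrib] },
    fun a ha => hφ.subset ?_⟩
  rintro x ⟨hx, h0⟩
  have h1 : ψ x ∈ Submodule.span ℚ (s a : Set (Fin N → ℚ)) := by
    refine AddSubgroup.closure_induction (p := fun x _ => ψ x ∈ Submodule.span ℚ
      (s a : Set (Fin N → ℚ))) ?_ ?_ ?_ ?_ hx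
    · intro y hy
      exact Submodule.subset_span (Finset.mem_coe.2 (Finset.mem_image_of_mem _ hy))
    · simp
    · intro y z _ _ hy hz
      rw [map_add]; exact add_mem hy hz
    · intro y _ hy
      rw [map_neg]; exact neg_mem hy
  have h2 := hW a ha _ h1 fun i => by
    have h3 : ∑ l, W i l * φ x l = 0 := congrFun h0 i
    rw [fnl_apply]
    change ∑ l, (W i l : ℚ) * (φ x l : ℚ) = 0
    exact_mod_cast h3
  ext l
  have h4 : (φ x l : ℚ) = 0 := congrFun h2 l
  exact_mod_cast h4

theorem abs_ediv_sub_le {m : ℤ} (hm : 0 < m) {u u' : ℤ} (h : |u - u'| ≤ m) :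
    |u / m - u' / m| ≤ 1 := by
  have h1 := abs_le.1 h
  have a1 : u / m ≤ (u' + m) / m := Int.ediv_le_ediv hm (by linarith)
  have a2 : u' / m ≤ (u + m) / m := Int.ediv_le_ediv hm (by linarith)
  have e1 : (u' + m) / m = u' / m + 1 := by
    simpa using Int.add_mul_ediv_right u' 1 hm.ne'
  have e2 : (u + m) / m = u / m + 1 := by
    simpa using Int.add_mul_ediv_right u 1 hm.ne'
  rw [abs_le]
  constructor <;> linarith

theorem abs_sub_le_of_ediv {m : ℤ} (hm : 0 < m) {u u' D : ℤ} (h : |u / m - u' / m| ≤ D) :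
    |u - u'| ≤ m * (D + 1) := by
  have h1 := abs_le.1 h
  have b1 := Int.emod_lt_of_pos u hm
  have b2 := Int.emod_lt_of_pos u' hm
  have a1 := Int.emod_nonneg u hm.ne'
  have a2 := Int.emod_nonneg u' hm.ne'
  have c1 := Int.mul_ediv_add_emod u m
  have c2 := Int.mul_ediv_add_emod u' m
  rw [abs_le]
  constructor <;> nlinarith

theorem abel_coord {A : Type*} [AddCommGroup A] (E : Finset A) {ι : Type*} (I : Finset ι)
    (q : ℕ) (v : ι → Finset A) (hv : ∀ a ∈ I, (v a).card ≤ q) (hE : ∀ a ∈ I, v a ⊆ E) (D : ℕ) :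
    ∃ (η : A → Fin q → ℤ) (F : Set A), F.Finite ∧
      (∀ x x', x' - x ∈ E → ∀ i, |η x i - η x' i| ≤ 1) ∧
      ∀ a ∈ I, ∀ x x', ∀ α ∈ AddSubgroup.closure (v a : Set A), ∀ e ∈ E, x' - x = α + e →
        (∀ i, |η x' i - η x i| ≤ D) → x' - x ∈ F := by
  classical
  let B := AddSubgroup.closure (E : Set A)
  have hB : AddGroup.FG B := (AddGroup.fg_iff_addSubgroup_fg B).2 ⟨E, rfl⟩
  obtain ⟨ω, hω⟩ := exists_omega (A := B) I q
    (fun a => (v a).preimage Subtype.val Subtype.val_injective.injOn)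
    fun a ha => (Finset.card_le_card_of_injOn Subtype.val (fun z hz => by simpa using hz)
      (by simp)).trans (hv a ha)
  let m : ℤ := 1 + ∑ e ∈ E.preimage (Subtype.val : B → A) Subtype.val_injective.injOn,
    ∑ i, |ω e i|
  have hm : 0 < m := by positivity
  have hme : ∀ e : B, (e : A) ∈ E → ∀ i, |ω e i| ≤ m := by
    intro e he i
    have h1 : |ω e i| ≤ ∑ i, |ω e i| :=
      Finset.single_le_sum (f := fun i => |ω e i|) (fun _ _ => abs_nonneg _) (Finset.mem_univ i)
    have h2 : ∑ i, |ω e i| ≤ ∑ e ∈ E.preimage (Subtype.val : B → A) Subtype.val_injective.injOn,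
        ∑ i, |ω e i| :=
      Finset.single_le_sum (f := fun e => ∑ i, |ω e i|) (fun _ _ => by positivity) (by simpa)
    simp only [m]
    linarith
  have hμ : ∀ x : A, -(QuotientAddGroup.mk x : A ⧸ B).out + x ∈ B := fun x =>
    QuotientAddGroup.eq.1 (QuotientAddGroup.out_eq' _)
  let μ : A → B := fun x => ⟨_, hμ x⟩
  have hμ2 : ∀ x x' (h : x' - x ∈ B), μ x' - μ x = ⟨x' - x, h⟩ := by
    intro x x' h
    have e : (QuotientAddGroup.mk x : A ⧸ B) = QuotientAddGroup.mk x' :=
      QuotientAddGroup.eq.2 (by rwa [neg_add_eq_sub])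
    apply Subtype.ext
    simp only [μ, AddSubgroup.coe_sub, e]
    abel
  have hfin : ∀ a ∈ I, {x : B | x ∈ AddSubgroup.closure
      (((v a).preimage Subtype.val Subtype.val_injective.injOn : Finset B) : Set B) ∧
      ∀ i, |ω x i| ≤ m * (D + 1) + m}.Finite := by
    intro a ha
    refine Set.Finite.of_finite_fibers ω ?_ ?_
    · refine (Set.Finite.pi' fun _ : Fin q =>
        Set.finite_Icc (-(m * (D + 1) + m)) (m * (D + 1) + m)).subset ?_
      rintro _ ⟨x, hx, rfl⟩ i
      exact abs_le.1 (hx.2 i)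
    · rintro _ ⟨x, hx, rfl⟩
      refine ((hω a ha).image fun z => z + x).subset ?_
      rintro y ⟨hy, hyx⟩
      refine ⟨y - x, ⟨sub_mem hy.1 hx.1, ?_⟩, by simp⟩
      rw [map_sub, sub_eq_zero]
      exact hyx
  refine ⟨fun x i => ω (μ x) i / m, ⋃ a ∈ I, Set.image2 (fun (z : B) (e : A) => (z : A) + e)
    {x : B | x ∈ AddSubgroup.closure
      (((v a).preimage Subtype.val Subtype.val_injective.injOn : Finset B) : Set B) ∧
      ∀ i, |ω x i| ≤ m * (D + 1) + m} E, ?_, ?_, ?_⟩
  · exact I.finite_toSet.biUnion fun a ha => (hfin a ha).image2 _ E.finite_toSet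
  · intro x x' h i
    refine abs_ediv_sub_le hm ?_
    have h1 := congrFun (congrArg ω (hμ2 x x' (AddSubgroup.subset_closure h))) i
    rw [map_sub, Pi.sub_apply] at h1
    rw [abs_sub_comm, h1]
    exact hme _ h i
  · intro a ha x x' α hα e he hx hD
    have hαB : α ∈ B := AddSubgroup.closure_mono (by exact_mod_cast hE a ha) hα
    have heB : e ∈ B := AddSubgroup.subset_closure he
    have hxB : x' - x ∈ B := hx ▸ add_mem hαB heB
    refine Set.mem_biUnion ha ⟨⟨α, hαB⟩, ⟨?_, fun i => ?_⟩, e, he, hx.symm⟩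
    · have hmap : AddSubgroup.map B.subtype (AddSubgroup.closure
          (((v a).preimage Subtype.val Subtype.val_injective.injOn : Finset B) : Set B)) =
          AddSubgroup.closure (v a : Set A) := by
        rw [AddMonoidHom.map_closure]
        congr 1
        ext z
        simp only [Finset.coe_preimage, Set.mem_image, Set.mem_preimage, Finset.mem_coe,
          AddSubgroup.coe_subtype]
        exact ⟨fun ⟨w, hw, e⟩ => e ▸ hw,
          fun hz => ⟨⟨z, AddSubgroup.subset_closure (hE a ha hz)⟩, hz, rfl⟩⟩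
      rw [← hmap] at hα
      obtain ⟨z, hz, hz'⟩ := hα
      have : z = ⟨α, hαB⟩ := Subtype.ext hz'
      rwa [← this]
    · have h1 := abs_sub_le_of_ediv hm (hD i)
      have h2 := congrFun (congrArg ω (hμ2 x x' hxB)) i
      rw [map_sub, Pi.sub_apply] at h2
      have h3 : (⟨α, hαB⟩ : B) = ⟨x' - x, hxB⟩ - ⟨e, heB⟩ := Subtype.ext (by simp [hx])
      rw [h3, map_sub, Pi.sub_apply, ← h2]
      have h4 := hme ⟨e, heB⟩ he i
      exact (abs_sub _ _).trans (add_le_add h1 h4)

end Pool.Agent.Apc
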