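import Pool.Agent.Lib.MP_4f4e79_gt.Cut
import Pool.Agent.Lib.MP_4f4e79_gt.Gen

namespace Pool.Agent.Apc

variable {G H : Type*} [Group G] [Group H] [PseudoMetricSpace G] [PseudoMetricSpace H]

theorem dist_eq_len [IsIsometricSMul G G] (x y : G) : dist x y = dist 1 (x⁻¹ * y) := by
  rw [← dist_mul_left x⁻¹ x y, inv_mul_cancel]

theorem len_mul [IsIsometricSMul G G] (x y : G) : dist 1 (x * y) ≤ dist 1 x + dist 1 y := by
  have := dist_triangle 1 x (x * y)
  rwa [dist_eq_len x, inv_mul_cancel_left] at this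

theorem len_inv [IsIsometricSMul G G] (x : G) : dist 1 x⁻¹ = dist 1 x := by
  rw [dist_comm 1 x, dist_eq_len x, mul_one]

theorem len_mul3 [IsIsometricSMul G G] (x y z : G) :
    dist 1 (x * y * z⁻¹) ≤ dist 1 x + dist 1 y + dist 1 z := by
  have h1 := len_mul (x * y) z⁻¹
  have h2 := len_mul x y
  rw [len_inv] at h1
  linarith

theorem exists_bound_of_finite {α : Type*} {s : Set α} (hs : s.Finite) (g : α → ℝ) :
    ∃ L, 0 ≤ L ∧ ∀ a ∈ s, g a ≤ L := by
  obtain ⟨L, hL⟩ := (hs.image g).bddAbove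
  exact ⟨max L 0, le_max_right _ _, fun a ha => (hL ⟨a, ha, rfl⟩).trans (le_max_left _ _)⟩

theorem expans_hom [IsIsometricSMul G G] [IsIsometricSMul H H]
    (hG : ∀ r, (Metric.closedBall (1 : G) r).Finite) (p : G →* H) : Expans p := by
  intro r
  obtain ⟨L, -, hL⟩ := exists_bound_of_finite (hG r) fun g => dist 1 (p g)
  refine ⟨L, fun a b hab => ?_⟩
  rw [dist_eq_len, ← map_inv, ← map_mul]
  apply hL
  rw [Metric.mem_closedBall', ← dist_eq_len]
  exact hab

theorem lc_of_comm [IsIsometricSMul G G] [IsIsometricSMul H H]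
    (hG : ∀ r, (Metric.closedBall (1 : G) r).Finite)
    (hH : ∀ r, (Metric.closedBall (1 : H) r).Finite) (p : G →* H)
    (hc : ∀ a ∈ p.ker, ∀ b ∈ p.ker, a * b = b * a) : LC p := by
  classical
  let _ : CommGroup p.ker :=
    { (inferInstance : Group p.ker) with
      mul_comm := fun a b => Subtype.ext (hc a a.2 b b.2) }
  let s : H → G := Function.invFun p
  have hs : ∀ g, p (s (p g)) = p g := fun g => Function.invFun_eq ⟨g, rfl⟩
  have hL : ∀ D : ℝ, ∃ L, 0 ≤ L ∧ ∀ h : H, dist 1 h ≤ D → dist 1 (s h) ≤ L := fun D => by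
    obtain ⟨L, h0, hL⟩ := exists_bound_of_finite (hH D) fun h => dist 1 (s h)
    exact ⟨L, h0, fun h hh => hL h (Metric.mem_closedBall'.2 hh)⟩
  have hE : ∀ t : ℝ, ∃ E : Finset (Additive p.ker), ∀ n : p.ker,
      Additive.ofMul n ∈ E ↔ dist 1 (n : G) ≤ t := fun t => by
    have : {n : Additive p.ker | dist 1 ((Additive.toMul n : p.ker) : G) ≤ t}.Finite := by
      refine Set.Finite.of_finite_image (f := fun n => ((Additive.toMul n : p.ker) : G))
        ((hG t).subset ?_) ?_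
      · rintro _ ⟨n, hn, rfl⟩
        exact Metric.mem_closedBall'.2 hn
      · intro a _ b _ hab
        exact Additive.toMul.injective (Subtype.ext hab)
    exact ⟨this.toFinset, fun n => by simp⟩
  intro D0 r
  obtain ⟨L0, hL0, hL0'⟩ := hL D0
  obtain ⟨E0, hE0⟩ := hE (2 * L0 + |r|)
  refine ⟨E0.card, fun D1 R D => ?_⟩
  obtain ⟨L1, hL1, hL1'⟩ := hL D1
  obtain ⟨E1, hE1⟩ := hE (2 * L1 + 2 * L0 + |r| + |R|)
  let c : H → Additive p.ker →+ Additive p.ker := fun a =>
    MonoidHom.toAdditive (MulAut.conjNormal (s a) : MulAut p.ker).toMonoidHom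
  have hcoe : ∀ a (n : p.ker), ((Additive.toMul (c a (Additive.ofMul n)) : p.ker) : G) =
      s a * n * (s a)⁻¹ := fun a n => rfl
  obtain ⟨η, F, hF, hη1, hη2⟩ := abel_coord E1 (hH D1).toFinset E0.card
    (fun a => E0.image (c a)) (fun a _ => Finset.card_image_le) (by
      intro a ha z hz
      obtain ⟨n, hn, rfl⟩ := Finset.mem_image.1 hz
      have ha' : dist 1 a ≤ D1 := Metric.mem_closedBall'.1 (by simpa using ha)
      have h1 := (hE0 (Additive.toMul n)).1 hn
      refine (hE1 (Additive.toMul (c a n))).2 ?_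
      have h2 := hcoe a (Additive.toMul n)
      rw [ofMul_toMul] at h2
      rw [h2]
      have h3 := len_mul3 (s a) (Additive.toMul n : p.ker) (s a)
      have h4 := hL1' a ha'
      have h5 := abs_nonneg R
      linarith) D
  obtain ⟨MF, hMF0, hMF⟩ := exists_bound_of_finite hF
    fun n => dist 1 ((Additive.toMul n : p.ker) : G)
  have hν : ∀ x : G, x * (s (p x))⁻¹ ∈ p.ker := fun x => by
    rw [MonoidHom.mem_ker, map_mul, map_inv, hs, mul_inv_cancel]
  let ν : G → Additive p.ker := fun x => Additive.ofMul ⟨_, hν x⟩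
  have hνsub : ∀ x x' : G, ((Additive.toMul (ν x' - ν x) : p.ker) : G) =
      s (p x) * (x⁻¹ * x') * (s (p x'))⁻¹ := by
    intro x x'
    rw [sub_eq_neg_add]
    simp [ν, mul_assoc]
  refine ⟨2 * L1 + MF, fun y => ⟨fun x => η (ν (y⁻¹ * x)), ?_, ?_⟩⟩
  · intro x x' hx hx' hd
    refine hη1 _ _ ?_
    refine (hE1 (Additive.toMul (ν (y⁻¹ * x') - ν (y⁻¹ * x)))).2 ?_
    rw [hνsub]
    rw [dist_eq_len, ← map_inv, ← map_mul] at hx hx'
    have h1 := len_mul3 (s (p (y⁻¹ * x))) ((y⁻¹ * x)⁻¹ * (y⁻¹ * x')) (s (p (y⁻¹ * x')))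
    rw [← dist_eq_len, dist_mul_left] at h1
    have h2 := hL1' _ hx
    have h3 := hL1' _ hx'
    have h4 := le_abs_self R
    have h5 := abs_nonneg r
    linarith
  · intro x0 x hch
    rcases hch.eq_or_mem with rfl | h0
    · rw [dist_self]; positivity
    have hx := hch.mem h0
    have hleaf : ∃ n ∈ AddSubgroup.closure (E0 : Set (Additive p.ker)),
        x0⁻¹ * x = ((Additive.toMul n : p.ker) : G) * s (p (x0⁻¹ * x)) := by
      clear hx
      induction hch with
      | refl =>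
        have h1 : dist 1 (p (x0⁻¹ * x0)) ≤ D0 := by
          have := h0.2.1
          rwa [dist_eq_len, ← map_inv, ← map_mul] at this
        refine ⟨ν (x0⁻¹ * x0), AddSubgroup.subset_closure ((hE0 _).2 ?_), by simp [ν]⟩
        have h2 := hL0' _ h1
        have h3 := abs_nonneg r
        simp only [inv_mul_cancel, one_mul, len_inv] at h2 ⊢
        linarith
      | @tail a b _ hab ih =>
        obtain ⟨n, hn, hn'⟩ := ih
        have ha : dist 1 (p (x0⁻¹ * a)) ≤ D0 := by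
          have := hab.1.2.1
          rwa [dist_eq_len, ← map_inv, ← map_mul] at this
        have hb : dist 1 (p (x0⁻¹ * b)) ≤ D0 := by
          have := hab.2.1.2.1
          rwa [dist_eq_len, ← map_inv, ← map_mul] at this
        refine ⟨n + (ν (x0⁻¹ * b) - ν (x0⁻¹ * a)), add_mem hn (AddSubgroup.subset_closure ?_), ?_⟩
        · refine (hE0 (Additive.toMul (ν (x0⁻¹ * b) - ν (x0⁻¹ * a)))).2 ?_
          rw [hνsub]
          have h1 := len_mul3 (s (p (x0⁻¹ * a))) ((x0⁻¹ * a)⁻¹ * (x0⁻¹ * b)) (s (p (x0⁻¹ * b)))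
          rw [← dist_eq_len, dist_mul_left] at h1
          have h2 := hL0' _ ha
          have h3 := hL0' _ hb
          have h4 := le_abs_self r
          have h5 := hab.2.2
          linarith
        · rw [toMul_add, Subgroup.coe_mul, hνsub, ← mul_assoc, ← mul_assoc, ← hn']
          group
    obtain ⟨n, hn, hn'⟩ := hleaf
    have ha : dist 1 (p (y⁻¹ * x0)) ≤ D1 := by
      have := h0.1
      rwa [dist_eq_len, ← map_inv, ← map_mul] at this
    have hb : dist 1 (p (y⁻¹ * x)) ≤ D1 := by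
      have := hx.1
      rwa [dist_eq_len, ← map_inv, ← map_mul] at this
    have hσ : dist 1 (p (x0⁻¹ * x)) ≤ D0 := by
      have := hx.2.1
      rwa [dist_eq_len, ← map_inv, ← map_mul] at this
    have he : s (p (y⁻¹ * x0)) * s (p (x0⁻¹ * x)) * (s (p (y⁻¹ * x)))⁻¹ ∈ p.ker := by
      rw [MonoidHom.mem_ker, map_mul, map_mul, map_inv, hs, hs, hs]
      simp [mul_assoc]
    have hmem := hη2 (p (y⁻¹ * x0)) (by simpa using Metric.mem_closedBall'.2 ha)
      (ν (y⁻¹ * x0)) (ν (y⁻¹ * x)) (c (p (y⁻¹ * x0)) n) (by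
        rw [Finset.coe_image, ← AddMonoidHom.map_closure]
        exact ⟨n, hn, rfl⟩) (Additive.ofMul ⟨_, he⟩) ((hE1 _).2 (by
        have h1 := len_mul3 (s (p (y⁻¹ * x0))) (s (p (x0⁻¹ * x))) (s (p (y⁻¹ * x)))
        have h2 := hL1' _ ha
        have h3 := hL1' _ hb
        have h4 := hL0' _ hσ
        have h5 := abs_nonneg r
        have h6 := abs_nonneg R
        change dist 1 (s (p (y⁻¹ * x0)) * s (p (x0⁻¹ * x)) * (s (p (y⁻¹ * x)))⁻¹) ≤ _
        linarith)) (by
        apply Additive.toMul.injective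
        apply Subtype.ext
        have h2 := hcoe (p (y⁻¹ * x0)) (Additive.toMul n)
        rw [ofMul_toMul] at h2
        rw [hνsub, toMul_add, Subgroup.coe_mul, h2]
        have h3 : (y⁻¹ * x0)⁻¹ * (y⁻¹ * x) = x0⁻¹ * x := by group
        rw [h3]
        nth_rewrite 1 [hn']
        change _ = _ * (s (p (y⁻¹ * x0)) * s (p (x0⁻¹ * x)) * (s (p (y⁻¹ * x)))⁻¹)
        group) hx.2.2
    have h1 := hMF _ hmem
    rw [hνsub] at h1
    have h3 : (y⁻¹ * x0)⁻¹ * (y⁻¹ * x) = x0⁻¹ * x := by group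
    rw [h3] at h1
    have h4 : x0⁻¹ * x = (s (p (y⁻¹ * x0)))⁻¹ *
        (s (p (y⁻¹ * x0)) * (x0⁻¹ * x) * (s (p (y⁻¹ * x)))⁻¹) * (s (p (y⁻¹ * x)))⁻¹⁻¹ := by group
    have h5 := len_mul3 (s (p (y⁻¹ * x0)))⁻¹
      (s (p (y⁻¹ * x0)) * (x0⁻¹ * x) * (s (p (y⁻¹ * x)))⁻¹) (s (p (y⁻¹ * x)))⁻¹
    rw [← h4, len_inv, len_inv] at h5
    have h6 := hL1' _ ha
    have h7 := hL1' _ hb
    rw [dist_eq_len]
    linarith

end Pool.Agent.Apc
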