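import Pool.Agent.Lib.MP_4f4e79_gt.Defs

namespace Pool.Agent.Apc

variable {X : Type*} [PseudoMetricSpace X]

/-- Every member of `𝒳` is covered by `k` subfamilies of `𝒱`, each `r`-disjoint and consisting of
subsets of the member. -/
def Cov (k : ℕ) (r : ℝ) (𝒳 𝒱 : Set (Set X)) : Prop :=
  ∀ A ∈ 𝒳, ∃ 𝒰 : ℕ → Set (Set X),
    (∀ i < k, 𝒰 i ⊆ 𝒱 ∧ (∀ U ∈ 𝒰 i, U ⊆ A) ∧ RDisj r (𝒰 i)) ∧ ∀ x ∈ A, ∃ i < k, ∃ U ∈ 𝒰 i, x ∈ U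

/-- Finite asymptotic dimension of a family, uniformly in its members. -/
def FinAsdim (𝒳 : Set (Set X)) : Prop :=
  ∃ k : ℕ, ∀ r : ℝ, 0 < r → ∃ 𝒱 : Set (Set X), BddFam 𝒱 ∧ Cov k r 𝒳 𝒱

end Pool.Agent.Apc
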