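import Pool.Agent.Lib.MP_4f4e79_gt.Ch
import Pool.Agent.Lib.MP_4f4e79_gt.Defs2

namespace Pool.Agent.Apc

universe u

namespace Trap

/-- The trap theorem for leaves `L i` inside hosts `H (host i)`. -/
def Core (X : Type*) [PseudoMetricSpace X] (ι : Type u) : Prop :=
  ∀ (L H : ι → Set X) (host : ι → ι) (n b : ℕ), (∀ i, L i ⊆ H (host i)) →
    (∀ ρ : ℝ, ∃ M : ℝ, ∀ i, Col (n + 2) ρ M (L i)) → (∀ ρ : ℝ, ∃ M : ℝ, ∀ j, Col b ρ M (H j)) →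
    ∀ r R : ℝ, ∃ (M : ℝ) (W : ι → ℕ → Set X), (∀ j a, Thin R M (W j a)) ∧
      ∀ i, Col 2 r M {x | x ∈ L i ∧ ∀ a < 2 * n, x ∉ W (host i) a}

section

variable {X Y ι : Type*} [PseudoMetricSpace X] [PseudoMetricSpace Y]

theorem as_col_empty (k : ℕ) (r : ℝ) {M : ℝ} (hM : 0 ≤ M) {S : Set X} (hS : ∀ x, x ∉ S) :
    Col k r M S :=
  ⟨fun _ => 0, fun x hx => (hS x hx).elim,
    fun _ => (thin_empty r hM).mono le_rfl le_rfl fun x hx => (hS x hx.1).elim⟩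

theorem as_col_of_fin {𝒳 : Set (Set X)} (h : FinAsdim 𝒳) :
    ∃ k : ℕ, ∀ r : ℝ, ∃ M : ℝ, 0 ≤ M ∧ ∀ S ∈ 𝒳, Col k r M S := by
  classical
  obtain ⟨k, hk⟩ := h
  refine ⟨k, fun r => ?_⟩
  obtain ⟨𝒱, ⟨M, hM⟩, h𝒱⟩ := hk (|r| + 1) (by positivity)
  refine ⟨max M 0, le_max_right _ _, fun S hS => ?_⟩
  obtain ⟨𝒰, h1, h2⟩ := h𝒱 S hS
  choose! κ hκ U hU hxU using h2
  refine ⟨κ, hκ, fun a x y hc => ?_⟩
  rcases hc.eq_or_mem with rfl | ⟨hx, rfl⟩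
  · simp
  have : Chain r (U x) x y := by
    refine hc.refine (fun _ => hxU x hx) ?_
    rintro a b - - ha - ⟨hb, hκb⟩ hab
    by_cases hUV : U x = U b
    · rw [hUV]; exact hxU b hb
    · have := (h1 _ (hκ x hx)).2.2 _ (hU x hx) _ (hκb ▸ hU b hb) hUV a ha b (hxU b hb)
      have h3 := le_abs_self r
      linarith
  exact (hM _ ((h1 _ (hκ x hx)).1 (hU x hx)) x (hxU x hx) y (this.mem (hxU x hx))).trans
    (le_max_left _ _)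

theorem as_cls_sub {α : Ordinal.{u}} {𝒳 𝒳' : Set (Set X)} (h : Cls α 𝒳) (hs : 𝒳' ⊆ 𝒳) :
    Cls α 𝒳' := by
  rw [cls_iff] at h ⊢
  refine ⟨fun h0 => ?_, fun h0 R hR => ?_⟩
  · obtain ⟨M, hM⟩ := h.1 h0
    exact ⟨M, fun A hA => hM A (hs hA)⟩
  · obtain ⟨β, hβ, 𝒴, hY, k, hk1, hk⟩ := h.2 h0 R hR
    exact ⟨β, hβ, 𝒴, hY, k, hk1, fun A hA => hk A (hs hA)⟩

/-- The preimage of a family. -/
def as_pre (A : ι → Set X) (f : ι → X → Y) (Z : Set (Set Y)) : Set (Set X) :=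
  {S | ∃ i, ∃ V ∈ Z, S = A i ∩ f i ⁻¹' V}

/-- `V` lies in a member of `𝒴` and has diameter at most `D`. -/
def as_G (𝒴 : Set (Set Y)) (D : ℝ) (V : Set Y) : Prop :=
  (∃ W ∈ 𝒴, V ⊆ W) ∧ ∀ y ∈ V, ∀ y' ∈ V, dist y y' ≤ D

/-- Few thin sets in the hosts cut all leaves down to a fixed number of colours. -/
def as_Cut (A : ι → Set X) (f : ι → X → Y) (𝒴 : Set (Set Y)) : Prop :=
  ∃ c0 : ℕ, 0 < c0 ∧ ∀ D0 r : ℝ, ∃ K : ℕ, ∀ D1 R : ℝ, r ≤ R → ∃ (M : ℝ) (W : ι → Set Y → ℕ → Set X),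
    (∀ i Q a, Thin R M (W i Q a)) ∧ ∀ i S Q, Col c0 r M {x | ((x ∈ A i ∧ f i x ∈ S ∧ as_G 𝒴 D0 S) ∧
      S ⊆ Q ∧ as_G 𝒴 D1 Q) ∧ ∀ a < K, x ∉ W i Q a}

theorem as_apc {A : ι → Set X} {f : ι → X → Y}
    {𝒴 : Set (Set Y)} {ρ : ℝ → ℝ} (hρ : MonotoneOn ρ (Set.Ici 0))
    (hexp : ∀ i, ∀ x ∈ A i, ∀ y ∈ A i, dist (f i x) (f i y) ≤ ρ (dist x y))
    (hfib : as_Cut A f 𝒴)
    {Z : Set (Set Y)} (hZ : ∀ V ∈ Z, ∃ W ∈ 𝒴, V ⊆ W) (h : Apc1 Z) : Apc1 (as_pre A f Z) := by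
  classical
  intro R
  let Rb : ℕ → ℝ := fun n => ∑ j ∈ Finset.range (n + 1), |R j|
  have hRb : ∀ j n, j ≤ n → R j ≤ Rb n := fun j n hj =>
    (le_abs_self _).trans (Finset.single_le_sum (f := fun j => |R j|) (fun _ _ => abs_nonneg _)
      (Finset.mem_range.2 (by omega)))
  have hRm : ∀ j n, j ≤ n → Rb j ≤ Rb n := fun j n hj =>
    Finset.sum_le_sum_of_subset_of_nonneg (Finset.range_mono (by omega)) fun _ _ _ => abs_nonneg _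
  have hex : ∀ i n, ∀ x ∈ A i, ∀ y ∈ A i, dist x y ≤ Rb n → dist (f i x) (f i y) ≤ ρ (Rb n) :=
    fun i n x hx y hy hd => (hexp i x hx y hy).trans (hρ dist_nonneg (dist_nonneg.trans hd) hd)
  obtain ⟨c0, hc0, hcut⟩ := hfib
  obtain ⟨k1, D0, h1⟩ := h fun a => ρ (Rb ((a + 1) * c0))
  obtain ⟨K, hK⟩ := hcut D0 (Rb (k1 * c0))
  obtain ⟨k2, D1, h2⟩ := h fun c => ρ (Rb (k1 * c0 + (c + 1) * K)) + 2 * D0
  let L : ι → Set Y → Set Y → Set X := fun i S Q =>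
    {x | (x ∈ A i ∧ f i x ∈ S ∧ as_G 𝒴 D0 S) ∧ S ⊆ Q ∧ as_G 𝒴 (D1 + 2 * D0) Q}
  obtain ⟨M, W, hW, hL⟩ := hK (D1 + 2 * D0) (Rb (k1 * c0 + k2 * K)) (hRm _ _ (by omega))
  choose κ hκ1 hκ2 using hL
  refine ⟨k1 * c0 + k2 * K, M, ?_⟩
  rintro _ ⟨i, V0, hV0, rfl⟩
  obtain ⟨T, hT1, hT2⟩ := h1 V0 hV0
  obtain ⟨T', hT1', hT2'⟩ := h2 V0 hV0
  obtain ⟨W0, hW0, hVW⟩ := hZ V0 hV0
  let Q : ℕ → Y → Set Y := fun c y => {y' | y' ∈ V0 ∧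
    ∃ q, Chain (ρ (Rb (k1 * c0 + (c + 1) * K)) + 2 * D0) (T' c) y q ∧ dist q y' ≤ D0}
  have hQ : ∀ c y y', Chain (ρ (Rb (k1 * c0 + (c + 1) * K)) + 2 * D0) (T' c) y y' →
      Q c y = Q c y' := fun c y y' hc => by
    ext z
    exact ⟨fun ⟨hz, q, hq, hd⟩ => ⟨hz, q, hc.symm.trans hq, hd⟩,
      fun ⟨hz, q, hq, hd⟩ => ⟨hz, q, hc.trans hq, hd⟩⟩
  have hQG : ∀ c < k2, ∀ y, as_G 𝒴 (D1 + 2 * D0) (Q c y) := by
    intro c hc y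
    refine ⟨⟨W0, hW0, fun z hz => hVW hz.1⟩, ?_⟩
    rintro z ⟨-, q, hq, hd⟩ z' ⟨-, q', hq', hd'⟩
    have h3 := hT1' c hc _ _ (hq.symm.trans hq')
    have h4 := dist_triangle4 z q q' z'
    rw [dist_comm z q] at h4
    linarith
  let C : ℕ → Y → Set Y := fun a y => {y' | Chain (ρ (Rb ((a + 1) * c0))) (T a ∩ V0) y y'}
  have hC : ∀ a y y', Chain (ρ (Rb ((a + 1) * c0))) (T a ∩ V0) y y' → C a y = C a y' :=
    fun a y y' hc => by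
      ext z
      exact ⟨fun hz => hc.symm.trans hz, fun hz => hc.trans hz⟩
  have hhst : ∀ S : Set Y, ∃ S' : Set Y, S.Nonempty → S ⊆ V0 →
      (∀ y ∈ S, ∀ y' ∈ S, dist y y' ≤ D0) → ∃ c < k2, ∃ y ∈ T' c, S' = Q c y ∧ S ⊆ S' := by
    intro S
    by_cases hS : S.Nonempty ∧ S ⊆ V0
    · obtain ⟨⟨z, hz⟩, hS⟩ := hS
      obtain ⟨c, hc, hzc⟩ := hT2' z (hS hz)
      exact ⟨Q c z, fun _ _ hd => ⟨c, hc, z, hzc, rfl,
        fun y hy => ⟨hS hy, z, Chain.refl _, hd z hz y hy⟩⟩⟩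
    · exact ⟨∅, fun h3 h4 => (hS ⟨h3, h4⟩).elim⟩
  choose hst hhst using hhst
  let Zc : ℕ → ℕ → Set X := fun c e =>
    {x | x ∈ A i ∧ ∃ y ∈ T' c, f i x ∈ Q c y ∧ x ∈ W i (Q c y) e}
  have hZc : ∀ c < k2, ∀ e, Thin (Rb (k1 * c0 + (c + 1) * K)) M (Zc c e) := by
    intro c hc e x0 x hch
    rcases hch.eq_or_mem with rfl | ⟨hx0, y0, hy0, hf0, hw0⟩
    · exact hW i ∅ 0 _ _ (Chain.refl _)
    have := hch.refine (T' := {x | x ∈ A i ∧ f i x ∈ Q c y0 ∧ x ∈ W i (Q c y0) e})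
      (fun _ => ⟨hx0, hf0, hw0⟩) (by
      rintro x1 x2 - - ⟨ha, ⟨-, qa, hqa, hda⟩, -⟩ - ⟨hb, yb, hyb, hfb, hwb⟩ hab
      have e1 : Q c y0 = Q c yb := by
        obtain ⟨-, qb, hqb, hdb⟩ := hfb
        refine hQ c _ _ ((hqa.tail (hqa.mem hy0) (hqb.mem hyb) ?_).trans hqb.symm)
        have h3 := hex i _ _ ha _ hb hab
        have h4 := dist_triangle4 qa (f i x1) (f i x2) qb
        rw [dist_comm (f i x2)] at h4
        linarith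
      rw [e1]
      exact ⟨hb, hfb, hwb⟩)
    refine hW i (Q c y0) e x0 x (this.mono (hRm _ _ ?_) fun w hw => hw.2.2)
    have := Nat.mul_le_mul_right K (show c + 1 ≤ k2 from hc)
    omega
  let P : Set Y → ℕ → Set X := fun S e =>
    {x | x ∈ {x | x ∈ L i S (hst S) ∧ ∀ a < K, x ∉ W i (hst S) a} ∧
      κ i S (hst S) x = e}
  let Pc : ℕ → ℕ → Set X := fun a e =>
    {x | x ∈ A i ∧ f i x ∈ T a ∩ V0 ∧ x ∈ P (C a (f i x)) e}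
  have hPc : ∀ a < k1, ∀ e, Thin (Rb ((a + 1) * c0)) M (Pc a e) := by
    intro a ha e x0 x hch
    rcases hch.eq_or_mem with rfl | ⟨hx0, hf0, hp0⟩
    · exact hW i ∅ 0 _ _ (Chain.refl _)
    have := hch.refine (T' := {x | x ∈ A i ∧ f i x ∈ T a ∩ V0 ∧ C a (f i x) = C a (f i x0) ∧
        x ∈ P (C a (f i x0)) e}) (fun _ => ⟨hx0, hf0, rfl, hp0⟩) (by
      rintro x1 x2 - - ⟨h3, h4, h5, -⟩ - ⟨h6, h7, h8⟩ hab
      have e1 : C a (f i x2) = C a (f i x0) :=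
        (hC a _ _ ((Chain.refl _).tail h4 h7 (hex i _ _ h3 _ h6 hab))).symm.trans h5
      exact ⟨h6, h7, e1, e1 ▸ h8⟩)
    exact hκ2 i (C a (f i x0)) (hst (C a (f i x0))) e x0 x
      (this.mono (hRm _ _ (Nat.mul_le_mul_right c0 ha)) fun w hw => hw.2.2.2)
  refine ⟨fun m => if m < k1 * c0 then Pc (m / c0) (m % c0)
    else Zc ((m - k1 * c0) / K) ((m - k1 * c0) % K), fun m hm => ?_, fun x hx => ?_⟩
  · by_cases hm1 : m < k1 * c0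
    · simp only [hm1, if_true]
      refine (hPc _ ((Nat.div_lt_iff_lt_mul hc0).2 hm1) _).mono (hRb _ _ ?_) le_rfl le_rfl
      have h4 := Nat.div_add_mod m c0
      have h5 := Nat.mod_lt m hc0
      have h6 : (m / c0 + 1) * c0 = c0 * (m / c0) + c0 := by ring
      omega
    · simp only [hm1, if_false]
      have hK0 : 0 < K := by
        rcases Nat.eq_zero_or_pos K with rfl | h0
        · omega
        · exact h0
      have h3 : (m - k1 * c0) / K < k2 := by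
        rw [Nat.div_lt_iff_lt_mul hK0]; omega
      refine (hZc _ h3 _).mono (hRb _ _ ?_) le_rfl le_rfl
      have h4 := Nat.div_add_mod (m - k1 * c0) K
      have h5 := Nat.mod_lt (m - k1 * c0) hK0
      have h6 : ((m - k1 * c0) / K + 1) * K = K * ((m - k1 * c0) / K) + K := by ring
      omega
  · obtain ⟨a, ha, hxa⟩ := hT2 _ hx.2
    have hCV : C a (f i x) ⊆ V0 := fun y hy => (Chain.mem hy ⟨hxa, hx.2⟩).2
    have hCd : ∀ y ∈ C a (f i x), ∀ y' ∈ C a (f i x), dist y y' ≤ D0 := fun y hy y' hy' =>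
      hT1 a ha _ _ ((Chain.trans (Chain.symm hy) hy').mono le_rfl Set.inter_subset_left)
    obtain ⟨c, hc, y, hy, e1, hsub⟩ := hhst (C a (f i x)) ⟨_, Chain.refl _⟩ hCV hCd
    by_cases hz : ∀ e < K, x ∉ W i (hst (C a (f i x))) e
    · have hxL : x ∈ L i (C a (f i x)) (hst (C a (f i x))) :=
        ⟨⟨hx.1, Chain.refl _, ⟨W0, hW0, hCV.trans hVW⟩, hCd⟩, hsub, e1 ▸ hQG c hc y⟩
      have h3 := hκ1 i (C a (f i x)) (hst (C a (f i x))) x ⟨hxL, hz⟩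
      generalize he : κ i (C a (f i x)) (hst (C a (f i x))) x = e at h3
      have h7 := Nat.mul_le_mul_right c0 (show a + 1 ≤ k1 from ha)
      have h8 : (a + 1) * c0 = a * c0 + c0 := by ring
      refine ⟨e + a * c0, by omega, ?_⟩
      have h4 : e + a * c0 < k1 * c0 := by omega
      have h5 : (e + a * c0) / c0 = a := by
        rw [Nat.add_mul_div_right _ _ hc0, Nat.div_eq_of_lt h3, zero_add]
      have h6 : (e + a * c0) % c0 = e := by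
        rw [Nat.add_mul_mod_self_right, Nat.mod_eq_of_lt h3]
      simp only [h4, if_true, h5, h6]
      exact ⟨hx.1, ⟨hxa, hx.2⟩, ⟨hxL, hz⟩, he⟩
    · push Not at hz
      obtain ⟨e, he, hz⟩ := hz
      have h3 := Nat.mul_le_mul_right K (show c + 1 ≤ k2 from hc)
      have h4 : (c + 1) * K = c * K + K := by ring
      refine ⟨k1 * c0 + (e + c * K), by omega, ?_⟩
      have h5 : ¬ (k1 * c0 + (e + c * K) < k1 * c0) := by omega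
      simp only [h5, if_false, Nat.add_sub_cancel_left]
      rw [Nat.add_mul_div_right _ _ (by omega), Nat.add_mul_mod_self_right, Nat.div_eq_of_lt he,
        Nat.mod_eq_of_lt he, zero_add]
      exact ⟨hx.1, y, hy, e1 ▸ hsub (Chain.refl _), e1 ▸ hz⟩

theorem as_cls {A : ι → Set X} {f : ι → X → Y}
    {𝒴 : Set (Set Y)} {ρ : ℝ → ℝ} (hρ : MonotoneOn ρ (Set.Ici 0))
    (hexp : ∀ i, ∀ x ∈ A i, ∀ y ∈ A i, dist (f i x) (f i y) ≤ ρ (dist x y))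
    (hfib : as_Cut A f 𝒴)
    (α : Ordinal.{u}) : 0 < α → ∀ Z : Set (Set Y), (∀ V ∈ Z, ∃ W ∈ 𝒴, V ⊆ W) → Cls α Z →
      Cls α (as_pre A f Z) := by
  induction α using WellFoundedLT.induction with
  | ind α ih =>
  intro hα Z hZ h
  rcases (Order.one_le_iff_pos.2 hα).eq_or_lt with rfl | h1
  · exact cls_of_apc1 (as_apc hρ hexp hfib hZ (apc1_of_cls h))
  refine (cls_pos hα _).2 fun R hR => ?_
  obtain ⟨β, hβ, 𝒵, h𝒵, k, hk1, hk⟩ :=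
    (cls_pos hα Z).1 h (fun m => |ρ (R m)| + 1) fun m => by positivity
  have hs : Cls β {V | V ∈ 𝒵 ∧ ∃ W ∈ 𝒴, V ⊆ W} := as_cls_sub h𝒵 fun V hV => hV.1
  have hd : Decomp R (as_pre A f Z) (as_pre A f {V | V ∈ 𝒵 ∧ ∃ W ∈ 𝒴, V ⊆ W}) := by
    refine ⟨k, hk1, ?_⟩
    rintro _ ⟨i, V0, hV0, rfl⟩
    obtain ⟨𝒰, h2, h3⟩ := hk V0 hV0
    obtain ⟨W0, hW0, hVW⟩ := hZ V0 hV0
    refine ⟨fun m => (fun U => A i ∩ f i ⁻¹' U) '' 𝒰 m, fun m hm => ⟨?_, ?_, ?_⟩, fun x hx => ?_⟩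
    · rintro _ ⟨U, hU, rfl⟩
      exact ⟨i, U, ⟨(h2 m hm).1 hU, W0, hW0, ((h2 m hm).2.1 U hU).trans hVW⟩, rfl⟩
    · rintro _ ⟨U, hU, rfl⟩
      exact Set.inter_subset_inter_right _ (Set.preimage_mono ((h2 m hm).2.1 U hU))
    · rintro _ ⟨U, hU, rfl⟩ _ ⟨V, hV, rfl⟩ hne x hx y hy
      have hUV : U ≠ V := fun e => hne (by rw [e])
      have h4 := (h2 m hm).2.2 U hU V hV hUV _ hx.2 _ hy.2
      by_contra hlt
      have h5 := (hexp i x hx.1 y hy.1).trans (hρ dist_nonneg (hR m).le (not_le.1 hlt).le)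
      have h6 := le_abs_self (ρ (R m))
      linarith
    · obtain ⟨m, hm, U, hU, hxU⟩ := h3 _ hx.2
      exact ⟨m, hm, _, ⟨U, hU, rfl⟩, hx.1, hxU⟩
  rcases (zero_le (a := β)).eq_or_lt with rfl | hβ0
  · exact ⟨1, h1, _, cls_of_apc1 (as_apc hρ hexp hfib (fun V hV => hV.2)
      (apc1_of_bdd ((cls_zero _).1 hs))), hd⟩
  · exact ⟨β, hβ, _, ih β hβ hβ0 _ (fun V hV => hV.2) hs, hd⟩

end

theorem fibering {X Y ι : Type*} [PseudoMetricSpace X] [PseudoMetricSpace Y]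
    (A : ι → Set X) (B : ι → Set Y) (f : ι → X → Y) (𝒴 : Set (Set Y)) (hB : ∀ i, B i ∈ 𝒴)
    (hf : ∀ i, Set.MapsTo (f i) (A i) (B i)) (ρ : ℝ → ℝ) (hρ : MonotoneOn ρ (Set.Ici 0))
    (hexp : ∀ i, ∀ x ∈ A i, ∀ y ∈ A i, dist (f i x) (f i y) ≤ ρ (dist x y))
    (α : Ordinal.{u}) (hα : 0 < α) (hY : Cls α 𝒴) (hfib : as_Cut A f 𝒴) :
    Cls α (Set.range A) := by
  refine as_cls_sub (as_cls hρ hexp hfib α hα 𝒴 (fun V hV => ⟨V, hV, le_rfl⟩) hY) ?_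
  rintro _ ⟨i, rfl⟩
  exact ⟨i, B i, hB i, (Set.inter_eq_left.2 (hf i)).symm⟩

end Trap

end Pool.Agent.Apc
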