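import Pool.Agent.Lib.MP_4f4e79_gt.Tame
import Pool.Agent.Lib.MP_4f4e79_gt.Asm

/-!
Fibering for asymptotic property C over a base whose bounded sets have boundedly many points,
by bar induction on the tree of finite sequences of scales that do not yet cover the fibres.
-/

namespace Pool.Agent.Apc.Bar

open Trap

universe u

variable {X Y κ : Type*} [PseudoMetricSpace X] [PseudoMetricSpace Y]

/-- `S` is covered by sets that are thin at the scales of the list, with mesh `M`. -/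
def CovL : List ℝ → ℝ → Set X → Prop
  | [], _, S => ∀ x, x ∉ S
  | a :: τ, M, S => ∃ V, Thin a M V ∧ CovL τ M {x | x ∈ S ∧ x ∉ V}

theorem CovL.mono {τ : List ℝ} {M M' : ℝ} {S S' : Set X} (h : CovL τ M S) (hM : M ≤ M')
    (hS : S' ⊆ S) : CovL τ M' S' := by
  induction τ generalizing S S' with
  | nil => exact fun x hx => h x (hS hx)
  | cons a τ ih =>
    obtain ⟨V, h1, h2⟩ := h
    exact ⟨V, h1.mono le_rfl hM subset_rfl, ih h2 fun x hx => ⟨hS hx.1, hx.2⟩⟩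

theorem covL_empty (τ : List ℝ) {M : ℝ} (hM : 0 ≤ M) {S : Set X} (hS : ∀ x, x ∉ S) :
    CovL τ M S := by
  induction τ generalizing S with
  | nil => exact hS
  | cons a τ ih => exact ⟨∅, thin_empty a hM, ih fun x hx => hS x hx.1⟩

/-- The point fibres. -/
def Fib (A : κ → Set X) (g : κ → X → Y) (j : κ) (y : Y) : Set X := {x | x ∈ A j ∧ g j x = y}

/-- Global thin sets and thin sets of the single fibre at the scales `τ` cover every fibre. -/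
def Claim (A : κ → Set X) (g : κ → X → Y) (R : ℕ → ℝ) (τ : List ℝ) : Prop :=
  ∀ i0 : ℕ, ∃ (i1 : ℕ) (M : ℝ), i0 ≤ i1 ∧ 0 ≤ M ∧ ∀ j, ∃ W : ℕ → Set X,
    (∀ i, Thin (R i) M (W i)) ∧
      ∀ y, CovL τ M {x | x ∈ Fib A g j y ∧ ∀ i, i0 ≤ i → i < i1 → x ∉ W i}

omit [PseudoMetricSpace Y] in
theorem seq {A : κ → Set X} {g : κ → X → Y} {R : ℕ → ℝ} {τ : List ℝ}
    (H : ∀ a, Claim A g R (a :: τ)) (i0 : ℕ) {Rs : ℝ} (hRs : 0 ≤ Rs) (n : ℕ) :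
    ∃ (i1 : ℕ) (M : ℝ), i0 ≤ i1 ∧ 0 ≤ M ∧ ∀ j, ∃ (W : ℕ → Set X) (V : ℕ → Y → Set X),
      (∀ i, Thin (R i) M (W i)) ∧
      (∀ l < n, ∀ y, CovL τ M
        {x | (x ∈ Fib A g j y ∧ ∀ i, i0 ≤ i → i < i1 → x ∉ W i) ∧ x ∉ V l y}) ∧
      ∀ sel : ℕ → Y, Thin Rs M {x | ∃ l < n, x ∈ V l (sel l)} := by
  induction n with
  | zero =>
    exact ⟨i0, 0, le_rfl, le_rfl, fun j => ⟨fun _ => ∅, fun _ _ => ∅, fun i => thin_empty _ le_rfl,
      fun l hl => by omega, fun sel => (thin_empty _ le_rfl).mono le_rfl le_rfl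
        fun x ⟨_, _, hx⟩ => hx⟩⟩
  | succ n ih =>
    obtain ⟨i1, M, h1, hM, h2⟩ := ih
    obtain ⟨i2, M2, h3, hM2, h4⟩ := H (M + 2 * Rs) i1
    refine ⟨i2, M2 + 2 * M + 2 * Rs, by omega, by linarith, fun j => ?_⟩
    obtain ⟨W, V, hW, hV, hT⟩ := h2 j
    obtain ⟨W2, hW2, hV2⟩ := h4 j
    choose V2 hV2 hV2' using hV2
    refine ⟨fun i => if i < i1 then W i else W2 i, fun l => if l < n then V l else V2,
      fun i => ?_, fun l hl y => ?_, fun sel => ?_⟩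
    · dsimp only
      split_ifs
      · exact (hW i).mono le_rfl (by linarith) subset_rfl
      · exact (hW2 i).mono le_rfl (by linarith) subset_rfl
    · by_cases hln : l < n
      · refine (hV l hln y).mono (by linarith) ?_
        rintro x ⟨⟨h5, h6⟩, h7⟩
        simp only [if_pos hln] at h7
        refine ⟨⟨h5, fun i hi hi' => ?_⟩, h7⟩
        have := h6 i hi (by omega)
        dsimp only at this
        rwa [if_pos hi'] at this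
      · refine (hV2' y).mono (by linarith) ?_
        rintro x ⟨⟨h5, h6⟩, h7⟩
        simp only [if_neg hln] at h7
        refine ⟨⟨h5, fun i hi hi' => ?_⟩, h7⟩
        have := h6 i (by omega) hi'
        dsimp only at this
        rwa [if_neg (by omega)] at this
    · refine (thin_union hRs (hT sel) (hV2 (sel n))).mono le_rfl le_rfl ?_
      rintro x ⟨l, hl, hx⟩
      by_cases hln : l < n
      · simp only [if_pos hln] at hx
        exact Or.inl ⟨l, hln, hx⟩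
      · simp only [if_neg hln] at hx
        obtain rfl : l = n := by omega
        exact Or.inr hx

theorem step {A : κ → Set X} {g : κ → X → Y} {R : ℕ → ℝ} {τ : List ℝ} {Z : Set (Set Y)}
    (hZ : Apc1 Z) (hA : ∀ j, ∃ T ∈ Z, ∀ x ∈ A j, g j x ∈ T)
    (hexp : ∀ r : ℝ, ∃ s : ℝ, ∀ j, ∀ x ∈ A j, ∀ x' ∈ A j, dist x x' ≤ r →
      dist (g j x) (g j x') ≤ s)
    (hfin : ∀ D : ℝ, ∃ N : ℕ, ∀ j, ∀ S : Set Y, S ⊆ g j '' A j →
      (∀ y ∈ S, ∀ y' ∈ S, dist y y' ≤ D) → ∃ lab : Y → ℕ, (∀ y ∈ S, lab y < N) ∧ S.InjOn lab)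
    (H : ∀ a, Claim A g R (a :: τ)) : Claim A g R τ := by
  classical
  intro i0
  choose s hs using hexp
  obtain ⟨k, D, hk⟩ := hZ fun c => s (R (i0 + c))
  obtain ⟨N, hN⟩ := hfin D
  obtain ⟨Rs, hRs⟩ : ∃ Rs : ℝ, Rs = ∑ c ∈ Finset.range k, |R (i0 + c)| := ⟨_, rfl⟩
  have hR0 : 0 ≤ Rs := hRs ▸ Finset.sum_nonneg fun _ _ => abs_nonneg _
  have hRc : ∀ c < k, R (i0 + c) ≤ Rs := fun c hc => hRs ▸ (le_abs_self _).trans
    (Finset.single_le_sum (f := fun c => |R (i0 + c)|) (fun _ _ => abs_nonneg _)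
      (Finset.mem_range.2 hc))
  obtain ⟨i1, M, h1, hM, h2⟩ := seq H (i0 + k) hR0 N
  refine ⟨i1, M, by omega, hM, fun j => ?_⟩
  obtain ⟨W, V, hW, hV, hT⟩ := h2 j
  obtain ⟨T0, hT0, hAT⟩ := hA j
  obtain ⟨T, hT1, hT2⟩ := hk T0 hT0
  choose! col hcol hcol' using hT2
  choose! lab hlab hinj using hN j
  let Q : ℕ → Y → Set Y := fun c y => {y' | Chain (s (R (i0 + c))) (T c ∩ g j '' A j) y y'}
  have hQ : ∀ c y y', y' ∈ Q c y → Q c y' = Q c y := fun c y y' hc => by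
    ext z
    exact ⟨fun hz => Chain.trans hc hz, fun hz => Chain.trans (Chain.symm hc) hz⟩
  have hQ1 : ∀ c, ∀ y ∈ T c ∩ g j '' A j, Q c y ⊆ g j '' A j := fun c y hy z hz =>
    (Chain.mem hz hy).2
  have hQ2 : ∀ c < k, ∀ y, ∀ z ∈ Q c y, ∀ z' ∈ Q c y, dist z z' ≤ D := fun c hc y z hz z' hz' =>
    hT1 c hc z z' ((Chain.trans (Chain.symm hz) hz').mono le_rfl Set.inter_subset_left)
  refine ⟨fun i => if i0 ≤ i ∧ i < i0 + k then {x | x ∈ A j ∧ i0 + col (g j x) = i ∧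
    x ∈ V (lab (Q (col (g j x)) (g j x)) (g j x)) (g j x)} else W i, fun i => ?_, fun y => ?_⟩
  · dsimp only
    split_ifs with hi
    swap
    · exact hW i
    intro x0 x hch
    rcases hch.eq_or_mem with rfl | ⟨hx0, hc0, hv0⟩
    · simpa using hM
    obtain ⟨c, hc⟩ : ∃ c, c = col (g j x0) := ⟨_, rfl⟩
    have hck : c < k := hc ▸ hcol _ (hAT x0 hx0)
    have hmem : ∀ w ∈ A j, i0 + col (g j w) = i → col (g j w) = c ∧ g j w ∈ T c ∩ g j '' A j := by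
      intro w hw he
      have e1 : col (g j w) = c := by omega
      exact ⟨e1, e1 ▸ hcol' _ (hAT w hw), w, hw, rfl⟩
    have hy0 := (hmem x0 hx0 hc0).2
    have hl := hlab _ (hQ1 c _ hy0) (hQ2 c hck _)
    have hj := hinj _ (hQ1 c _ hy0) (hQ2 c hck _)
    have := hch.refine (T' := {w | w ∈ A j ∧ g j w ∈ Q c (g j x0) ∧
        w ∈ V (lab (Q c (g j x0)) (g j w)) (g j w)}) (fun _ => ⟨hx0, Chain.refl _, hc ▸ hv0⟩) (by
      rintro x1 x2 - - ⟨h3, h4, -⟩ ⟨-, h5, -⟩ ⟨h6, h7, h8⟩ hab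
      have h9 : g j x2 ∈ Q c (g j x0) := Chain.tail h4 (hmem x1 h3 h5).2 (hmem x2 h6 h7).2
        (hs _ j x1 h3 x2 h6 (by rw [show i0 + c = i by omega]; exact hab))
      rw [(hmem x2 h6 h7).1, hQ c _ _ h9] at h8
      exact ⟨h6, h9, h8⟩)
    have hne : Nonempty Y := ⟨g j x0⟩
    refine hT (Function.invFunOn (lab (Q c (g j x0))) (Q c (g j x0))) x0 x
      (this.mono (by rw [← show i0 + c = i by omega]; exact hRc c hck) ?_)
    rintro w ⟨-, h4, h5⟩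
    refine ⟨_, hl _ h4, ?_⟩
    rwa [hj.leftInvOn_invFunOn h4]
  · by_cases hy : y ∈ g j '' A j
    swap
    · exact covL_empty τ hM fun x hx => hy ⟨x, hx.1.1, hx.1.2⟩
    obtain ⟨x0, hx0, rfl⟩ := hy
    have hck := hcol _ (hAT x0 hx0)
    have hl := hlab _ (hQ1 _ _ ⟨hcol' _ (hAT x0 hx0), x0, hx0, rfl⟩) (hQ2 _ hck _) _ (Chain.refl _)
    refine (hV _ hl (g j x0)).mono le_rfl ?_
    rintro x ⟨⟨h3, h4⟩, h5⟩
    refine ⟨⟨⟨h3, h4⟩, fun i hi hi' => ?_⟩, fun hx => ?_⟩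
    · have := h5 i (by omega) hi'
      dsimp only at this
      rwa [if_neg (by omega)] at this
    · have := h5 (i0 + col (g j x0)) (by omega) (by omega)
      dsimp only at this
      rw [if_pos ⟨by omega, by omega⟩] at this
      exact this ⟨h3, by rw [h4], by rwa [h4]⟩

theorem core {A : κ → Set X} {g : κ → X → Y} {Z : Set (Set Y)}
    (hZ : Apc1 Z) (hA : ∀ j, ∃ T ∈ Z, ∀ x ∈ A j, g j x ∈ T)
    (hexp : ∀ r : ℝ, ∃ s : ℝ, ∀ j, ∀ x ∈ A j, ∀ x' ∈ A j, dist x x' ≤ r →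
      dist (g j x) (g j x') ≤ s)
    (hfin : ∀ D : ℝ, ∃ N : ℕ, ∀ j, ∀ S : Set Y, S ⊆ g j '' A j →
      (∀ y ∈ S, ∀ y' ∈ S, dist y y' ≤ D) → ∃ lab : Y → ℕ, (∀ y ∈ S, lab y < N) ∧ S.InjOn lab)
    (hfib : Apc1 {S | ∃ j y, S = Fib A g j y}) : Apc1 (Set.range A) := by
  intro R
  have main : Claim A g R [] := by
    by_contra h0
    have hs : ∀ τ : List ℝ, ∃ a, ¬ Claim A g R τ → ¬ Claim A g R (a :: τ) := by
      intro τ
      by_contra hno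
      push Not at hno
      exact (hno 0).1 (step hZ hA hexp hfin fun a => (hno a).2)
    choose nx hnx using hs
    let t : ℕ → List ℝ := fun n => Nat.rec [] (fun _ τ => nx τ :: τ) n
    have ht : ∀ n, ¬ Claim A g R (t n) := fun n => by
      induction n with
      | zero => exact h0
      | succ n ih => exact hnx _ ih
    obtain ⟨k, M, hk⟩ := hfib fun n => nx (t n)
    refine ht k fun i0 => ⟨i0, max M 0, le_rfl, le_max_right _ _, fun j => ⟨fun _ => ∅,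
      fun i => thin_empty _ (le_max_right _ _), fun y => ?_⟩⟩
    obtain ⟨T, h1, h2⟩ := hk _ ⟨j, y, rfl⟩
    have : ∀ n ≤ k, CovL (t n) (max M 0) {x | ∃ i < n, x ∈ T i} := by
      intro n hn
      induction n with
      | zero => exact fun x ⟨_, hi, _⟩ => by omega
      | succ n ih =>
        refine ⟨T n, (h1 n hn).mono le_rfl (le_max_left _ _) subset_rfl,
          (ih (by omega)).mono le_rfl ?_⟩
        rintro x ⟨⟨i, hi, hx⟩, hx'⟩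
        refine ⟨i, ?_, hx⟩
        rcases Nat.lt_succ_iff_lt_or_eq.1 hi with h | rfl
        · exact h
        · exact (hx' hx).elim
    exact (this k le_rfl).mono le_rfl fun x hx => h2 x hx.1
  obtain ⟨i1, M, -, -, h⟩ := main 0
  refine ⟨i1, M, ?_⟩
  rintro _ ⟨j, rfl⟩
  obtain ⟨W, h1, h2⟩ := h j
  refine ⟨W, fun i _ => h1 i, fun x hx => ?_⟩
  by_contra hno
  exact h2 (g j x) x ⟨⟨hx, rfl⟩, fun i _ hi hxi => hno ⟨i, hi, hxi⟩⟩

theorem exists_net (V : Set Y) {D : ℝ} (hD : 0 ≤ D) : ∃ π : Y → Y, (∀ y ∈ V, π y ∈ V ∧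
    dist y (π y) ≤ D) ∧ ∀ y ∈ V, ∀ y' ∈ V, dist (π y) (π y') ≤ D → π y = π y' := by
  obtain ⟨P, hP⟩ := zorn_subset {P : Set Y | P ⊆ V ∧ ∀ a ∈ P, ∀ b ∈ P, dist a b ≤ D → a = b} (by
    intro c hc hch
    refine ⟨⋃₀ c, ⟨fun a ⟨P, hP, ha⟩ => (hc hP).1 ha, ?_⟩, fun P hP => Set.subset_sUnion_of_mem hP⟩
    rintro a ⟨P, hP, ha⟩ b ⟨P', hP', hb⟩ hab
    rcases hch.total hP hP' with h | h
    · exact (hc hP').2 a (h ha) b hb hab
    · exact (hc hP).2 a ha b (h hb) hab)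
  have : ∀ y, ∃ p, y ∈ V → p ∈ P ∧ dist y p ≤ D := by
    intro y
    by_contra hno
    push Not at hno
    have hy := (hno y).1
    have h1 : insert y P ∈ {P : Set Y | P ⊆ V ∧ ∀ a ∈ P, ∀ b ∈ P, dist a b ≤ D → a = b} := by
      refine ⟨Set.insert_subset hy hP.prop.1, ?_⟩
      rintro a (rfl | ha) b (rfl | hb) hab
      · rfl
      · exact absurd hab (not_le.2 ((hno b).2 hb))
      · exact absurd (dist_comm a b ▸ hab) (not_le.2 ((hno a).2 ha))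
      · exact hP.prop.2 a ha b hb hab
    have h2 : y ∈ P := hP.le_of_ge h1 (Set.subset_insert _ _) (Set.mem_insert _ _)
    have := (hno y).2 h2
    rw [dist_self] at this
    linarith
  choose π hπ using this
  exact ⟨π, fun y hy => ⟨hP.prop.1 (hπ y hy).1, (hπ y hy).2⟩,
    fun y hy y' hy' => hP.prop.2 _ (hπ y hy).1 _ (hπ y' hy').1⟩

theorem apc1_sub {𝒳 𝒳' : Set (Set X)} (h : Apc1 𝒳) (hs : ∀ S ∈ 𝒳', ∃ S' ∈ 𝒳, S ⊆ S') :
    Apc1 𝒳' := by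
  intro R
  obtain ⟨k, M, hk⟩ := h R
  refine ⟨k, M, fun S hS => ?_⟩
  obtain ⟨S', h1, h2⟩ := hs S hS
  obtain ⟨T, h3, h4⟩ := hk S' h1
  exact ⟨T, h3, fun x hx => h4 x (h2 hx)⟩

theorem pull {ι : Type*} {A : ι → Set X} {f : ι → X → Y} {𝒴 : Set (Set Y)} {ρ : ℝ → ℝ}
    (hρ : MonotoneOn ρ (Set.Ici 0))
    (hexp : ∀ i, ∀ x ∈ A i, ∀ y ∈ A i, dist (f i x) (f i y) ≤ ρ (dist x y)) {D0 : ℝ}
    (hbg : ∀ D : ℝ, ∃ N : ℕ, ∀ W ∈ 𝒴, ∀ V ⊆ W, (∀ y ∈ V, ∀ y' ∈ V, dist y y' ≤ D) →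
      ∃ U : ℕ → Set Y, (∀ l, ∀ y ∈ U l, ∀ y' ∈ U l, dist y y' ≤ D0) ∧ ∀ y ∈ V, ∃ l < N, y ∈ U l)
    (hfib : ∀ ℬ : Set (Set Y), BddFam ℬ → (∀ V ∈ ℬ, ∃ W ∈ 𝒴, V ⊆ W) → Apc1 (as_pre A f ℬ))
    {Z : Set (Set Y)} (hZ : ∀ V ∈ Z, ∃ W ∈ 𝒴, V ⊆ W) (h : Apc1 Z) : Apc1 (as_pre A f Z) := by
  choose π hπ hπ' using fun V : Set Y => exists_net V (le_max_right D0 0)
  have := core (κ := ι × Z) (A := fun j => A j.1 ∩ f j.1 ⁻¹' j.2)
    (g := fun j x => π j.2 (f j.1 x)) h (fun j => ⟨j.2, j.2.2, fun x hx => (hπ _ _ hx.2).1⟩)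
    (fun r => ⟨ρ |r| + 2 * max D0 0, fun j x hx x' hx' hd => ?_⟩) (fun D => ?_) ?_
  · refine apc1_sub this ?_
    rintro _ ⟨i, V, hV, rfl⟩
    exact ⟨_, ⟨(i, ⟨V, hV⟩), rfl⟩, subset_rfl⟩
  · have h1 := (hexp _ x hx.1 x' hx'.1).trans
      (hρ dist_nonneg (abs_nonneg r) (hd.trans (le_abs_self r)))
    have h2 := (hπ j.2 _ hx.2).2
    have h3 := (hπ j.2 _ hx'.2).2
    have h4 := dist_triangle4 (π j.2 (f j.1 x)) (f j.1 x) (f j.1 x') (π j.2 (f j.1 x'))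
    rw [dist_comm] at h2
    linarith
  · obtain ⟨N, hN⟩ := hbg D
    refine ⟨N, fun j S hS hD => ?_⟩
    obtain ⟨W, hW, hVW⟩ := hZ _ j.2.2
    obtain ⟨U, hU, hU'⟩ := hN W hW S (fun y hy => by
      obtain ⟨x, hx, rfl⟩ := hS hy
      exact hVW (hπ _ _ hx.2).1) hD
    choose! lab h1 h2 using hU'
    refine ⟨lab, h1, fun y hy y' hy' e => ?_⟩
    have h3 := hU _ y (h2 y hy) y' (e ▸ h2 y' hy')
    obtain ⟨x, hx, rfl⟩ := hS hy
    obtain ⟨x', hx', rfl⟩ := hS hy'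
    exact hπ' _ _ hx.2 _ hx'.2 (h3.trans (le_max_left _ _))
  · refine apc1_sub (hfib {S | ∃ V ∈ Z, ∃ y, S = V ∩ Metric.closedBall y (max D0 0)}
      ⟨2 * max D0 0, ?_⟩ ?_) ?_
    · rintro _ ⟨V, -, y, rfl⟩ a ha b hb
      have h1 := Metric.mem_closedBall.1 ha.2
      have h2 := Metric.mem_closedBall.1 hb.2
      linarith [dist_triangle_right a b y]
    · rintro _ ⟨V, hV, y, rfl⟩
      obtain ⟨W, hW, hVW⟩ := hZ V hV
      exact ⟨W, hW, Set.inter_subset_left.trans hVW⟩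
    · rintro _ ⟨j, y, rfl⟩
      refine ⟨_, ⟨j.1, _, ⟨j.2, j.2.2, y, rfl⟩, rfl⟩, fun x hx => ⟨hx.1.1, hx.1.2, ?_⟩⟩
      have := (hπ j.2 _ hx.1.2).2
      rw [show π j.2 (f j.1 x) = y from hx.2] at this
      exact this

theorem cls_of_pull {ι : Type*} {A : ι → Set X} {f : ι → X → Y} {𝒴 : Set (Set Y)} {ρ : ℝ → ℝ}
    (hρ : MonotoneOn ρ (Set.Ici 0))
    (hexp : ∀ i, ∀ x ∈ A i, ∀ y ∈ A i, dist (f i x) (f i y) ≤ ρ (dist x y))
    (hp : ∀ Z : Set (Set Y), (∀ V ∈ Z, ∃ W ∈ 𝒴, V ⊆ W) → Apc1 Z → Apc1 (as_pre A f Z))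
    (α : Ordinal.{u}) : 0 < α → ∀ Z : Set (Set Y), (∀ V ∈ Z, ∃ W ∈ 𝒴, V ⊆ W) → Cls α Z →
      Cls α (as_pre A f Z) := by
  induction α using WellFoundedLT.induction with
  | ind α ih =>
  intro hα Z hZ h
  rcases (Order.one_le_iff_pos.2 hα).eq_or_lt with rfl | h1
  · exact cls_of_apc1 (hp Z hZ (apc1_of_cls h))
  refine (cls_pos hα _).2 fun R hR => ?_
  obtain ⟨β, hβ, 𝒵, h𝒵, k, hk1, hk⟩ :=
    (cls_pos hα Z).1 h (fun m => |ρ (R m)| + 1) fun m => by positivity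
  have hs : Cls β {V | V ∈ 𝒵 ∧ ∃ W ∈ 𝒴, V ⊆ W} := as_cls_sub h𝒵 fun V hV => hV.1
  have hd : Decomp R (as_pre A f Z) (as_pre A f {V | V ∈ 𝒵 ∧ ∃ W ∈ 𝒴, V ⊆ W}) := by
    refine ⟨k, hk1, ?_⟩
    rintro _ ⟨i, V0, hV0, rfl⟩
    obtain ⟨𝒰, h2, h3⟩ := hk V0 hV0
    obtain ⟨W0, hW0, hVW⟩ := hZ V0 hV0
    refine ⟨fun m => (fun U => A i ∩ f i ⁻¹' U) '' 𝒰 m, fun m hm => ⟨?_, ?_, ?_⟩, fun x hx => ?_⟩
    · rintro _ ⟨U, hU, rfl⟩
      exact ⟨i, U, ⟨(h2 m hm).1 hU, W0, hW0, ((h2 m hm).2.1 U hU).trans hVW⟩, rfl⟩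
    · rintro _ ⟨U, hU, rfl⟩
      exact Set.inter_subset_inter_right _ (Set.preimage_mono ((h2 m hm).2.1 U hU))
    · rintro _ ⟨U, hU, rfl⟩ _ ⟨V, hV, rfl⟩ hne x hx y hy
      have hUV : U ≠ V := fun e => hne (by rw [e])
      have h4 := (h2 m hm).2.2 U hU V hV hUV _ hx.2 _ hy.2
      by_contra hlt
      have h5 := (hexp i x hx.1 y hy.1).trans (hρ dist_nonneg (hR m).le (not_le.1 hlt).le)
      have h6 := le_abs_self (ρ (R m))
      linarith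
    · obtain ⟨m, hm, U, hU, hxU⟩ := h3 _ hx.2
      exact ⟨m, hm, _, ⟨U, hU, rfl⟩, hx.1, hxU⟩
  rcases (zero_le (a := β)).eq_or_lt with rfl | hβ0
  · exact ⟨1, h1, _, cls_of_apc1 (hp _ (fun V hV => hV.2) (apc1_of_bdd ((cls_zero _).1 hs))), hd⟩
  · exact ⟨β, hβ, _, ih β hβ hβ0 _ (fun V hV => hV.2) hs, hd⟩

end Pool.Agent.Apc.Bar
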