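import Pool.Agent.Lib.MP_4f4e79_gt.Thin

/-!
Integer chains on lists of points, with a bound on the number of terms and on the support, and
the local collapse property `Coll`.
-/

namespace Pool.Agent.Apc.Trap

open FreeAbelianGroup

variable {X : Type*}

/-- Integer chains on lists. -/
abbrev Ch (X : Type*) := FreeAbelianGroup (List X)

/-- The cone with vertex `x`. -/
def cons (x : X) : Ch X →+ Ch X := FreeAbelianGroup.lift fun l => of (x :: l)

/-- The boundary of a list. -/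
def bd1 : List X → Ch X
  | [] => 0
  | x :: l => of l - cons x (bd1 l)

/-- The boundary operator. -/
def bd : Ch X →+ Ch X := FreeAbelianGroup.lift bd1

@[simp] theorem cons_of (x : X) (l : List X) : cons x (of l) = of (x :: l) := by simp [cons]

theorem bd_of (l : List X) : bd (of l) = bd1 l := by simp [bd]

theorem bd_nil : bd (of ([] : List X)) = 0 := by rw [bd_of, bd1]

theorem bd_of_cons (x : X) (l : List X) : bd (of (x :: l)) = of l - cons x (bd (of l)) := by
  rw [bd_of, bd_of, bd1]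

theorem bd_cons (x : X) (z : Ch X) : bd (cons x z) = z - cons x (bd z) := by
  have : bd.comp (cons x) = AddMonoidHom.id _ - (cons x).comp bd := by
    refine FreeAbelianGroup.lift_ext _ _ fun l => ?_
    simp [bd_of_cons]
  exact DFunLike.congr_fun this z

theorem bd_bd (z : Ch X) : bd (bd z) = 0 := by
  have : bd.comp bd = (0 : Ch X →+ Ch X) := by
    refine FreeAbelianGroup.lift_ext _ _ fun l => ?_
    induction l with
    | nil => simp [bd_nil]
    | cons x l ih =>
      simp only [AddMonoidHom.comp_apply, AddMonoidHom.zero_apply] at ih ⊢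
      rw [bd_of_cons, map_sub, bd_cons, ih]
      simp
  exact DFunLike.congr_fun this z

/-- `z` is a signed sum of at most `n` lists with the property `P`. -/
inductive Bd (P : List X → Prop) : ℕ → Ch X → Prop
  | zero (n : ℕ) : Bd P n 0
  | plus {n : ℕ} {z : Ch X} {l : List X} : P l → Bd P n z → Bd P (n + 1) (z + of l)
  | minus {n : ℕ} {z : Ch X} {l : List X} : P l → Bd P n z → Bd P (n + 1) (z - of l)

variable {P Q : List X → Prop} {n m : ℕ} {z w : Ch X}

theorem Bd.le (h : Bd P n z) (hm : n ≤ m) : Bd P m z := by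
  induction h generalizing m with
  | zero => exact Bd.zero _
  | plus hl _ ih =>
    obtain ⟨m, rfl⟩ : ∃ k, m = k + 1 := ⟨m - 1, by omega⟩
    exact Bd.plus hl (ih (by omega))
  | minus hl _ ih =>
    obtain ⟨m, rfl⟩ : ∃ k, m = k + 1 := ⟨m - 1, by omega⟩
    exact Bd.minus hl (ih (by omega))

theorem Bd.imp (h : Bd P n z) (hPQ : ∀ l, P l → Q l) : Bd Q n z := by
  induction h with
  | zero => exact Bd.zero _
  | plus hl _ ih => exact Bd.plus (hPQ _ hl) ih
  | minus hl _ ih => exact Bd.minus (hPQ _ hl) ih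

theorem Bd.single {l : List X} (hl : P l) : Bd P 1 (of l) := by
  simpa using Bd.plus hl (Bd.zero 0)

theorem Bd.add (h : Bd P n z) (h' : Bd P m w) : Bd P (n + m) (z + w) := by
  induction h' with
  | zero k => simpa using h.le (by omega)
  | plus hl _ ih => rw [← add_assoc, ← add_assoc]; exact Bd.plus hl ih
  | minus hl _ ih => rw [← add_assoc, ← add_sub_assoc]; exact Bd.minus hl ih

theorem Bd.neg (h : Bd P n z) : Bd P n (-z) := by
  induction h with
  | zero => simpa using Bd.zero _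
  | plus hl _ ih => rw [neg_add, ← sub_eq_add_neg]; exact Bd.minus hl ih
  | minus hl _ ih => rw [neg_sub', sub_neg_eq_add]; exact Bd.plus hl ih

theorem Bd.sub (h : Bd P n z) (h' : Bd P m w) : Bd P (n + m) (z - w) := by
  rw [sub_eq_add_neg]; exact h.add h'.neg

theorem Bd.map (h : Bd P n z) (f : Ch X →+ Ch X) {k : ℕ} (hf : ∀ l, P l → Bd Q k (f (of l))) :
    Bd Q (n * k) (f z) := by
  induction h with
  | zero => simpa using Bd.zero _
  | plus hl _ ih => rw [map_add, Nat.succ_mul]; exact ih.add (hf _ hl)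
  | minus hl _ ih => rw [map_sub, Nat.succ_mul]; exact ih.sub (hf _ hl)

theorem Bd.mem {A : Type*} [AddCommGroup A] (h : Bd P n z) (f : Ch X →+ A) (S : AddSubgroup A)
    (hf : ∀ l, P l → f (of l) ∈ S) : f z ∈ S := by
  induction h with
  | zero => simp
  | plus hl _ ih => rw [map_add]; exact S.add_mem ih (hf _ hl)
  | minus hl _ ih => rw [map_sub]; exact S.sub_mem ih (hf _ hl)

theorem Bd.congr {A : Type*} [AddCommGroup A] (h : Bd P n z) (f g : Ch X →+ A)
    (hf : ∀ l, P l → f (of l) = g (of l)) : f z = g z := by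
  have := h.mem (f - g) ⊥ fun l hl => by simp [hf l hl]
  simpa [sub_eq_zero] using this

theorem Bd.kill {A : Type*} [AddCommGroup A] (h : Bd P n z) (f : Ch X →+ A)
    (hf : ∀ l, P l → f (of l) = 0) : f z = 0 := h.congr f 0 hf

theorem Bd.abs_le (h : Bd P n z) (f : Ch X →+ ℤ) {k : ℤ} (hk : 0 ≤ k)
    (hf : ∀ l, P l → |f (of l)| ≤ k) : |f z| ≤ n * k := by
  induction h with
  | zero => simpa using by positivity
  | plus hl _ ih =>
    rw [map_add]; push_cast
    exact (abs_add_le _ _).trans (by linarith [hf _ hl])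
  | minus hl _ ih =>
    rw [map_sub]; push_cast
    exact (abs_sub _ _).trans (by linarith [hf _ hl])

/-- The faces of a list. -/
theorem bd_face (l : List X) :
    Bd (fun l' => l'.length + 1 = l.length ∧ ∀ p ∈ l', p ∈ l) l.length (bd (of l)) := by
  induction l with
  | nil => rw [bd_nil]; exact Bd.zero _
  | cons x l ih =>
    rw [bd_of_cons]
    have h1 : Bd (fun l' => l'.length + 1 = (x :: l).length ∧ ∀ p ∈ l', p ∈ x :: l) 1 (of l) :=
      Bd.single ⟨by simp, fun p hp => List.mem_cons_of_mem _ hp⟩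
    have h2 := ih.map (Q := fun l' => l'.length + 1 = (x :: l).length ∧ ∀ p ∈ l', p ∈ x :: l)
      (cons x) (k := 1) fun l' hl' => by
        rw [cons_of]
        refine Bd.single ⟨by simp [hl'.1], fun p hp => ?_⟩
        rcases List.mem_cons.1 hp with rfl | hp
        · exact List.mem_cons_self
        · exact List.mem_cons_of_mem _ (hl'.2 p hp)
    exact (h1.sub h2).le (by simp; omega)

/-- The chain map induced by a map of points. -/
def push (ρ : X → X) : Ch X →+ Ch X := FreeAbelianGroup.lift fun l => of (l.map ρ)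

theorem push_of (ρ : X → X) (l : List X) : push ρ (of l) = of (l.map ρ) := by simp [push]

theorem push_cons (ρ : X → X) (x : X) (z : Ch X) : push ρ (cons x z) = cons (ρ x) (push ρ z) := by
  have : (push ρ).comp (cons x) = (cons (ρ x)).comp (push ρ) := by
    refine FreeAbelianGroup.lift_ext _ _ fun l => ?_
    simp [push_of]
  exact DFunLike.congr_fun this z

theorem bd_push (ρ : X → X) (z : Ch X) : bd (push ρ z) = push ρ (bd z) := by
  have : bd.comp (push ρ) = (push ρ).comp bd := by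
    refine FreeAbelianGroup.lift_ext _ _ fun l => ?_
    induction l with
    | nil => simp [push_of, bd_nil]
    | cons x l ih =>
      simp only [AddMonoidHom.comp_apply, push_of] at ih ⊢
      rw [List.map_cons, bd_of_cons, bd_of_cons, map_sub, push_cons, ih, push_of]
  exact DFunLike.congr_fun this z

variable [PseudoMetricSpace X]

/-- `l` has length `n`, lies in `A` and has diameter at most `r`. -/
def Sm (r : ℝ) (A : Set X) (n : ℕ) (l : List X) : Prop :=
  l.length = n ∧ (∀ x ∈ l, x ∈ A) ∧ ∀ x ∈ l, ∀ y ∈ l, dist x y ≤ r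

/-- `l` has length `n` and each of its points is within `μ` of a point of `τ`. -/
def Nr (μ : ℝ) (n : ℕ) (τ l : List X) : Prop :=
  l.length = n ∧ ∀ p ∈ l, ∃ x ∈ τ, dist p x ≤ μ

/-- The `r`-small chains of `A` collapse, locally and with bounded norm, to lists of length `q`. -/
def Coll (q K : ℕ) (r μ : ℝ) (A : Set X) : Prop :=
  ∃ C : Ch X →+ Ch X, (∀ τ, Bd (Nr μ (q + 1) τ) K (C (of τ))) ∧
    ∀ σ, Sm r A (q + 1) σ → bd (C (bd (of σ))) = bd (of σ)

/-- `A` is covered by `m` sets whose `r`-chains have end points within `M`. -/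
def Col (m : ℕ) (r M : ℝ) (A : Set X) : Prop :=
  ∃ κ : X → ℕ, (∀ x ∈ A, κ x < m) ∧ ∀ a, Thin r M {x | x ∈ A ∧ κ x = a}

theorem Col.mono {m m' : ℕ} {r r' M M' : ℝ} {A A' : Set X} (h : Col m r M A) (hm : m ≤ m')
    (hr : r' ≤ r) (hM : M ≤ M') (hA : A' ⊆ A) : Col m' r' M' A' := by
  obtain ⟨κ, h1, h2⟩ := h
  exact ⟨κ, fun x hx => (h1 x (hA hx)).trans_le hm,
    fun a => (h2 a).mono hr hM fun x hx => ⟨hA hx.1, hx.2⟩⟩

theorem Coll.mono {q K K' : ℕ} {r r' μ μ' : ℝ} {A A' : Set X} (h : Coll q K r μ A) (hK : K ≤ K')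
    (hr : r' ≤ r) (hμ : μ ≤ μ') (hA : A' ⊆ A) : Coll q K' r' μ' A' := by
  obtain ⟨C, h1, h2⟩ := h
  refine ⟨C, fun τ => ((h1 τ).le hK).imp fun l hl => ⟨hl.1, fun p hp => ?_⟩, fun σ hσ =>
    h2 σ ⟨hσ.1, fun x hx => hA (hσ.2.1 x hx), fun x hx y hy => (hσ.2.2 x hx y hy).trans hr⟩⟩
  obtain ⟨x, hx, hd⟩ := hl.2 p hp
  exact ⟨x, hx, hd.trans hμ⟩

theorem coll_empty (q K : ℕ) (r μ : ℝ) {A : Set X} (hA : ∀ x, x ∉ A) : Coll q K r μ A := by
  refine ⟨0, fun τ => Bd.zero _, fun σ hσ => ?_⟩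
  obtain ⟨x, l, rfl⟩ := List.exists_cons_of_length_eq_add_one hσ.1
  exact (hA x (hσ.2.1 x List.mem_cons_self)).elim

/-- The targets of a collapse can be moved into the set. -/
theorem Coll.retract {q K : ℕ} {r μ : ℝ} {A : Set X} (h : Coll q K r μ A) :
    ∃ C : Ch X →+ Ch X, (∀ τ, Bd (fun l => Nr (2 * μ) (q + 1) τ l ∧ ∀ p ∈ l, p ∈ A) K (C (of τ))) ∧
      ∀ σ, Sm r A (q + 1) σ → bd (C (bd (of σ))) = bd (of σ) := by
  classical
  obtain ⟨C, h1, h2⟩ := h
  have hρ : ∀ p : X, ∃ p' : X, (p ∈ A → p' = p) ∧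
      ((∃ x ∈ A, dist p x ≤ μ) → p' ∈ A ∧ dist p p' ≤ μ) := by
    intro p
    by_cases hp : p ∈ A
    · exact ⟨p, fun _ => rfl, fun ⟨x, _, hx⟩ => ⟨hp, by simpa using dist_nonneg.trans hx⟩⟩
    · by_cases hx : ∃ x ∈ A, dist p x ≤ μ
      · obtain ⟨x, hx, hd⟩ := hx
        exact ⟨x, fun h => (hp h).elim, fun _ => ⟨hx, hd⟩⟩
      · exact ⟨p, fun _ => rfl, fun h => (hx h).elim⟩
  choose ρ hρ1 hρ2 using hρ
  refine ⟨FreeAbelianGroup.lift fun τ => if ∀ x ∈ τ, x ∈ A then push ρ (C (of τ)) else 0,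
    fun τ => ?_, fun σ hσ => ?_⟩
  · rw [FreeAbelianGroup.lift_apply_of]
    split_ifs with hτ
    · refine ((h1 τ).map (push ρ) (k := 1) fun l hl => ?_).le (by omega)
      rw [push_of]
      have key : ∀ p ∈ l, ρ p ∈ A ∧ ∃ x ∈ τ, dist (ρ p) x ≤ 2 * μ := by
        intro p hp
        obtain ⟨x, hx, hd⟩ := hl.2 p hp
        obtain ⟨h3, h4⟩ := hρ2 p ⟨x, hτ x hx, hd⟩
        exact ⟨h3, x, hx, by linarith [dist_triangle_left (ρ p) x p]⟩
      refine Bd.single ⟨⟨by simp [hl.1], fun p hp => ?_⟩, fun p hp => ?_⟩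
      · obtain ⟨p', hp', rfl⟩ := List.mem_map.1 hp
        exact (key p' hp').2
      · obtain ⟨p', hp', rfl⟩ := List.mem_map.1 hp
        exact (key p' hp').1
    · exact Bd.zero _
  · have e1 := (bd_face σ).congr (FreeAbelianGroup.lift fun τ =>
        if ∀ x ∈ τ, x ∈ A then push ρ (C (of τ)) else 0) ((push ρ).comp C) fun l hl => by
      rw [FreeAbelianGroup.lift_apply_of, if_pos fun x hx => hσ.2.1 x (hl.2 x hx)]
      rfl
    have e2 := (bd_face σ).congr (push ρ) (AddMonoidHom.id _) fun l hl => by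
      rw [push_of, List.map_congr_left (g := id) fun x hx => hρ1 x (hσ.2.1 x (hl.2 x hx))]
      simp
    rw [e1, AddMonoidHom.comp_apply, bd_push, h2 σ hσ, e2]
    rfl

/-- `1`-Lipschitz real functions. -/
def Lip (g : X → ℝ) : Prop := ∀ x y, g x - g y ≤ dist x y

/-- The coordinates `f k`, `k ∈ I`, form a light map on `C` with control `D` up to scale `rm`. -/
def Light (D : ℝ → ℝ → ℝ) (rm : ℝ) (f : ℕ → X → ℝ) (I : Finset ℕ) (C : Set X) : Prop :=
  ∀ r s : ℝ, r ≤ rm → s ≤ rm → ∀ P : Set X, P ⊆ C →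
    (∀ x ∈ P, ∀ y ∈ P, ∀ k ∈ I, |f k x - f k y| ≤ s) → Thin r (D r s) P

/-- A zigzag function of period `2 s`. -/
def Zig (s : ℝ) (z : ℝ → ℝ) : Prop :=
  (∀ a b, z a - z b ≤ |a - b|) ∧
  (∀ y T, |z y| ≤ T → ∃ m : ℤ, |y - (s / 2 + s * m)| ≤ T) ∧
  (∀ y T, -T ≤ z y → ∃ j : ℤ, |y - 2 * s * j| ≤ s / 2 + T) ∧
  (∀ y T, z y ≤ T → ∃ j : ℤ, |y - (s + 2 * s * j)| ≤ s / 2 + T)

/-- Where `Y` is small, `g` is close to the lattice `s / 2 + s ℤ`. -/
def Pin (s : ℝ) (g Y : X → ℝ) : Prop :=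
  ∀ x T, |Y x| ≤ T → ∃ m : ℤ, |g x - (s / 2 + s * m)| ≤ T

/-- The property `P` can be achieved by removing thin sets `W j a`. -/
def Ach {J : Type*} {α : Type} (P : α → (J → ℕ → Set X) → Prop) : Prop :=
  ∀ R : ℝ, ∃ (M : ℝ) (W : J → ℕ → Set X) (x : α), (∀ j a, Thin R M (W j a)) ∧
    ∀ W' : J → ℕ → Set X, (∀ j a, W j a ⊆ W' j a) → P x W'

end Pool.Agent.Apc.Trap
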