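import Pool.Agent.Lib.MP_4f4e79_gt.Ch

namespace Pool.Agent.Apc.Trap

open FreeAbelianGroup

section cone

variable {X : Type*}

open Classical in
/-- The cone that kills the lists starting with the vertex. -/
noncomputable def cc_cone (v : X) : Ch X →+ Ch X :=
  FreeAbelianGroup.lift fun l => if l.head? = some v then 0 else of (v :: l)

theorem cc_cone_not {v : X} {l : List X} (h : v ∉ l) : cc_cone v (of l) = of (v :: l) := by
  rw [cc_cone, FreeAbelianGroup.lift_apply_of,
    if_neg fun e : l.head? = some v => h (List.mem_of_mem_head? e)]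

theorem cc_cone_head (v : X) (l : List X) : cc_cone v (of (v :: l)) = 0 := by
  rw [cc_cone, FreeAbelianGroup.lift_apply_of, if_pos List.head?_cons]

theorem cc_cone_cons (v : X) (z : Ch X) : cc_cone v (cons v z) = 0 := by
  have : (cc_cone v).comp (cons v) = 0 := by
    refine FreeAbelianGroup.lift_ext _ _ fun l => ?_
    simp [cc_cone_head]
  exact DFunLike.congr_fun this z

theorem cc_bd_not {v : X} {l : List X} (h : v ∉ l) :
    bd (cc_cone v (of l)) = of l - cc_cone v (bd (of l)) := by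
  rw [cc_cone_not h, bd_of_cons, (bd_face l).congr (cons v) (cc_cone v) fun l' hl' => by
    rw [cons_of, cc_cone_not fun e => h (hl'.2 v e)]]

theorem cc_bd_head {v : X} {l : List X} (h : v ∉ l) :
    bd (cc_cone v (of (v :: l))) = of (v :: l) - cc_cone v (bd (of (v :: l))) := by
  rw [cc_cone_head, map_zero, bd_of_cons, map_sub, cc_cone_cons, cc_cone_not h, sub_zero, sub_self]

/-- Lists of representatives of points of `s` with increasing colours. -/
def cc_Inc (κ : X → ℕ) (p : X → X) (s : List X) (n : ℕ) (l : List X) : Prop :=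
  l.length = n ∧ l.Pairwise (fun a b => κ a < κ b) ∧ ∀ y ∈ l, ∃ x ∈ s, y = p x

theorem cc_step {κ : X → ℕ} {p : X → X} {s : List X} {y : X} (hy : y ∈ s)
    (h : ∀ x ∈ s, κ (p y) ≤ κ (p x) ∧ (κ (p x) = κ (p y) → p x = p y)) {n k : ℕ} {z : Ch X}
    (hz : Bd (cc_Inc κ p s n) k z) : Bd (cc_Inc κ p s (n + 1)) k (cc_cone (p y) z) ∧
      bd (cc_cone (p y) z) = z - cc_cone (p y) (bd z) := by
  have key : ∀ l, cc_Inc κ p s n l → p y ∉ l ∨ ∃ t, l = p y :: t ∧ p y ∉ t := by
    intro l hl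
    by_cases hm : p y ∈ l
    · obtain ⟨a, t, rfl⟩ := List.exists_cons_of_ne_nil (List.ne_nil_of_mem hm)
      obtain ⟨x, hx, rfl⟩ := hl.2.2 a List.mem_cons_self
      have ht : p y ∉ t := fun e =>
        absurd ((List.pairwise_cons.1 hl.2.1).1 _ e) (not_lt.2 (h x hx).1)
      exact Or.inr ⟨t, by rw [(List.mem_cons.1 hm).resolve_right ht], ht⟩
    · exact Or.inl hm
  constructor
  · refine (hz.map (cc_cone (p y)) (k := 1) fun l hl => ?_).le (by omega)
    rcases key l hl with hm | ⟨t, rfl, -⟩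
    · rw [cc_cone_not hm]
      refine Bd.single ⟨by rw [List.length_cons, hl.1], List.pairwise_cons.2 ⟨fun a ha => ?_,
        hl.2.1⟩, fun a ha => ?_⟩
      · obtain ⟨x, hx, rfl⟩ := hl.2.2 a ha
        exact lt_of_le_of_ne (h x hx).1 fun e => hm ((h x hx).2 e.symm ▸ ha)
      · rcases List.mem_cons.1 ha with rfl | ha
        · exact ⟨y, hy, rfl⟩
        · exact hl.2.2 a ha
    · rw [cc_cone_head]
      exact Bd.zero _
  · refine hz.congr (bd.comp (cc_cone (p y)))
      (AddMonoidHom.id _ - (cc_cone (p y)).comp bd) fun l hl => ?_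
    rcases key l hl with hm | ⟨t, rfl, ht⟩
    · exact cc_bd_not hm
    · exact cc_bd_head ht

theorem cc_least (κ : X → ℕ) (x : X) (t : List X) :
    ∃ y, y ∈ x :: t ∧ ∀ z ∈ x :: t, κ y ≤ κ z := by
  induction t with
  | nil => exact ⟨x, List.mem_cons_self, by simp⟩
  | cons a t ih =>
    obtain ⟨y, h1, h2⟩ := ih
    simp only [List.mem_cons, forall_eq_or_imp] at h1 h2 ⊢
    rcases le_total (κ y) (κ a) with e | e
    · exact ⟨y, by tauto, h2.1, e, h2.2⟩
    · exact ⟨a, by tauto, e.trans h2.1, le_rfl, fun z hz => e.trans (h2.2 z hz)⟩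

end cone

variable {X : Type*} [PseudoMetricSpace X]

/-- Representatives of the colour components. -/
structure cc_Rep (r M : ℝ) (A : Set X) (κ : X → ℕ) (p : X → X) : Prop where
  near : ∀ x, dist (p x) x ≤ M
  col : ∀ x ∈ A, κ (p x) = κ x
  eq : ∀ x ∈ A, ∀ y ∈ A, κ x = κ y → dist x y ≤ r → p x = p y

theorem cc_exists_rep {r M : ℝ} {A : Set X} {κ : X → ℕ}
    (h : ∀ a, Thin r M {x | x ∈ A ∧ κ x = a}) : ∃ p, cc_Rep r M A κ p := by
  let p : X → X := fun x =>
    @Classical.epsilon X ⟨x⟩ fun y => Chain r {z | z ∈ A ∧ κ z = κ x} x y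
  have hp : ∀ x, Chain r {z | z ∈ A ∧ κ z = κ x} x (p x) := fun x =>
    Classical.epsilon_spec ⟨x, Chain.refl x⟩
  refine ⟨p, fun x => (h _) _ _ (hp x).symm, fun x hx => ((hp x).mem ⟨hx, rfl⟩).2,
    fun x hx y hy e hd => ?_⟩
  have hc : Chain r {z | z ∈ A ∧ κ z = κ y} x y := (Chain.refl x).tail ⟨hx, e⟩ ⟨hy, rfl⟩ hd
  have : (fun w => Chain r {z | z ∈ A ∧ κ z = κ x} x w) =
      fun w => Chain r {z | z ∈ A ∧ κ z = κ y} y w := by
    funext w
    rw [e]
    exact propext ⟨hc.symm.trans, hc.trans⟩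
  simp only [p, this]

variable {r M : ℝ} {A : Set X} {κ : X → ℕ} {p : X → X} {n : ℕ}

theorem cc_face {σ l : List X} (hσ : Sm r A (n + 1) σ)
    (hl : l.length + 1 = σ.length ∧ ∀ x ∈ l, x ∈ σ) : Sm r A n l :=
  ⟨by have := hσ.1; omega, fun x hx => hσ.2.1 x (hl.2 x hx),
    fun x hx y hy => hσ.2.2 x (hl.2 x hx) y (hl.2 y hy)⟩

theorem cc_min (h : cc_Rep r M A κ p) {s : List X} (hs : Sm r A n s) {y : X} (hy : y ∈ s)
    (hm : ∀ z ∈ s, κ y ≤ κ z) :
    ∀ x ∈ s, κ (p y) ≤ κ (p x) ∧ (κ (p x) = κ (p y) → p x = p y) := fun x hx => by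
  rw [h.col x (hs.2.1 x hx), h.col y (hs.2.1 y hy)]
  exact ⟨hm x hx, fun e => h.eq x (hs.2.1 x hx) y (hs.2.1 y hy) e (hs.2.2 x hx y hy)⟩

theorem cc_bdG {G : Ch X →+ Ch X} {K : ℕ}
    (hG : ∀ l, Sm r A n l → Bd (cc_Inc κ p l n) K (G (of l))) {σ : List X}
    (hσ : Sm r A (n + 1) σ) : Bd (cc_Inc κ p σ n) ((n + 1) * K) (G (bd (of σ))) := by
  rw [← hσ.1]
  exact (bd_face σ).map G fun l hl => (hG l (cc_face hσ hl)).imp fun t ht =>
    ⟨ht.1, ht.2.1, fun y hy => (ht.2.2 y hy).imp fun x hx => ⟨hl.2 x hx.1, hx.2⟩⟩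

theorem cc_ind (n : ℕ) : ∃ K : ℕ, ∀ (r M : ℝ) (A : Set X) (κ : X → ℕ) (p : X → X),
    cc_Rep r M A κ p → ∃ G H : Ch X →+ Ch X,
      (∀ l, Sm r A n l → Bd (cc_Inc κ p l n) K (G (of l))) ∧
      (∀ l, Sm r A n l → Bd (Nr M (n + 1) l) K (H (of l))) ∧
      ∀ l, Sm r A (n + 1) l → bd (G (bd (of l))) = 0 ∧
        bd (H (bd (of l))) = bd (of l) - G (bd (of l)) := by
  induction n with
  | zero =>
    refine ⟨1, fun r M A κ p _ => ⟨AddMonoidHom.id _, 0, fun l hl => ?_, fun l _ => Bd.zero _,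
      fun l _ => ⟨bd_bd _, by simp⟩⟩⟩
    obtain rfl := List.eq_nil_of_length_eq_zero hl.1
    exact Bd.single ⟨rfl, List.Pairwise.nil, by simp⟩
  | succ n ih =>
    obtain ⟨K, ih⟩ := ih
    refine ⟨1 + (n + 1) * K + (n + 1) * K, fun r M A κ p h => ?_⟩
    obtain ⟨G, H, g1, g2, g3⟩ := ih r M A κ p h
    choose m m1 m2 using cc_least κ
    let G' : Ch X →+ Ch X := FreeAbelianGroup.lift fun l => match l with
      | [] => 0
      | x :: t => cc_cone (p (m x t)) (G (bd (of (x :: t))))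
    let H' : Ch X →+ Ch X := FreeAbelianGroup.lift fun l => match l with
      | [] => 0
      | x :: t => cons x (of (x :: t) - G' (of (x :: t)) - H (bd (of (x :: t))))
    have a1 : ∀ l, Sm r A (n + 1) l → Bd (cc_Inc κ p l (n + 1)) ((n + 1) * K) (G' (of l)) ∧
        bd (G' (of l)) = G (bd (of l)) := by
      intro l hl
      obtain ⟨x, t, rfl⟩ := List.exists_cons_of_length_eq_add_one hl.1
      have e : G' (of (x :: t)) = cc_cone (p (m x t)) (G (bd (of (x :: t)))) :=
        FreeAbelianGroup.lift_apply_of _ _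
      obtain ⟨b1, b2⟩ := cc_step (m1 x t) (cc_min h hl (m1 x t) (m2 x t)) (cc_bdG g1 hl)
      rw [e, b2, (g3 _ hl).1, map_zero, sub_zero]
      exact ⟨b1, rfl⟩
    have a2 : ∀ l, Sm r A (n + 1) l →
        Bd (Nr M (n + 1 + 1) l) (1 + (n + 1) * K + (n + 1) * K) (H' (of l)) ∧
        bd (H' (of l)) = of l - G' (of l) - H (bd (of l)) := by
      intro l hl
      obtain ⟨x, t, rfl⟩ := List.exists_cons_of_length_eq_add_one hl.1
      have e : H' (of (x :: t)) =
          cons x (of (x :: t) - G' (of (x :: t)) - H (bd (of (x :: t)))) :=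
        FreeAbelianGroup.lift_apply_of _ _
      have hM : ∀ a : X, dist a a ≤ M := fun a => (dist_self a).le.trans
        (dist_nonneg.trans (h.near a))
      constructor
      · have b1 : Bd (Nr M (n + 1) (x :: t)) 1 (of (x :: t)) :=
          Bd.single ⟨hl.1, fun a ha => ⟨a, ha, hM a⟩⟩
        have b2 : Bd (Nr M (n + 1) (x :: t)) _ _ := (a1 _ hl).1.imp fun s hs =>
          ⟨hs.1, fun a ha => by
            obtain ⟨b, hb, rfl⟩ := hs.2.2 a ha
            exact ⟨b, hb, h.near b⟩⟩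
        have b3 : Bd (Nr M (n + 1) (x :: t)) ((n + 1) * K) (H (bd (of (x :: t)))) := by
          have := (bd_face (x :: t)).map H (Q := Nr M (n + 1) (x :: t)) fun s hs =>
            (g2 s (cc_face hl hs)).imp fun u hu =>
              ⟨hu.1, fun a ha => (hu.2 a ha).imp fun b hb => ⟨hs.2 b hb.1, hb.2⟩⟩
          rwa [hl.1] at this
        rw [e]
        refine (((b1.sub b2).sub b3).map (cons x) (k := 1) fun s hs => ?_).le (by omega)
        rw [cons_of]
        refine Bd.single ⟨by rw [List.length_cons, hs.1], fun a ha => ?_⟩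
        rcases List.mem_cons.1 ha with rfl | ha
        · exact ⟨a, List.mem_cons_self, hM a⟩
        · exact hs.2 a ha
      · rw [e, bd_cons, map_sub bd, map_sub bd, (a1 _ hl).2, (g3 _ hl).2, sub_self, map_zero,
          sub_zero]
    refine ⟨G', H', fun l hl => (a1 l hl).1.le (by omega), fun l hl => (a2 l hl).1,
      fun l hl => ⟨?_, ?_⟩⟩
    · have := (bd_face l).congr (bd.comp G') (G.comp bd) fun s hs => (a1 s (cc_face hl hs)).2
      rwa [AddMonoidHom.comp_apply, AddMonoidHom.comp_apply, bd_bd, map_zero] at this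
    · have := (bd_face l).congr (bd.comp H') (AddMonoidHom.id _ - G' - H.comp bd)
        fun s hs => (a2 s (cc_face hl hs)).2
      rwa [AddMonoidHom.comp_apply, AddMonoidHom.sub_apply, AddMonoidHom.sub_apply,
        AddMonoidHom.comp_apply, bd_bd, map_zero, sub_zero] at this

theorem coll_of_col (q : ℕ) :
    ∃ K : ℕ, ∀ (r M : ℝ) (A : Set X), Col q r M A → Coll q K r M A := by
  classical
  obtain ⟨K, hK⟩ := cc_ind (X := X) q
  refine ⟨K, fun r M A ⟨κ, h1, h2⟩ => ?_⟩
  obtain ⟨p, h⟩ := cc_exists_rep h2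
  obtain ⟨G, H, g1, g2, g3⟩ := hK r M A κ p h
  refine ⟨FreeAbelianGroup.lift fun τ => if Sm r A q τ then H (of τ) else 0, fun τ => ?_,
    fun σ hσ => ?_⟩
  · rw [FreeAbelianGroup.lift_apply_of]
    split_ifs with hτ
    · exact g2 τ hτ
    · exact Bd.zero _
  · rw [(bd_face σ).congr _ H fun l hl => by
      rw [FreeAbelianGroup.lift_apply_of, if_pos (cc_face hσ hl)], (g3 σ hσ).2, sub_eq_self]
    obtain ⟨x, t, rfl⟩ := List.exists_cons_of_length_eq_add_one hσ.1
    obtain ⟨y, m1, m2⟩ := cc_least κ x t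
    obtain ⟨b1, b2⟩ := cc_step m1 (cc_min h hσ m1 m2) (cc_bdG g1 hσ)
    have b3 := b1.kill (AddMonoidHom.id _) fun l hl => by
      have c1 : (l.map κ).Nodup := List.pairwise_map.2 (hl.2.1.imp fun e => e.ne)
      have c2 : l.map κ ⊆ List.range q := fun a ha => by
        obtain ⟨b, hb, rfl⟩ := List.mem_map.1 ha
        obtain ⟨c, hc, rfl⟩ := hl.2.2 b hb
        rw [h.col c (hσ.2.1 c hc)]
        exact List.mem_range.2 (h1 c (hσ.2.1 c hc))
      have c3 := (List.subperm_of_subset c1 c2).length_le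
      rw [List.length_map, List.length_range, hl.1] at c3
      omega
    rw [AddMonoidHom.id_apply] at b3
    rw [b3, map_zero, (g3 _ hσ).1, map_zero, sub_zero] at b2
    exact b2.symm

end Pool.Agent.Apc.Trap
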