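import Pool.Agent.Lib.MP_4f4e79_gt.Ch

namespace Pool.Agent.Apc.Trap

open FreeAbelianGroup

section

variable {X : Type*}

/-- The balanced residue modulo three of the colour difference along an edge. -/
def r3_om (κ : X → ℤ) : List X → ℤ
  | [x, y] => (κ y - κ x + 1) % 3 - 1
  | _ => 0

theorem r3_bd3 (x y z : X) : bd (of [x, y, z]) = of [y, z] - of [x, z] + of [x, y] := by
  simp only [bd_of_cons, bd_nil, map_zero, sub_zero, map_sub, cons_of]
  abel

theorem r3_avg (n : ℕ) (w w' e : ℕ → ℝ) {L r K : ℝ} (hL : 0 < L)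
    (hS : L ≤ ∑ a ∈ Finset.range n, w a) (hS' : L ≤ ∑ a ∈ Finset.range n, w' a)
    (hw' : ∀ a, 0 ≤ w' a) (hd : ∀ a, |w a - w' a| ≤ r) (he : ∀ a, |e a| ≤ K)
    (h8 : 8 * (n * r * K) ≤ L) :
    |(∑ a ∈ Finset.range n, w a * e a) / (∑ a ∈ Finset.range n, w a) -
      (∑ a ∈ Finset.range n, w' a * e a) / (∑ a ∈ Finset.range n, w' a)| ≤ 1 / 4 := by
  have hK : 0 ≤ K := (abs_nonneg _).trans (he 0)
  have hr : 0 ≤ r := (abs_nonneg _).trans (hd 0)
  have h1 : |∑ a ∈ Finset.range n, w a * e a - ∑ a ∈ Finset.range n, w' a * e a| ≤ n * r * K := by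
    rw [← Finset.sum_sub_distrib]
    refine (Finset.abs_sum_le_sum_abs _ _).trans ?_
    refine (Finset.sum_le_card_nsmul _ _ (r * K) fun a _ => ?_).trans (by simp [mul_assoc])
    rw [← sub_mul, abs_mul]
    exact mul_le_mul (hd a) (he a) (abs_nonneg _) hr
  have h2 : |∑ a ∈ Finset.range n, w' a - ∑ a ∈ Finset.range n, w a| ≤ n * r := by
    rw [← Finset.sum_sub_distrib]
    refine (Finset.abs_sum_le_sum_abs _ _).trans ?_
    refine (Finset.sum_le_card_nsmul _ _ r fun a _ => ?_).trans (by simp)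
    rw [abs_sub_comm]
    exact hd a
  have h3 : |∑ a ∈ Finset.range n, w' a * e a| ≤ (∑ a ∈ Finset.range n, w' a) * K := by
    rw [Finset.sum_mul]
    refine (Finset.abs_sum_le_sum_abs _ _).trans (Finset.sum_le_sum fun a _ => ?_)
    rw [abs_mul, abs_of_nonneg (hw' a)]
    exact mul_le_mul_of_nonneg_left (he a) (hw' a)
  generalize ∑ a ∈ Finset.range n, w a * e a = P at h1 ⊢
  generalize ∑ a ∈ Finset.range n, w' a * e a = Q at h1 h3 ⊢
  generalize ∑ a ∈ Finset.range n, w a = S at h2 hS ⊢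
  generalize ∑ a ∈ Finset.range n, w' a = S' at h2 h3 hS' ⊢
  have hS0 : 0 < S := hL.trans_le hS
  have hS0' : 0 < S' := hL.trans_le hS'
  have h4 : |Q / S'| ≤ K := by
    rw [abs_div, abs_of_pos hS0', div_le_iff₀ hS0']
    linarith
  have h5 : P / S - Q / S' = ((P - Q) + Q / S' * (S' - S)) / S := by
    field_simp
    ring
  have h6 : |Q / S' * (S' - S)| ≤ K * (n * r) := by
    rw [abs_mul]
    exact mul_le_mul h4 h2 (abs_nonneg _) hK
  rw [h5, abs_div, abs_of_pos hS0, div_le_iff₀ hS0]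
  linarith [abs_add_le (P - Q) (Q / S' * (S' - S))]

theorem r3_conv (n : ℕ) (w e : ℕ → ℝ) {lo hi : ℝ} (hS : 0 < ∑ a ∈ Finset.range n, w a)
    (hw : ∀ a, 0 ≤ w a) (he : ∀ a, w a ≠ 0 → lo ≤ e a ∧ e a ≤ hi) :
    lo ≤ (∑ a ∈ Finset.range n, w a * e a) / (∑ a ∈ Finset.range n, w a) ∧
      (∑ a ∈ Finset.range n, w a * e a) / (∑ a ∈ Finset.range n, w a) ≤ hi := by
  rw [le_div_iff₀ hS, div_le_iff₀ hS, Finset.mul_sum, Finset.mul_sum]
  constructor
  · refine Finset.sum_le_sum fun a _ => ?_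
    by_cases h : w a = 0
    · simp [h]
    · nlinarith [(he a h).1, hw a]
  · refine Finset.sum_le_sum fun a _ => ?_
    by_cases h : w a = 0
    · simp [h]
    · nlinarith [(he a h).2, hw a]

theorem r3_round (θ : ℝ) : ∃ (i : ℕ) (J : ℤ), i < 2 ∧ -(1 / 4) + (i : ℝ) / 2 ≤ θ - J ∧
    θ - J ≤ 1 / 4 + (i : ℝ) / 2 := by
  have h1 := Int.floor_le (θ + 1 / 4)
  have h2 := Int.lt_floor_add_one (θ + 1 / 4)
  by_cases h : θ - ⌊θ + 1 / 4⌋ ≤ 1 / 4
  · exact ⟨0, ⌊θ + 1 / 4⌋, by omega, by push_cast; linarith, by push_cast; linarith⟩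
  · exact ⟨1, ⌊θ + 1 / 4⌋, by omega, by push_cast; linarith, by push_cast; linarith⟩

end

variable {X : Type*} [PseudoMetricSpace X]

theorem r3_lift {K : ℕ} {r μ : ℝ} {A : Set X} (hμ : 0 ≤ μ) (h : Coll 2 K r μ A) (κ : X → ℤ)
    (hκ : ∀ x ∈ A, |κ x| ≤ 2) :
    ∃ g : X → X → ℤ, (∀ x ∈ A, ∀ v, |g x v| ≤ 3 * K + 3) ∧
      (∀ x ∈ A, ∀ y ∈ A, ∃ t : ℤ, ∀ v ∈ A, dist x y ≤ r → dist x v ≤ r → dist y v ≤ r →
        g x v = 3 * t + g y v) ∧
      ∀ x ∈ A, ∀ (J : ℤ) (B : ℝ), 0 ≤ B →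
        (∀ p ∈ A, dist x p ≤ B + 2 * μ → (κ p - J) % 3 ≠ 0) →
        ∃ m : ℤ, (m - J) % 3 = 0 ∧ ∀ v ∈ A, dist x v ≤ B → m + 1 ≤ g x v ∧ g x v ≤ m + 2 := by
  obtain ⟨C, h1, h2⟩ := h.retract
  set ω : Ch X →+ ℤ := FreeAbelianGroup.lift (r3_om κ) with hω
  have hω2 : ∀ x y, ω (of [x, y]) = (κ y - κ x + 1) % 3 - 1 := fun x y => by
    rw [hω, FreeAbelianGroup.lift_apply_of, r3_om]
  have hω3 : ∀ a b c, (ω.comp bd) (of [a, b, c]) =
      ((κ c - κ b + 1) % 3 - 1) - ((κ c - κ a + 1) % 3 - 1) + ((κ b - κ a + 1) % 3 - 1) := by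
    intro a b c
    rw [AddMonoidHom.comp_apply, r3_bd3, map_add, map_sub, hω2, hω2, hω2]
  have hb : ∀ τ, |(ω.comp bd) (C (of τ))| ≤ K * 3 := fun τ =>
    (h1 τ).abs_le _ (by norm_num) fun l hl => by
      obtain ⟨a, b, c, rfl⟩ := List.length_eq_three.1 hl.1.1
      rw [hω3, abs_le]
      omega
  have hdv : ∀ τ, ∃ t : ℤ, (ω.comp bd) (C (of τ)) = 3 * t := fun τ => by
    have := (h1 τ).mem (ω.comp bd) (AddSubgroup.zmultiples 3) fun l hl => by
      obtain ⟨a, b, c, rfl⟩ := List.length_eq_three.1 hl.1.1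
      rw [hω3, Int.mem_zmultiples_iff]
      omega
    exact Int.mem_zmultiples_iff.1 this
  refine ⟨fun x v => κ x + (ω (of [x, v]) - (ω.comp bd) (C (of [x, v]))), fun x hx v => ?_,
    fun x hx y hy => ?_, fun x hx J B hB hJ => ?_⟩
  · have h3 := hb [x, v]
    have h4 := hκ x hx
    rw [abs_le] at h3 h4 ⊢
    simp only [hω2]
    omega
  · obtain ⟨t, ht⟩ := hdv [x, y]
    refine ⟨(κ x - κ y + ω (of [x, y])) / 3 - t, fun v hv hxy hxv hyv => ?_⟩
    have hr : 0 ≤ r := dist_nonneg.trans hxy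
    have h3 := h2 [x, y, v] ⟨rfl, by simp [hx, hy, hv], by
      simp only [List.mem_cons, List.not_mem_nil, or_false, forall_eq_or_imp, forall_eq,
        dist_self, dist_comm y x, dist_comm v x, dist_comm v y]
      tauto⟩
    have h4 := congrArg ω h3
    rw [r3_bd3] at h4
    simp only [map_add, map_sub] at h4
    simp only [AddMonoidHom.comp_apply] at ht ⊢
    have h5 := hω2 x y
    omega
  · have hx0 := hJ x hx (by rw [dist_self]; linarith)
    refine ⟨κ x - (κ x - J) % 3, by omega, fun v hv hxv => ?_⟩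
    have hv0 := hJ v hv (by linarith)
    have h3 : (ω.comp bd) (C (of [x, v])) = 0 := (h1 [x, v]).kill _ fun l hl => by
      have key : ∀ p ∈ l, (κ p - J) % 3 ≠ 0 := by
        intro p hp
        refine hJ p (hl.2 p hp) ?_
        obtain ⟨q, hq, hd⟩ := hl.1.2 p hp
        have hq' : dist x q ≤ B := by
          rcases List.mem_pair.1 hq with rfl | rfl
          · rwa [dist_self]
          · exact hxv
        linarith [dist_triangle_right x p q]
      obtain ⟨a, b, c, rfl⟩ := List.length_eq_three.1 hl.1.1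
      have ha := key a (by simp)
      have hb := key b (by simp)
      have hc := key c (by simp)
      rw [hω3]
      omega
    simp only [h3, hω2]
    omega

theorem r3_centre {V : Set X} {L r M : ℝ} (hL : 0 ≤ L) (hV : Thin (2 * L + 2 * r) M V) :
    ∃ (w : X → ℝ) (v : X → X), (∀ x, 0 ≤ w x) ∧ (∀ x y, |w x - w y| ≤ dist x y) ∧
      (∀ x ∈ V, L ≤ w x) ∧
      ∀ x y, dist x y ≤ r → w x ≠ 0 → v x = v y ∧ v x ∈ V ∧ dist x (v x) ≤ L + M := by
  classical
  rcases V.eq_empty_or_nonempty with rfl | hne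
  · exact ⟨fun _ => 0, id, fun _ => le_rfl, fun x y => by simpa using dist_nonneg,
      fun x hx => hx.elim, fun x y _ h => (h rfl).elim⟩
  set T : X → Set X := fun x => {q | ∃ p ∈ V, dist x p ≤ L + r ∧ Chain (2 * L + 2 * r) V p q}
    with hT
  refine ⟨fun x => max (L - Metric.infDist x V) 0,
    fun x => if h : (T x).Nonempty then h.some else x, fun x => le_max_right _ _,
    fun x y => ?_, fun x hx => ?_, fun x y hxy hw => ?_⟩
  · refine (abs_max_sub_max_le_abs _ _ _).trans ?_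
    have h1 := Metric.infDist_le_infDist_add_dist (s := V) (x := x) (y := y)
    have h2 := Metric.infDist_le_infDist_add_dist (s := V) (x := y) (y := x)
    rw [dist_comm y x] at h2
    rw [abs_le]
    constructor <;> linarith
  · simp only [Metric.infDist_zero_of_mem hx, sub_zero]
    exact le_max_left _ _
  · have hr : 0 ≤ r := dist_nonneg.trans hxy
    have h1 : Metric.infDist x V < L := by
      by_contra h
      exact hw (max_eq_right (by linarith [not_lt.1 h]))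
    obtain ⟨p, hp, hxp⟩ := (Metric.infDist_lt_iff hne).1 h1
    have key : ∀ z, dist x z ≤ r → T z = {q | Chain (2 * L + 2 * r) V p q} := by
      intro z hz
      have hzp : dist z p ≤ L + r := by linarith [dist_triangle_left z p x]
      ext q
      refine ⟨?_, fun hq => ⟨p, hp, hzp, hq⟩⟩
      rintro ⟨p', hp', hd, hq⟩
      exact Chain.trans ((Chain.refl p).tail hp hp'
        (by linarith [dist_triangle_left p p' z])) hq
    have hx := key x (by rwa [dist_self])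
    have hy := key y hxy
    have hn : Set.Nonempty {q | Chain (2 * L + 2 * r) V p q} := ⟨p, Chain.refl p⟩
    simp only [hx, hy, dif_pos hn, true_and]
    have hq : Chain (2 * L + 2 * r) V p hn.some := hn.some_mem
    exact ⟨hq.mem hp, by linarith [hV _ _ hq, dist_triangle x p hn.some]⟩

theorem r3_main {n K : ℕ} {r L M' μ M : ℝ} {A : Set X} (hr : 0 ≤ r) (hM' : 0 ≤ M') (hμ : 0 ≤ μ)
    (hL : 0 < L) (h8 : 8 * (n * r * (3 * K + 3)) ≤ L) (h1 : Col n (2 * L + 2 * r) M' A)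
    (h2 : Coll 2 K (L + M' + r) μ A) (h3 : Col 3 (r + 2 * (L + M' + 2 * μ)) M A) :
    Col 2 r (M + 2 * (L + M' + 2 * μ)) A := by
  obtain ⟨c, hc, hcT⟩ := h1
  obtain ⟨κ, hκ, hκT⟩ := h3
  obtain ⟨g, hg1, hg2, hg3⟩ := r3_lift hμ h2 (fun x => (κ x : ℤ)) fun x hx => by
    have := hκ x hx
    rw [abs_le]
    omega
  choose w v hw0 hwL hwV hv using fun a => r3_centre hL.le (hcT a)
  have hS : ∀ x ∈ A, L ≤ ∑ a ∈ Finset.range n, w a x := fun x hx =>
    (hwV (c x) x ⟨hx, rfl⟩).trans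
      (Finset.single_le_sum (f := fun a => w a x) (fun a _ => hw0 a x)
        (Finset.mem_range.2 (hc x hx)))
  set θ : X → ℝ := fun x =>
    (∑ a ∈ Finset.range n, w a x * (g x (v a x) : ℝ)) / ∑ a ∈ Finset.range n, w a x with hθ
  have hstep : ∀ x ∈ A, ∀ y ∈ A, dist x y ≤ r → ∃ t : ℤ, |θ x - θ y - 3 * t| ≤ 1 / 4 := by
    intro x hx y hy hxy
    obtain ⟨t, ht⟩ := hg2 x hx y hy
    refine ⟨t, ?_⟩
    have e1 : ∑ a ∈ Finset.range n, w a x * (g x (v a x) : ℝ) =
        3 * t * ∑ a ∈ Finset.range n, w a x +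
          ∑ a ∈ Finset.range n, w a x * (g y (v a y) : ℝ) := by
      rw [Finset.mul_sum, ← Finset.sum_add_distrib]
      refine Finset.sum_congr rfl fun a _ => ?_
      by_cases h : w a x = 0
      · simp [h]
      · obtain ⟨h4, h5, h6⟩ := hv a x y hxy h
        rw [ht (v a x) h5.1 (by linarith) (by linarith)
          (by linarith [dist_triangle_left y (v a x) x]), h4]
        push_cast
        ring
    have e2 : θ x - θ y - 3 * t =
        (∑ a ∈ Finset.range n, w a x * (g y (v a y) : ℝ)) / (∑ a ∈ Finset.range n, w a x) -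
          (∑ a ∈ Finset.range n, w a y * (g y (v a y) : ℝ)) / ∑ a ∈ Finset.range n, w a y := by
      have := (hL.trans_le (hS x hx)).ne'
      simp only [hθ, e1, add_div, mul_div_cancel_right₀ _ this]
      ring
    rw [e2]
    refine r3_avg n _ _ _ hL (hS x hx) (hS y hy) (fun a => hw0 a y)
      (fun a => (hwL a x y).trans hxy) (fun a => ?_) h8
    exact_mod_cast hg1 y hy (v a y)
  choose i J hi hlo hhi using fun x => r3_round (θ x)
  have hnear : ∀ x, ∃ p, x ∈ A → p ∈ A ∧ dist x p ≤ L + M' + 2 * μ ∧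
      ((κ p : ℤ) - J x) % 3 = 0 := by
    intro x
    by_contra hcon
    push Not at hcon
    have hx := (hcon x).1
    obtain ⟨m, hm, hmv⟩ := hg3 x hx (J x) (L + M') (by linarith) fun p hp hd =>
      (hcon p).2 hp hd
    have h4 := r3_conv n (fun a => w a x) (fun a => (g x (v a x) : ℝ)) (lo := m + 1)
      (hi := m + 2) (hL.trans_le (hS x hx)) (fun a => hw0 a x) fun a ha => by
        obtain ⟨-, h5, h6⟩ := hv a x x (by rwa [dist_self]) ha
        exact_mod_cast hmv _ h5.1 h6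
    have h5 : (i x : ℝ) ≤ 1 := by exact_mod_cast Nat.lt_succ_iff.1 (hi x)
    have h6 : (0 : ℝ) ≤ i x := Nat.cast_nonneg _
    have h7 : (m : ℝ) < J x := by linarith [hhi x, h4.1]
    have h9 : (J x : ℝ) < m + 3 := by linarith [hlo x, h4.2]
    have h10 : m < J x := by exact_mod_cast h7
    have h11 : J x < m + 3 := by exact_mod_cast h9
    omega
  choose p hp using hnear
  have hsame : ∀ x ∈ A, ∀ y ∈ A, dist x y ≤ r → i x = i y → κ (p x) = κ (p y) := by
    intro x hx y hy hxy hixy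
    obtain ⟨t, ht⟩ := hstep x hx y hy hxy
    rw [abs_le] at ht
    have e : (i x : ℝ) = i y := by rw [hixy]
    have h4 : (J x : ℝ) - J y - 3 * t < 1 := by linarith [hlo x, hhi y]
    have h5 : (-1 : ℝ) < J x - J y - 3 * t := by linarith [hhi x, hlo y]
    have h6 : J x - J y - 3 * t < 1 := by exact_mod_cast h4
    have h7 : -1 < J x - J y - 3 * t := by exact_mod_cast h5
    have h9 := hκ _ (hp x hx).1
    have h10 := hκ _ (hp y hy).1
    have h11 := (hp x hx).2.2
    have h12 := (hp y hy).2.2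
    omega
  refine ⟨i, fun x _ => hi x, fun a x y hxy => ?_⟩
  rcases hxy.eq_or_mem with rfl | hx
  · have := hκT 0 x x (Chain.refl x)
    linarith
  · have key : Chain (r + 2 * (L + M' + 2 * μ)) {z | z ∈ A ∧ κ z = κ (p x)} (p x) (p y) ∧
        κ (p y) = κ (p x) := by
      induction hxy with
      | refl => exact ⟨Chain.refl _, rfl⟩
      | @tail b d _ hbd ih =>
        obtain ⟨hb, hd, hdist⟩ := hbd
        have e := (hsame b hb.1 d hd.1 hdist (hb.2.trans hd.2.symm)).symm.trans ih.2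
        refine ⟨ih.1.tail ⟨(hp b hb.1).1, ih.2⟩ ⟨(hp d hd.1).1, e⟩ ?_, e⟩
        linarith [dist_triangle4 (p b) b d (p d), dist_comm (p b) b, (hp b hb.1).2.1,
          (hp d hd.1).2.1]
    have hy := hxy.mem hx
    linarith [hκT _ _ _ key.1, dist_triangle4_right x y (p x) (p y), (hp x hx.1).2.1,
      (hp y hy.1).2.1]

theorem col_two (n K : ℕ) (r : ℝ) : ∃ r' : ℝ, ∀ M' : ℝ, ∃ r1 : ℝ, ∀ μ : ℝ, ∃ ρ : ℝ, ∀ M : ℝ,
    ∃ M'' : ℝ, ∀ A : Set X, Col n r' M' A → Coll 2 K r1 μ A → Col 3 ρ M A → Col 2 r M'' A := by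
  have hL : 0 < 8 * (n * |r| * (3 * K + 3)) + 1 := by positivity
  refine ⟨_, fun M' => ⟨_, fun μ => ⟨_, fun M => ⟨_, fun A h1 h2 h3 =>
    (r3_main (abs_nonneg r) (abs_nonneg M') (abs_nonneg μ) hL (by linarith)
      (h1.mono le_rfl le_rfl (le_abs_self M') le_rfl)
      (h2.mono le_rfl le_rfl (le_abs_self μ) le_rfl) h3).mono le_rfl (le_abs_self r) le_rfl
        le_rfl⟩⟩⟩⟩

end Pool.Agent.Apc.Trap
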