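import Pool.Agent.Lib.MP_4f4e79_gt.Root
import Pool.Agent.Lib.MP_4f4e79_gt.Red3
import Pool.Agent.Lib.MP_4f4e79_gt.Asm

namespace Pool.Agent.Apc.Trap

variable {X : Type*} [PseudoMetricSpace X] {ι J : Type*}

omit [PseudoMetricSpace X] in
theorem rems_sub {L : ι → Set X} {host : ι → J} {m : ℕ} {W : J → ℕ → Set X} {S : Set X}
    (h : S ∈ Rems L host m W) : ∃ i, S ⊆ L i := by
  obtain ⟨i, rfl⟩ := h
  exact ⟨i, fun x hx => hx.1⟩

theorem orc_iter (L : ι → Set X) (H : J → Set X) (host : ι → J)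
    (hLH : ∀ i, L i ⊆ H (host i)) {b : ℕ} (hH : ∀ ρ : ℝ, ∃ M : ℝ, ∀ j, Col b ρ M (H j)) (j : ℕ) :
    ∀ m, Orc (Rems L host m) (j + 2) → Orc (Rems L host (m + 2 * j)) 2 := by
  induction j with
  | zero => exact fun m h => h
  | succ j ih =>
    intro m h
    have := ih (m + 2) (orc_step L H host hLH hH (q := j + 2) (by omega) h)
    rwa [show m + 2 + 2 * j = m + 2 * (j + 1) by ring] at this

theorem col_drop {m : ℕ} {r ρ M M' : ℝ} {S : Set X} (hr : r ≤ ρ) (h : Col (m + 3) ρ M S)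
    (h3 : ∀ A ⊆ S, Col 3 ρ M A → Col 2 r M' A) : Col (m + 2) r (max M M') S := by
  obtain ⟨κ, h1, h2⟩ := h
  obtain ⟨κ', h4, h5⟩ := h3 {x | x ∈ S ∧ κ x < 3} (fun x hx => hx.1)
    ⟨κ, fun x hx => hx.2, fun a => (h2 a).mono le_rfl le_rfl fun x hx => ⟨hx.1.1, hx.2⟩⟩
  refine ⟨fun x => if κ x < 3 then κ' x else κ x - 1, fun x hx => ?_, fun a => ?_⟩
  · dsimp only
    split_ifs with h6
    · have := h4 x ⟨hx, h6⟩
      omega
    · have := h1 x hx
      omega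
  · by_cases ha : a < 2
    · refine (h5 a).mono le_rfl (le_max_right _ _) ?_
      rintro x ⟨hx, h6⟩
      dsimp only at h6
      split_ifs at h6 with h7
      · exact ⟨⟨hx, h7⟩, h6⟩
      · omega
    · refine (h2 (a + 1)).mono hr (le_max_left _ _) ?_
      rintro x ⟨hx, h6⟩
      dsimp only at h6
      split_ifs at h6 with h7
      · have := h4 x ⟨hx, h7⟩
        omega
      · exact ⟨hx, by omega⟩

theorem col_iter {Rem : (J → ℕ → Set X) → Set (Set X)} {n : ℕ}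
    (hL : ∀ ρ : ℝ, ∃ M : ℝ, ∀ W, ∀ S ∈ Rem W, Col n ρ M S) (ho : Orc Rem 2) (m : ℕ) :
    (∀ r : ℝ, Ach fun (M : ℝ) W => ∀ S ∈ Rem W, Col (m + 2) r M S) →
      ∀ r : ℝ, Ach fun (M : ℝ) W => ∀ S ∈ Rem W, Col 2 r M S := by
  induction m with
  | zero => exact fun h => h
  | succ m ih =>
    intro h
    refine ih fun r => ?_
    obtain ⟨K, hK⟩ := ho
    obtain ⟨r', h1⟩ := col_two (X := X) n K r
    obtain ⟨M', hM'⟩ := hL r'
    obtain ⟨r1, h2⟩ := h1 M'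
    refine (hK r1).bind fun μ => ?_
    obtain ⟨ρ, h3⟩ := h2 μ
    refine (h (max ρ r)).imp fun M => ?_
    obtain ⟨M'', h4⟩ := h3 M
    refine ⟨max M M'', fun W h5 h6 S hS => col_drop (le_max_right _ _) (h5 S hS) fun A hA h7 => ?_⟩
    exact h4 A ((hM' W S hS).mono le_rfl le_rfl le_rfl hA)
      ((h6 S hS).mono le_rfl le_rfl le_rfl hA) (h7.mono le_rfl (le_max_left _ _) le_rfl le_rfl)

theorem core (X : Type*) [PseudoMetricSpace X] (ι : Type*) : Core X ι := by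
  intro L H host n b hLH hL hH r R
  have hL' : ∀ m, ∀ ρ : ℝ, ∃ M : ℝ, ∀ W, ∀ S ∈ Rems L host m W, Col (n + 2) ρ M S := by
    intro m ρ
    obtain ⟨M, hM⟩ := hL ρ
    refine ⟨M, fun W S hS => ?_⟩
    obtain ⟨i, hi⟩ := rems_sub hS
    exact (hM i).mono le_rfl le_rfl le_rfl hi
  have h0 : Orc (Rems L host 0) (n + 2) := by
    obtain ⟨K, hK⟩ := coll_of_col (X := X) (n + 2)
    refine ⟨K, fun ρ => ?_⟩
    obtain ⟨M, hM⟩ := hL' 0 ρ
    exact Ach.pure M fun W S hS => hK _ _ _ (hM W S hS)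
  have h1 := orc_iter L H host hLH hH n 0 h0
  rw [zero_add] at h1
  obtain ⟨M0, W, M, h2, h3⟩ := col_iter (hL' (2 * n)) h1 n (fun ρ => by
    obtain ⟨M, hM⟩ := hL' (2 * n) ρ
    exact Ach.pure M hM) r R
  exact ⟨max M0 M, W, fun j a => (h2 j a).mono le_rfl (le_max_left _ _) le_rfl, fun i =>
    (h3 W (fun _ _ => le_rfl) _ ⟨i, rfl⟩).mono le_rfl le_rfl (le_max_right _ _) le_rfl⟩

end Pool.Agent.Apc.Trap
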