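import Pool.Agent.Lib.MP_4f4e79_gt.Thin

namespace Pool.Agent.Apc

variable {X Y : Type*} [PseudoMetricSpace X] [PseudoMetricSpace Y]

/-- Coordinates on the fibres. -/
def LC (f : X → Y) : Prop :=
  ∀ D0 r : ℝ, ∃ q : ℕ, ∀ (D1 R : ℝ) (D : ℕ), ∃ M : ℝ, ∀ y : X, ∃ η : X → Fin q → ℤ,
    (∀ x x', dist (f y) (f x) ≤ D1 → dist (f y) (f x') ≤ D1 → dist x x' ≤ R →
      ∀ i, |η x i - η x' i| ≤ 1) ∧
    ∀ x0 x, Chain r {z | dist (f y) (f z) ≤ D1 ∧ dist (f x0) (f z) ≤ D0 ∧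
      ∀ i, |η z i - η x0 i| ≤ D} x0 x → dist x0 x ≤ M

/-- Few thin sets cut all the small leaves. -/
def Cut (f : X → Y) : Prop :=
  ∀ D0 r : ℝ, ∃ K : ℕ, ∀ D1 R : ℝ, ∃ M : ℝ, ∀ y : X, ∃ S : ℕ → Set X,
    (∀ i < K, Thin R M (S i)) ∧
    ∀ x0 x, Chain r {z | dist (f y) (f z) ≤ D1 ∧ dist (f x0) (f z) ≤ D0 ∧
      ∀ i < K, z ∉ S i} x0 x → dist x0 x ≤ M

/-- The residue class `3 j` modulo `3 n`. -/
def gap (n j : ℕ) (u : ℤ) : Prop := u % 3 = 0 ∧ (u / 3) % n = j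

theorem gap_sep {n j j' : ℕ} {u u' : ℤ} (h : gap n j u) (h' : gap n j' u') (hd : |u - u'| ≤ 1) :
    j = j' := by
  have e : u = u' := by
    have := abs_le.1 hd
    have h1 := h.1
    have h2 := h'.1
    omega
  subst e
  have := h.2.symm.trans h'.2
  exact_mod_cast this

theorem gap_cell {n j : ℕ} (hj : j < n) {u u' : ℤ} (h : ¬ gap n j u) (h' : ¬ gap n j u')
    (hd : |u - u'| ≤ 1) : (u - 3 * j) / (3 * n) = (u' - 3 * j) / (3 * n) := by
  have hn : (0 : ℤ) < 3 * n := by omega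
  have key : ∀ w : ℤ, ¬ gap n j w → 1 ≤ (w - 3 * j) % (3 * n) := by
    intro w hw
    by_contra hlt
    have h0 := Int.emod_nonneg (w - 3 * j) hn.ne'
    have h1 : (w - 3 * j) % (3 * n) = 0 := by omega
    obtain ⟨c, hc⟩ := Int.dvd_of_emod_eq_zero h1
    have h2 : w = 3 * (n * c + j) := by linarith
    apply hw
    refine ⟨by omega, ?_⟩
    have h3 : w / 3 = n * c + j := by omega
    rw [h3, Int.mul_add_emod_self_left, Int.emod_eq_of_lt (by omega) (by omega)]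
  have a1 := key u h
  have a2 := key u' h'
  have b1 := Int.emod_lt_of_pos (u - 3 * j) hn
  have b2 := Int.emod_lt_of_pos (u' - 3 * j) hn
  have c1 := Int.mul_ediv_add_emod (u - 3 * j) (3 * n)
  have c2 := Int.mul_ediv_add_emod (u' - 3 * j) (3 * n)
  have hd' := abs_le.1 hd
  generalize (u - 3 * j) / (3 * n) = c at *
  generalize (u' - 3 * j) / (3 * n) = c' at *
  generalize (u - 3 * j) % (3 * n) = ρ at *
  generalize (u' - 3 * j) % (3 * n) = ρ' at *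
  generalize (3 * n : ℤ) = m at *
  rcases lt_trichotomy c c' with hc | hc | hc
  · nlinarith
  · exact hc
  · nlinarith

theorem abs_le_of_cell {m : ℤ} (hm : 0 < m) {u u' c : ℤ} (h : (u - c) / m = (u' - c) / m) :
    |u - u'| ≤ m := by
  have b1 := Int.emod_lt_of_pos (u - c) hm
  have b2 := Int.emod_lt_of_pos (u' - c) hm
  have a1 := Int.emod_nonneg (u - c) hm.ne'
  have a2 := Int.emod_nonneg (u' - c) hm.ne'
  have c1 := Int.mul_ediv_add_emod (u - c) m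
  have c2 := Int.mul_ediv_add_emod (u' - c) m
  rw [h] at c1
  rw [abs_le]
  constructor <;> linarith

theorem exists_free (N : ℕ) (u : Fin N → ℤ) :
    ∃ j < N + 1, ∀ l w, |w - u l| ≤ 1 → ¬ gap (N + 1) j w := by
  classical
  have hc : (Finset.univ.image fun l : Fin N => (((u l + 1) / 3) % (N + 1 : ℕ)).toNat).card <
      (Finset.range (N + 1)).card := by
    have := Finset.card_image_le (s := Finset.univ)
      (f := fun l : Fin N => (((u l + 1) / 3) % (N + 1 : ℕ)).toNat)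
    simp only [Finset.card_univ, Fintype.card_fin, Finset.card_range] at *
    omega
  obtain ⟨j, hj, hj'⟩ := Finset.exists_mem_notMem_of_card_lt_card hc
  refine ⟨j, Finset.mem_range.1 hj, fun l w hw hg => hj' ?_⟩
  refine Finset.mem_image.2 ⟨l, Finset.mem_univ _, ?_⟩
  have h1 := abs_le.1 hw
  have h2 := hg.1
  have h3 : w / 3 = (u l + 1) / 3 := by omega
  rw [← h3, hg.2]
  simp

theorem cut_of_lc {f : X → Y} (h : LC f) : Cut f := by
  intro D0 r
  obtain ⟨q, hq⟩ := h D0 r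
  refine ⟨q, fun D1 R => ?_⟩
  obtain ⟨N, hN⟩ := h (2 * D1) R
  obtain ⟨M1, hM1⟩ := hq D1 (max R r) (3 * (N + 1))
  obtain ⟨M2, hM2⟩ := hN D1 (max R (M1 + r)) (3 * (N + 1))
  refine ⟨max M1 M2, fun y => ?_⟩
  obtain ⟨η, hη1, hη2⟩ := hM1 y
  obtain ⟨φ, hφ1, hφ2⟩ := hM2 y
  have hm : (0 : ℤ) < 3 * ((N + 1 : ℕ) : ℤ) := by omega
  refine ⟨fun i => {z | dist (f y) (f z) ≤ D1 ∧ ∃ hi : i < q, ∃ j < N + 1,
    gap (N + 1) j (η z ⟨i, hi⟩) ∧ ∀ l, ¬ gap (N + 1) j (φ z l)}, fun i hi x0 x hc => ?_,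
    fun x0 x hc => ?_⟩
  · rcases hc.eq_or_mem with rfl | ⟨h0, _, j, hj, hg0, hφ0⟩
    · exact (hφ2 _ _ (Chain.refl _)).trans (le_max_right _ _)
    have := hc.refine (T' := {z | dist (f y) (f z) ≤ D1 ∧ gap (N + 1) j (η z ⟨i, hi⟩) ∧
        (∀ l, ¬ gap (N + 1) j (φ z l)) ∧
        ∀ l, (φ z l - 3 * j) / (3 * (N + 1 : ℕ)) = (φ x0 l - 3 * j) / (3 * (N + 1 : ℕ))})
      (fun _ => ⟨h0, hg0, hφ0, fun _ => rfl⟩) (by
        rintro a b - - ⟨ha, hga, hφa, hca⟩ - ⟨hb, _, j', -, hgb, hφb⟩ hab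
        obtain rfl : j = j' := gap_sep hga hgb (hη1 a b ha hb (hab.trans (le_max_left _ _)) _)
        refine ⟨hb, hgb, hφb, fun l => ?_⟩
        rw [← hca l]
        exact gap_cell hj (hφb l) (hφa l)
          (hφ1 b a hb ha ((dist_comm b a ▸ hab).trans (le_max_left _ _)) l))
    refine (hφ2 x0 x (this.mono le_rfl ?_)).trans (le_max_right _ _)
    rintro z ⟨hz, -, -, hcz⟩
    refine ⟨hz, ?_, fun l => ?_⟩
    · have := dist_triangle_left (f x0) (f z) (f y)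
      linarith
    · have := abs_le_of_cell hm (hcz l)
      exact_mod_cast this
  · rcases hc.eq_or_mem with rfl | ⟨h0, h00, hS0⟩
    · exact (hη2 _ _ (Chain.refl _)).trans (le_max_left _ _)
    obtain ⟨j, hj, hfree⟩ := exists_free N (φ x0)
    have hsub : {z | dist (f y) (f z) ≤ D1 ∧ dist (f x0) (f z) ≤ D0 ∧
        (∀ i, ¬ gap (N + 1) j (η z i)) ∧
        ∀ i, (η z i - 3 * j) / (3 * (N + 1 : ℕ)) = (η x0 i - 3 * j) / (3 * (N + 1 : ℕ))} ⊆
        {z | dist (f y) (f z) ≤ D1 ∧ dist (f x0) (f z) ≤ D0 ∧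
          ∀ i, |η z i - η x0 i| ≤ (3 * (N + 1) : ℕ)} := by
      rintro z ⟨hz, hz0, -, hcz⟩
      refine ⟨hz, hz0, fun i => ?_⟩
      have := abs_le_of_cell hm (hcz i)
      exact_mod_cast this
    have hng : ∀ z, dist (f y) (f z) ≤ D1 → (∀ l, |φ z l - φ x0 l| ≤ 1) →
        (∀ i < q, z ∉ {z | dist (f y) (f z) ≤ D1 ∧ ∃ hi : i < q, ∃ j < N + 1,
          gap (N + 1) j (η z ⟨i, hi⟩) ∧ ∀ l, ¬ gap (N + 1) j (φ z l)}) →
        ∀ i, ¬ gap (N + 1) j (η z i) := by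
      intro z hz hφz hS i hg
      exact hS i i.2 ⟨hz, i.2, j, hj, hg, fun l => hfree l _ (hφz l)⟩
    have := hc.refine (T' := {z | dist (f y) (f z) ≤ D1 ∧ dist (f x0) (f z) ≤ D0 ∧
        (∀ i, ¬ gap (N + 1) j (η z i)) ∧
        ∀ i, (η z i - 3 * j) / (3 * (N + 1 : ℕ)) = (η x0 i - 3 * j) / (3 * (N + 1 : ℕ))})
      (fun _ => ⟨h0, h00, hng x0 h0 (fun l => by simp) hS0, fun _ => rfl⟩) (by
        rintro a b - hca ⟨ha, -, hga, hcell⟩ - ⟨hb, hb0, hSb⟩ hab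
        have h1 := hη2 x0 a (hca.mono le_rfl hsub)
        have h2 : dist b x0 ≤ max R (M1 + r) := by
          have := dist_triangle x0 a b
          rw [dist_comm]
          exact le_trans (by linarith) (le_max_right _ _)
        have hgb := hng b hb (hφ1 b x0 hb h0 h2) hSb
        refine ⟨hb, hb0, hgb, fun i => ?_⟩
        rw [← hcell i]
        exact gap_cell hj (hgb i) (hga i)
          (hη1 b a hb ha ((dist_comm b a ▸ hab).trans (le_max_right _ _)) i))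
    exact (hη2 x0 x (this.mono le_rfl hsub)).trans (le_max_left _ _)

theorem pull_of_cut {f : X → Y} (he : Expans f) (h : Cut f) : Pull f := by
  classical
  intro 𝒴 hY R
  choose ρ hρ using he
  let Rb : ℕ → ℝ := fun n => ∑ j ∈ Finset.range (n + 1), |R j|
  have hRb : ∀ j n, j ≤ n → R j ≤ Rb n := fun j n hj =>
    (le_abs_self _).trans (Finset.single_le_sum (f := fun j => |R j|) (fun _ _ => abs_nonneg _)
      (Finset.mem_range.2 (by omega)))
  have hRm : ∀ j n, j ≤ n → Rb j ≤ Rb n := fun j n hj =>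
    Finset.sum_le_sum_of_subset_of_nonneg (Finset.range_mono (by omega)) fun _ _ _ => abs_nonneg _
  obtain ⟨k1, D0, h1⟩ := hY fun i => ρ (R i)
  obtain ⟨K, hK⟩ := h D0 (Rb k1)
  obtain ⟨k2, D1, h2⟩ := hY fun i => ρ (Rb (k1 + (i + 1) * K)) + 2 * D0
  obtain ⟨M, hM⟩ := hK (D1 + D0) (Rb (k1 + k2 * K))
  choose S hS1 hS2 using hM
  refine ⟨k1 + k2 * K, M, ?_⟩
  rintro _ ⟨A, hA, rfl⟩
  obtain ⟨T, hT1, hT2⟩ := h1 A hA
  obtain ⟨T', hT1', hT2'⟩ := h2 A hA
  let st : ℕ → Setoid X := fun i =>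
    ⟨fun a b => Chain (ρ (Rb (k1 + (i + 1) * K)) + 2 * D0) (T' i) (f a) (f b),
      fun _ => Chain.refl _, Chain.symm, Chain.trans⟩
  let rep : ℕ → X → X := fun i x => (Quotient.mk (st i) x).out
  have hrep : ∀ i x, Chain (ρ (Rb (k1 + (i + 1) * K)) + 2 * D0) (T' i) (f (rep i x)) (f x) :=
    fun i x => Quotient.mk_out (s := st i) x
  have hrep2 : ∀ i x x', Chain (ρ (Rb (k1 + (i + 1) * K)) + 2 * D0) (T' i) (f x) (f x') →
      rep i x = rep i x' := fun i x x' hc => by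
    simp only [rep]
    rw [Quotient.sound (s := st i) hc]
  let Z : ℕ → ℕ → Set X := fun i κ =>
    {z | ∃ x, f x ∈ T' i ∧ dist (f x) (f z) ≤ D0 ∧ z ∈ S (rep i x) κ}
  have hZ : ∀ i < k2, ∀ κ < K, Thin (Rb (k1 + (i + 1) * K)) M (Z i κ) := by
    intro i hi κ hκ z0 z hc
    rcases hc.eq_or_mem with rfl | ⟨x0, hx0, hd0, hz0⟩
    · exact hS2 z0 _ _ (Chain.refl _)
    have := hc.refine (T' := {z | ∃ x, f x ∈ T' i ∧ dist (f x) (f z) ≤ D0 ∧ rep i x = rep i x0 ∧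
        z ∈ S (rep i x0) κ}) (fun _ => ⟨x0, hx0, hd0, rfl, hz0⟩) (by
      rintro a b - - ⟨xa, ha1, ha2, ha3, -⟩ - ⟨xb, hb1, hb2, hb3⟩ hab
      have e : rep i xa = rep i xb := by
        refine hrep2 i _ _ ((Chain.refl _).tail ha1 hb1 ?_)
        have h3 := hρ _ _ _ hab
        have h4 := dist_triangle4 (f xa) (f a) (f b) (f xb)
        rw [dist_comm (f b)] at h4
        linarith
      exact ⟨xb, hb1, hb2, e ▸ ha3, by rwa [← ha3, e]⟩)
    refine hS1 (rep i x0) κ hκ z0 z (this.mono (hRm _ _ ?_) ?_)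
    · have := Nat.mul_le_mul_right K (show i + 1 ≤ k2 from hi)
      omega
    · rintro w ⟨-, -, -, -, hw⟩
      exact hw
  refine ⟨fun n => if n < k1 then {z | f z ∈ A ∧ f z ∈ T n ∧ ∀ i < k2, ∀ κ < K, z ∉ Z i κ}
    else Z ((n - k1) / K) ((n - k1) % K), fun n hn => ?_, fun x hx => ?_⟩
  · by_cases hn1 : n < k1
    · simp only [hn1, if_true]
      intro z0 z hc
      rcases hc.eq_or_mem with rfl | ⟨hA0, -, -⟩
      · exact hS2 z0 _ _ (Chain.refl _)
      obtain ⟨i, hi, hi0⟩ := hT2' _ hA0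
      have hd1 := hT1' i hi _ _ (hrep i z0)
      have key : ∀ w, Chain (R n) {z | f z ∈ A ∧ f z ∈ T n ∧ ∀ i < k2, ∀ κ < K, z ∉ Z i κ} z0 w →
          w ∈ {z | f z ∈ A ∧ f z ∈ T n ∧ ∀ i < k2, ∀ κ < K, z ∉ Z i κ} →
          w ∈ {z | dist (f (rep i z0)) (f z) ≤ D1 + D0 ∧ dist (f z0) (f z) ≤ D0 ∧
            ∀ κ < K, z ∉ S (rep i z0) κ} := by
        intro w hw hw'
        have h3 := hT1 n hn1 _ _ (hw.map (hρ _) fun a ha => ha.2.1)
        refine ⟨?_, h3, fun κ hκ hS => hw'.2.2 i hi κ hκ ⟨z0, hi0, h3, hS⟩⟩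
        have := dist_triangle (f (rep i z0)) (f z0) (f w)
        linarith
      have := hc.refine (key z0 (Chain.refl _)) fun a b hb _ _ _ hb' _ => key b hb hb'
      exact hS2 (rep i z0) z0 z (this.mono (hRb _ _ hn1.le) le_rfl)
    · simp only [hn1, if_false]
      have hK0 : 0 < K := by
        rcases Nat.eq_zero_or_pos K with rfl | h0
        · omega
        · exact h0
      have h3 : (n - k1) / K < k2 := by
        rw [Nat.div_lt_iff_lt_mul hK0]; omega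
      refine (hZ _ h3 _ (Nat.mod_lt _ hK0)).mono (hRb _ _ ?_) le_rfl le_rfl
      have h4 := Nat.div_add_mod (n - k1) K
      have h5 := Nat.mod_lt (n - k1) hK0
      have h6 : ((n - k1) / K + 1) * K = K * ((n - k1) / K) + K := by ring
      omega
  · by_cases hz : ∀ i < k2, ∀ κ < K, x ∉ Z i κ
    · obtain ⟨n, hn, hxn⟩ := hT2 _ hx
      exact ⟨n, by omega, by simpa only [hn, if_true] using ⟨hx, hxn, hz⟩⟩
    · push Not at hz
      obtain ⟨i, hi, κ, hκ, hz⟩ := hz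
      have h3 := Nat.mul_le_mul_right K (show i + 1 ≤ k2 from hi)
      have h4 : (i + 1) * K = i * K + K := by ring
      refine ⟨k1 + (κ + i * K), by omega, ?_⟩
      have h5 : ¬ (k1 + (κ + i * K) < k1) := by omega
      simp only [h5, if_false, Nat.add_sub_cancel_left]
      rw [Nat.add_mul_div_right _ _ (by omega), Nat.add_mul_mod_self_right, Nat.div_eq_of_lt hκ,
        Nat.mod_eq_of_lt hκ, zero_add]
      exact hz

theorem pull_of_lc {f : X → Y} (he : Expans f) (h : LC f) : Pull f :=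
  pull_of_cut he (cut_of_lc h)

end Pool.Agent.Apc
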