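import Mathlib

/-!
Metric families are families of subsets of one metric space, each with the restricted metric.
-/

namespace Pool.Agent.Apc

universe u

variable {X : Type*} [PseudoMetricSpace X]

/-- The diameters of the members have a common finite bound. -/
def BddFam (𝒳 : Set (Set X)) : Prop :=
  ∃ M : ℝ, ∀ A ∈ 𝒳, ∀ x ∈ A, ∀ y ∈ A, dist x y ≤ M

/-- Any two distinct members are at distance at least `r`. -/
def RDisj (r : ℝ) (𝒰 : Set (Set X)) : Prop :=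
  ∀ U ∈ 𝒰, ∀ V ∈ 𝒰, U ≠ V → ∀ x ∈ U, ∀ y ∈ V, r ≤ dist x y

/-- `𝒳` uniformly `R`-decomposes over `𝒴` (the sequence is indexed from `0`). -/
def Decomp (R : ℕ → ℝ) (𝒳 𝒴 : Set (Set X)) : Prop :=
  ∃ k : ℕ, 1 ≤ k ∧ ∀ A ∈ 𝒳, ∃ 𝒰 : ℕ → Set (Set X),
    (∀ i < k, 𝒰 i ⊆ 𝒴 ∧ (∀ U ∈ 𝒰 i, U ⊆ A) ∧ RDisj (R i) (𝒰 i)) ∧
      ∀ x ∈ A, ∃ i < k, ∃ U ∈ 𝒰 i, x ∈ U

/-- The classes `ℭ_α`, by transfinite recursion: `ℭ_0` is the class of bounded families; for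
`α > 0` a family is in `ℭ_α` iff for every sequence `R` of positive reals it uniformly
`R`-decomposes over a family in `ℭ_β` for some `β < α`. -/
def Cls : Ordinal.{u} → Set (Set X) → Prop :=
  WellFoundedLT.fix fun α ih 𝒳 =>
    (α = 0 → BddFam 𝒳) ∧
      (0 < α → ∀ R : ℕ → ℝ, (∀ i, 0 < R i) →
        ∃ β : Ordinal.{u}, ∃ h : β < α, ∃ 𝒴 : Set (Set X), ih β h 𝒴 ∧ Decomp R 𝒳 𝒴)

end Pool.Agent.Apc
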