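import Pool.Agent.Lib.MP_4f4e79_gt.Defs2

namespace Pool.Agent.Apc

variable {X : Type*} [PseudoMetricSpace X]

/-- Weak finite decomposition complexity (Guentner, Tessera, Yu): the least collection of
families that contains the bounded families and contains `𝒳` as soon as there is `c` such that,
for every `r > 0`, every member of `𝒳` is covered by `c` many `r`-disjoint subfamilies of one
family of the collection. -/
inductive WFdc : Set (Set X) → Prop
  | bdd {𝒳 : Set (Set X)} : BddFam 𝒳 → WFdc 𝒳
  | dec {𝒳 : Set (Set X)} (c : ℕ) (𝒴 : ℝ → Set (Set X)) : (∀ r, 0 < r → WFdc (𝒴 r)) →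
      (∀ r, 0 < r → Cov c r 𝒳 (𝒴 r)) → WFdc 𝒳

end Pool.Agent.Apc
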