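import Pool.Agent.Lib.MP_4f4e79_gt.Ch

namespace Pool.Agent.Apc.Trap

open FreeAbelianGroup

variable {X : Type*} [PseudoMetricSpace X]

theorem tm_union {R M : ℝ} {P P' : Set X} (hR : 0 ≤ R) (h : Thin R M P) {x y : X}
    (hc : Chain R (P ∪ P') x y) :
    Chain R P x y ∨ ∃ a b c, b ∈ P' ∧ dist x a ≤ M + R ∧ Chain (M + 2 * R) P' a b ∧
      dist b c ≤ R ∧ Chain R P c y := by
  induction hc with
  | refl => exact Or.inl (Chain.refl _)
  | @tail u v _ huv ih =>
    obtain ⟨hu, hv, hd⟩ := huv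
    by_cases hv' : v ∈ P'
    · right
      rcases ih with ih | ⟨a, b, c, hb, h1, h2, h3, h4⟩
      · exact ⟨v, v, v, hv', by linarith [h _ _ ih, dist_triangle x u v], Chain.refl _,
          by simpa using hR, Chain.refl _⟩
      · exact ⟨a, v, v, hv', h1,
          h2.tail hb hv' (by linarith [h _ _ h4, dist_triangle4 b c u v]), by simpa using hR,
          Chain.refl _⟩
    · have hvP : v ∈ P := hv.resolve_right hv'
      rcases hu with hu | hu
      · rcases ih with ih | ⟨a, b, c, hb, h1, h2, h3, h4⟩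
        · exact Or.inl (ih.tail hu hvP hd)
        · exact Or.inr ⟨a, b, c, hb, h1, h2, h3, h4.tail hu hvP hd⟩
      · right
        rcases ih with ih | ⟨a, b, c, hb, h1, h2, h3, h4⟩
        · exact ⟨u, u, v, hu, by linarith [h _ _ ih], Chain.refl _, hd, Chain.refl _⟩
        · exact ⟨a, u, v, hu, h1,
            h2.tail hb hu (by linarith [h _ _ h4, dist_triangle b c u]), hd, Chain.refl _⟩

theorem thin_union {R M M' : ℝ} {P P' : Set X} (hR : 0 ≤ R) (h : Thin R M P)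
    (h' : Thin (M + 2 * R) M' P') : Thin R (M' + 2 * M + 2 * R) (P ∪ P') := by
  intro x y hc
  have hM : 0 ≤ M := by simpa using h x x (Chain.refl _)
  have hM' : 0 ≤ M' := by simpa using h' x x (Chain.refl _)
  rcases tm_union hR h hc with h1 | ⟨a, b, c, -, h1, h2, h3, h4⟩
  · linarith [h _ _ h1]
  · linarith [h' _ _ h2, h _ _ h4, dist_triangle4 x a b c, dist_triangle x c y]

theorem Ach.pure {J : Type*} {α : Type} {P : α → (J → ℕ → Set X) → Prop} (x : α)
    (h : ∀ W, P x W) : Ach P :=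
  fun R => ⟨0, fun _ _ => ∅, x, fun _ _ => thin_empty R le_rfl, fun W' _ => h W'⟩

theorem Ach.bind {J : Type*} {α γ : Type} {P : α → (J → ℕ → Set X) → Prop}
    {Q : γ → (J → ℕ → Set X) → Prop} (h1 : Ach P)
    (h2 : ∀ x, Ach fun c W => P x W → Q c W) : Ach Q := by
  intro R
  obtain ⟨M1, W1, x, t1, p1⟩ := h1 (max R 0)
  obtain ⟨M2, W2, c, t2, p2⟩ := h2 x (M1 + 2 * max R 0)
  refine ⟨M2 + 2 * M1 + 2 * max R 0, fun j a => W1 j a ∪ W2 j a, c, fun j a =>
    (thin_union (le_max_right _ _) (t1 j a) (t2 j a)).mono (le_max_left _ _) le_rfl le_rfl,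
    fun W' hW => p2 W' (fun j a => Set.subset_union_right.trans (hW j a))
      (p1 W' fun j a => Set.subset_union_left.trans (hW j a))⟩

theorem Ach.imp {J : Type*} {α γ : Type} {P : α → (J → ℕ → Set X) → Prop}
    {Q : γ → (J → ℕ → Set X) → Prop} (h1 : Ach P)
    (h2 : ∀ x, ∃ c, ∀ W, P x W → Q c W) : Ach Q := by
  intro R
  obtain ⟨M, W, x, t, p⟩ := h1 R
  obtain ⟨c, hc⟩ := h2 x
  exact ⟨M, W, c, t, fun W' hW => hc W' (p W' hW)⟩

theorem tm_near {s : ℝ} (hs : 0 < s) (y : ℝ) :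
    ∃ j : ℤ, |y - 2 * s * j| ≤ s ∧ ∀ i : ℤ, |y - 2 * s * j| ≤ |y - 2 * s * i| := by
  have h2 : 0 < 2 * s := by positivity
  have e : ∀ i : ℤ, |y - 2 * s * i| = 2 * s * |y / (2 * s) - i| := fun i => by
    rw [← abs_of_pos h2, ← abs_mul, abs_of_pos h2]
    congr 1
    field_simp
  refine ⟨round (y / (2 * s)), ?_, fun i => ?_⟩
  · rw [e]
    nlinarith [abs_sub_round (y / (2 * s))]
  · rw [e, e]
    exact mul_le_mul_of_nonneg_left (round_le _ i) h2.le

theorem exists_zig {s : ℝ} (hs : 0 < s) : ∃ z : ℝ → ℝ, Zig s z := by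
  choose j h1 h2 using tm_near hs
  refine ⟨fun y => s / 2 - |y - 2 * s * j y|, fun a b => ?_, fun y T h => ?_, fun y T h => ?_,
    fun y T h => ?_⟩
  · have h3 := h2 b (j a)
    have h4 := abs_sub_le b a (2 * s * j a)
    rw [abs_sub_comm b a] at h4
    dsimp only
    linarith
  · dsimp only at h
    rcases le_total 0 (y - 2 * s * j y) with h0 | h0
    · rw [abs_of_nonneg h0, abs_sub_comm] at h
      refine ⟨2 * j y, le_of_eq_of_le ?_ h⟩
      congr 1
      push_cast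
      ring
    · rw [abs_of_nonpos h0] at h
      refine ⟨2 * j y - 1, le_of_eq_of_le ?_ h⟩
      congr 1
      push_cast
      ring
  · dsimp only at h
    exact ⟨j y, by linarith⟩
  · dsimp only at h
    have h3 := h1 y
    rcases le_total 0 (y - 2 * s * j y) with h0 | h0
    · rw [abs_of_nonneg h0] at h h3
      exact ⟨j y, abs_le.2 ⟨by linarith, by linarith⟩⟩
    · rw [abs_of_nonpos h0] at h h3
      refine ⟨j y - 1, abs_le.2 ⟨?_, ?_⟩⟩ <;> push_cast <;> linarith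

theorem tm_abs {g : X → ℝ} (hg : Lip g) (x y : X) : |g x - g y| ≤ dist x y :=
  abs_sub_le_iff.2 ⟨hg x y, by rw [dist_comm]; exact hg y x⟩

/-- Along a chain on which `g` stays close to a coarse lattice the lattice point is constant. -/
theorem tm_lat {g : X → ℝ} (hg : Lip g) {r a p w : ℝ} {P : Set X} {u v : X} (hu : u ∈ P)
    (hc : Chain r P u v) (hw : ∀ y ∈ P, Chain r P u y → ∃ m : ℤ, |g y - (a + p * m)| ≤ w)
    (hp : 0 < p) (hpw : 2 * w + r < p) : |g u - g v| ≤ 2 * w := by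
  obtain ⟨m, hm⟩ := hw u hu (Chain.refl _)
  have key : |g v - (a + p * m)| ≤ w := by
    induction hc with
    | refl => exact hm
    | @tail b c hb hbc ih =>
      obtain ⟨m', hm'⟩ := hw c hbc.2.1 (Chain.tail hb hbc.1 hbc.2.1 hbc.2.2)
      have h1 := abs_le.1 ((tm_abs hg b c).trans hbc.2.2)
      have h2 := abs_le.1 ih
      have h3 := abs_le.1 hm'
      have h4 : (m : ℝ) < m' + 1 := by
        refine lt_of_mul_lt_mul_left ?_ hp.le
        linarith [h1.1, h1.2, h2.1, h2.2, h3.1, h3.2]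
      have h5 : (m' : ℝ) < m + 1 := by
        refine lt_of_mul_lt_mul_left ?_ hp.le
        linarith [h1.1, h1.2, h2.1, h2.2, h3.1, h3.2]
      have h6 : m < m' + 1 := by exact_mod_cast h4
      have h7 : m' < m + 1 := by exact_mod_cast h5
      obtain rfl : m = m' := by omega
      exact hm'
  have h1 := abs_le.1 hm
  have h2 := abs_le.1 key
  exact abs_le.2 ⟨by linarith [h1.1, h2.2], by linarith [h1.2, h2.1]⟩

/-- It is enough to bound the coordinates along chains. -/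
theorem tm_light {D : ℝ → ℝ → ℝ} {rm r s : ℝ} {f : ℕ → X → ℝ} {I : Finset ℕ} {C P : Set X}
    (h : Light D rm f I C) (hr : r ≤ rm) (hs : s ≤ rm) (hP : P ⊆ C)
    (hk : ∀ u ∈ P, ∀ v, Chain r P u v → ∀ k ∈ I, |f k u - f k v| ≤ s) : Thin r (D r s) P := by
  intro x y hc
  refine h r s hr hs {u | u ∈ P ∧ Chain r P x u} (fun u hu => hP hu.1)
    (fun u hu v hv => hk u hu.1 v (hu.2.symm.trans hv.2)) x y ?_
  exact hc.refine (fun hx => ⟨hx, Chain.refl _⟩) fun _ _ hb _ _ _ hbP _ => ⟨hbP, hb⟩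

theorem tm_inv {r : ℝ} {P : Set X} {φ : X → Prop}
    (hφ : ∀ a ∈ P, ∀ b ∈ P, dist a b ≤ r → φ a → φ b) {u v : X} (hc : Chain r P u v)
    (hu : φ u) : φ v := by
  induction hc with
  | refl => exact hu
  | tail _ hab ih => exact hφ _ hab.1 _ hab.2.1 hab.2.2 ih

theorem Light.pin {D : ℝ → ℝ → ℝ} {rm rm' s sc : ℝ} {f : ℕ → X → ℝ} {I : Finset ℕ} {C : Set X}
    {p : ℕ} {Y : X → ℝ} (h : Light D rm f I C) (hf : Lip (f p)) (hp : Pin s (f p) Y)
    (hrm : rm' ≤ rm) (hsc0 : 0 ≤ sc) (hsc : 2 * sc ≤ rm) (hs0 : 0 < s) (hs : rm' + 2 * sc < s) :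
    Light (fun r s' => D r (max s' (2 * sc))) rm' f (I.erase p) {x | x ∈ C ∧ |Y x| ≤ sc} := by
  have _ := hsc0
  intro r s' hr hs' P hP hk
  refine tm_light h (hr.trans hrm) (max_le (hs'.trans hrm) hsc) (fun x hx => (hP hx).1)
    fun u hu v hc k hkI => ?_
  by_cases hkp : k = p
  · subst hkp
    exact (tm_lat hf hu hc (fun y hy _ => hp y sc (hP hy).2) hs0 (by linarith)).trans
      (le_max_right _ _)
  · exact (hk u hu v (hc.mem hu) k (Finset.mem_erase.2 ⟨hkp, hkI⟩)).trans (le_max_left _ _)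

theorem Light.tame {D : ℝ → ℝ → ℝ} {rm s T σ : ℝ} {f : ℕ → X → ℝ} {I : Finset ℕ} {C : Set X}
    {z : ℝ → ℝ} (hz : Zig s z) (h : Light D rm f I C) (hf : ∀ k, Lip (f k)) {Y : ℕ → X → ℝ}
    (hY : ∀ k, Lip (Y k)) (hT : ∀ k x, |Y k x - z (f k x)| ≤ T) {P : Set X} (hP : P ⊆ C)
    (τ : X → Finset ℕ) (h1 : ∀ x ∈ P, ∀ y ∈ P, dist x y ≤ σ → τ x = τ y)
    (h2 : ∀ x ∈ P, ∀ k ∈ τ x, |Y k x| ≤ T) (h3 : ∀ x ∈ P, ∀ k ∈ I, k ∉ τ x → σ < |Y k x|)
    (hσ : 0 ≤ σ) (hT0 : 0 ≤ T) (hs : 4 * T + σ < s) (hrm : 2 * s ≤ rm) :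
    Thin σ (D σ (2 * s)) P := by
  have hs0 : 0 < s := by linarith
  refine tm_light h (by linarith) hrm hP fun u hu v hc k hkI => ?_
  have hτ : ∀ y, Chain σ P u y → τ y = τ u := fun y hy =>
    tm_inv (φ := fun y => τ y = τ u) (fun a ha b hb hab e => (h1 a ha b hb hab).symm.trans e) hy rfl
  by_cases hk : k ∈ τ u
  · refine (tm_lat (a := s / 2) (w := 2 * T) (hf k) hu hc (fun y hy hcy => ?_) hs0
      (by linarith)).trans (by linarith)
    have h4 := abs_le.1 (h2 y hy k (by rwa [hτ y hcy]))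
    have h5 := abs_le.1 (hT k y)
    exact hz.2.1 _ _ (abs_le.2 ⟨by linarith [h4.1, h5.2], by linarith [h4.2, h5.1]⟩)
  · have h4 : ∀ y ∈ P, Chain σ P u y → σ < |Y k y| := fun y hy hcy =>
      h3 y hy k hkI (by rwa [hτ y hcy])
    rcases le_total 0 (Y k u) with h0 | h0
    · have h5 : ∀ y, Chain σ P u y → 0 ≤ Y k y := fun y hy =>
        (tm_inv (φ := fun y => Chain σ P u y ∧ 0 ≤ Y k y) (fun a ha b hb hab e => by
          refine ⟨e.1.tail ha hb hab, ?_⟩
          have h6 := h4 a ha e.1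
          rw [abs_of_nonneg e.2] at h6
          linarith [hY k a b]) hy ⟨Chain.refl _, h0⟩).2
      refine (tm_lat (a := 0) (p := 2 * s) (w := s / 2 + T) (hf k) hu hc (fun y _ hcy => ?_)
        (by linarith) (by linarith)).trans (by linarith)
      have h6 := abs_le.1 (hT k y)
      simpa only [zero_add] using hz.2.2.1 (f k y) T (by linarith [h5 y hcy, h6.2])
    · have h5 : ∀ y, Chain σ P u y → Y k y ≤ 0 := fun y hy =>
        (tm_inv (φ := fun y => Chain σ P u y ∧ Y k y ≤ 0) (fun a ha b hb hab e => by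
          refine ⟨e.1.tail ha hb hab, ?_⟩
          have h6 := h4 a ha e.1
          rw [abs_of_nonpos e.2] at h6
          linarith [hY k b a, dist_comm a b]) hy ⟨Chain.refl _, h0⟩).2
      refine (tm_lat (a := s) (p := 2 * s) (w := s / 2 + T) (hf k) hu hc (fun y _ hcy => ?_)
        (by linarith) (by linarith)).trans (by linarith)
      have h6 := abs_le.1 (hT k y)
      exact hz.2.2.2 (f k y) T (by linarith [h5 y hcy, h6.1])

end Pool.Agent.Apc.Trap
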