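import Pool.Agent.Lib.MP_4f4e79_gt.Glue
import Pool.Agent.Lib.MP_4f4e79_gt.Tame
import Pool.Agent.Lib.MP_4f4e79_gt.ColC

/-!
The multi-scale trap: a hypersurface with fingers and a cut in it on which every set that
collapses to lists of length `q + 1` at enough scales collapses to lists of length `q`.
-/

namespace Pool.Agent.Apc.Trap

variable {X : Type*} [PseudoMetricSpace X]

theorem Lip.const (c : ℝ) : Lip fun _ : X => c := fun x y => by simp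

theorem Lip.neg {g : X → ℝ} (h : Lip g) : Lip fun x => -g x := fun x y => by
  have := h y x
  rw [dist_comm] at this
  linarith

theorem Lip.add_const {g : X → ℝ} (h : Lip g) (c : ℝ) : Lip fun x => g x + c := fun x y => by
  linarith [h x y]

theorem Lip.sub_const {g : X → ℝ} (h : Lip g) (c : ℝ) : Lip fun x => g x - c := fun x y => by
  linarith [h x y]

theorem Lip.const_sub {g : X → ℝ} (h : Lip g) (c : ℝ) : Lip fun x => c - g x := fun x y => by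
  linarith [h.neg x y]

theorem Lip.max {g g' : X → ℝ} (h : Lip g) (h' : Lip g') : Lip fun x => max (g x) (g' x) := by
  intro x y
  have h1 := le_max_left (g y) (g' y)
  have h2 := le_max_right (g y) (g' y)
  have h3 : Max.max (g x) (g' x) ≤ dist x y + Max.max (g y) (g' y) :=
    max_le (by linarith [h x y]) (by linarith [h' x y])
  linarith

theorem Lip.min {g g' : X → ℝ} (h : Lip g) (h' : Lip g') : Lip fun x => min (g x) (g' x) := by
  intro x y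
  have h1 := min_le_left (g x) (g' x)
  have h2 := min_le_right (g x) (g' x)
  have h3 : Min.min (g x) (g' x) - dist x y ≤ Min.min (g y) (g' y) :=
    le_min (by linarith [h x y]) (by linarith [h' x y])
  linarith

theorem Lip.abs {g : X → ℝ} (h : Lip g) : Lip fun x => |g x| := h.max h.neg

theorem Lip.abs_sub {g : X → ℝ} (h : Lip g) (x y : X) : |g x - g y| ≤ dist x y := by
  have := h.neg x y
  exact abs_le.2 ⟨by linarith, h x y⟩

/-- The finger function. -/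
def fing (t u v : ℝ) : ℝ := max (min u v) (u - t)

theorem Lip.fing {g g' : X → ℝ} (h : Lip g) (h' : Lip g') (t : ℝ) :
    Lip fun x => fing t (g x) (g' x) := (h.min h').max (h.sub_const t)

theorem fing_close {t u v : ℝ} (ht : 0 ≤ t) : |fing t u v - u| ≤ t := by
  have h1 : u - t ≤ fing t u v := le_max_right _ _
  have h2 : fing t u v ≤ u := max_le (min_le_left _ _) (by linarith)
  exact abs_le.2 ⟨by linarith, by linarith⟩

theorem fing_top {t u v e : ℝ} (h : |fing t u v| ≤ e) : u ≤ t + e := by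
  have h1 : u - t ≤ fing t u v := le_max_right _ _
  linarith [(abs_le.1 h).2]

theorem fing_cap {t u v e : ℝ} (h : |fing t u v| ≤ e) (hv : v < -e) : t - e ≤ u := by
  rcases le_max_iff.1 (abs_le.1 h).1 with h1 | h1
  · linarith [min_le_right u v]
  · linarith

theorem fing_side {t u v e : ℝ} (h : |fing t u v| ≤ e) (hu : e < u) : v ≤ e := by
  have h1 : min u v ≤ fing t u v := le_max_left _ _
  rcases min_le_iff.1 (h1.trans (abs_le.1 h).2) with h2 | h2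
  · linarith
  · exact h2

theorem Light.le {D : ℝ → ℝ → ℝ} {rm rm' : ℝ} {f : ℕ → X → ℝ} {I : Finset ℕ} {C : Set X}
    (h : Light D rm f I C) (hr : rm' ≤ rm) : Light D rm' f I C :=
  fun r s h1 h2 => h r s (h1.trans hr) (h2.trans hr)

/-- The conclusion of the dense cut lemma. -/
def DenseP (q K : ℕ) (I : Finset ℕ) (D : ℝ → ℝ → ℝ) (σ T t μ rm : ℝ) (Rm : Set (Set X)) : Prop :=
  0 ≤ T ∧ 0 ≤ t ∧ 0 ≤ μ ∧ ∀ (f : ℕ → X → ℝ) (u h : X → ℝ), (∀ k, Lip (f k)) → Lip u → Lip h →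
    ∃ ut b : X → ℝ, Lip ut ∧ Lip b ∧ (∀ x, |ut x - u x| ≤ T) ∧ (∀ x, t - σ ≤ h x → σ ≤ b x) ∧
      (∀ x, h x ≤ σ → b x ≤ -σ) ∧ ∀ S ∈ Rm, ∀ C, Light D rm f I C →
        Coll q K σ μ {x | x ∈ S ∧ x ∈ C ∧ |ut x| ≤ σ ∧ |b x| ≤ σ}

/-- The conclusion of the loop over the pairs of walls. -/
def LoopP (q K : ℕ) (I : Finset ℕ) (D : ℝ → ℝ → ℝ) (σ : ℝ) (l : List (ℕ × ℕ)) (T μ rm : ℝ)
    (Rm : Set (Set X)) : Prop :=
  0 ≤ T ∧ 0 ≤ μ ∧ ∀ s : ℝ, T ≤ s → ∀ (f Y : ℕ → X → ℝ) (u w : X → ℝ), (∀ k, Lip (f k)) →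
    (∀ k, Lip (Y k)) → Lip u → Lip w → (∀ e ∈ l, Pin s (f e.2) (Y e.2)) →
    ∃ (ut b : X → ℝ) (Yt : ℕ → X → ℝ), Lip ut ∧ Lip b ∧ (∀ k, Lip (Yt k)) ∧
      (∀ x, |ut x - u x| ≤ T) ∧ (∀ k x, |Yt k x - Y k x| ≤ T) ∧ (∀ x, b x ≤ T - w x) ∧
      (∀ e ∈ l, ∀ x, |ut x| ≤ σ → |Yt e.1 x| ≤ 3 * σ → |Yt e.2 x| ≤ 3 * σ → w x ≤ 0 →
        2 * σ ≤ b x) ∧
      ∀ S ∈ Rm, ∀ C, Light D rm f I C → Coll q K σ μ {x | x ∈ S ∧ x ∈ C ∧ |ut x| ≤ σ ∧ |b x| ≤ σ}

theorem loop_nil (q : ℕ) (I : Finset ℕ) (D : ℝ → ℝ → ℝ) {σ : ℝ} (hσ : 0 < σ) (Rm : Set (Set X)) :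
    LoopP q 0 I D σ [] 0 0 0 Rm := by
  refine ⟨le_rfl, le_rfl, fun s _ f Y u w _ hY hu hw _ => ⟨u, fun x => min (-(2 * σ)) (-w x), Y, hu,
    (Lip.const _).min hw.neg, hY, by simp, by simp, fun x => ?_, by simp, fun S _ C _ => ?_⟩⟩
  · simp
  · refine coll_empty _ _ _ _ fun x hx => ?_
    have h1 := (abs_le.1 hx.2.2.2).1
    have h2 := min_le_left (-(2 * σ)) (-w x)
    linarith

theorem abs_le_of_close {a b T e : ℝ} (h : |a - b| ≤ T) (ha : |a| ≤ e) : |b| ≤ e + T := by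
  rw [abs_le] at *
  constructor <;> linarith [h.1, h.2, ha.1, ha.2]

theorem close_trans {a b c T T' : ℝ} (h : |a - b| ≤ T) (h' : |b - c| ≤ T') : |a - c| ≤ T + T' :=
  (abs_sub_le a b c).trans (add_le_add h h')

theorem loop_cons {q K1 K2 : ℕ} {I : Finset ℕ} {D : ℝ → ℝ → ℝ} {σ : ℝ} (hσ : 0 < σ) {c p : ℕ}
    (hcp : c ≠ p) {l : List (ℕ × ℕ)} (hl : ∀ e ∈ l, c ≠ e.2) {T1 μ1 rm1 T2 t μ2 rm2 sc : ℝ}
    {Rm : Set (Set X)} (h1 : LoopP q K1 I D σ l T1 μ1 rm1 Rm)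
    (hsc : sc = 3 * (3 * σ + T1) + 1 + 3 * (4 * σ + 4 * μ1))
    (h2 : DenseP q K2 (I.erase p) (fun r s' => D r (max s' (2 * sc))) sc T2 t μ2 rm2 Rm) :
    LoopP q (K1 + (1 + K1 * (q + 1)) * K2) I D σ ((c, p) :: l) (T1 + T2 + t + |rm2| + 2 * sc + 1)
      (2 * μ1 + μ2) (max rm1 (max rm2 (2 * sc))) Rm := by
  classical
  obtain ⟨hT1, hμ1, h1⟩ := h1
  obtain ⟨hT2, ht, hμ2, h2⟩ := h2
  have hrm := abs_nonneg rm2
  have hrm' := le_abs_self rm2
  obtain ⟨e, he⟩ : ∃ e, e = 3 * σ + T1 := ⟨_, rfl⟩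
  obtain ⟨lam, hlam⟩ : ∃ lam, lam = 4 * σ + 4 * μ1 := ⟨_, rfl⟩
  have hsc0 : 0 ≤ sc := by linarith
  refine ⟨by linarith, by linarith, fun s hs f Y u w hf hY hu hw hpin => ?_⟩
  obtain ⟨Yc, bc, hYc, hbc, hc1, hc2, hc3, hc4⟩ := h2 f (Y c) u hf (hY c) hu
  let d : X → ℝ := fun x => max (max |Yc x| |Y p x|) (w x)
  have hd : Lip d := (hYc.abs.max (hY p).abs).max hw
  have hd1 : ∀ x, |Yc x| ≤ d x := fun x => (le_max_left _ _).trans (le_max_left _ _)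
  have hd2 : ∀ x, |Y p x| ≤ d x := fun x => (le_max_right _ _).trans (le_max_left _ _)
  have hd3 : ∀ x, w x ≤ d x := fun x => le_max_right _ _
  let u' : X → ℝ := fun x => fing t (u x) (d x - (2 * e + 1))
  let bF : X → ℝ := fun x => min (bc x) (3 * e + 1 + 2 * lam - d x)
  have hbF : Lip bF := hbc.min (hd.const_sub _)
  have hb1 : ∀ x, bF x ≤ bc x := fun x => min_le_left _ _
  have hb2 : ∀ x, bF x ≤ 3 * e + 1 + 2 * lam - d x := fun x => min_le_right _ _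
  let Y' : ℕ → X → ℝ := Function.update Y c Yc
  have hY'c : Y' c = Yc := Function.update_self _ _ _
  have hY'n : ∀ k, c ≠ k → Y' k = Y k := fun k hk => Function.update_of_ne hk.symm _ _
  have hY' : ∀ k, Lip (Y' k) := fun k => by
    by_cases hk : c = k
    · rw [← hk, hY'c]; exact hYc
    · rw [hY'n k hk]; exact hY k
  have hY'2 : ∀ k x, |Y' k x - Y k x| ≤ T2 := fun k x => by
    by_cases hk : c = k
    · rw [← hk, hY'c]; exact hc1 x
    · rw [hY'n k hk]; simpa using hT2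
  obtain ⟨ut, br, Yt, hut, hbr, hYt, hr1, hr2, hr3, hr4, hr5⟩ := h1 s (by linarith) f Y' u' w hf hY'
    (hu.fing (hd.sub_const _) t) hw fun e he => by
      rw [hY'n _ (hl e he)]; exact hpin e (List.mem_cons_of_mem _ he)
  have hu' : ∀ x, |ut x| ≤ σ → |u' x| ≤ e := fun x hx =>
    (abs_le_of_close (hr1 x) hx).trans (by linarith)
  refine ⟨ut, fun x => max (bF x) (br x), Yt, hut, hbF.max hbr, hYt, fun x => ?_, fun k x => ?_,
    fun x => ?_, fun e' he' x h3 h4 h5 h6 => ?_, fun S hS C hC => ?_⟩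
  · exact (close_trans (hr1 x) (fing_close ht)).trans (by linarith)
  · exact (close_trans (hr2 k x) (hY'2 k x)).trans (by linarith)
  · exact max_le (by linarith [hb2 x, hd3 x]) (by linarith [hr3 x])
  · rcases List.mem_cons.1 he' with rfl | he'
    · refine le_trans ?_ (le_max_left _ _)
      have h7 := abs_le_of_close (hr2 c x) h4
      have h8 := abs_le_of_close (hr2 p x) h5
      rw [hY'c] at h7
      rw [hY'n p hcp] at h8
      have h9 : d x ≤ e := max_le (max_le (by linarith) (by linarith)) (by linarith)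
      have h10 := fing_cap (hu' x h3) (by linarith)
      exact le_min (by linarith [hc2 x (by linarith)]) (by linarith)
    · exact (hr4 e' he' x h3 h4 h5 h6).trans (le_max_right _ _)
  · have hC' := hC.pin (rm' := rm2) (sc := sc) (hf p) (hpin (c, p) List.mem_cons_self)
      ((le_max_left _ _).trans (le_max_right _ _)) hsc0
      ((le_max_right _ _).trans (le_max_right _ _)) (by linarith) (by linarith)
    refine Coll.union (a := -(lam / 2)) (δ := lam / 2) (r2 := sc) hbF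
      ((hr5 S hS C (hC.le (le_max_left _ _))).mono le_rfl le_rfl le_rfl ?_)
      ((hc4 S hS _ hC').mono le_rfl le_rfl le_rfl ?_) hμ1 hμ2 (by linarith) (by linarith)
    · rintro x ⟨⟨h3, h4, h5, h6⟩, h7⟩
      refine ⟨h3, h4, h5, ?_⟩
      rw [abs_le] at h6 ⊢
      refine ⟨?_, (le_max_right _ _).trans h6.2⟩
      rcases le_max_iff.1 h6.1 with h8 | h8
      · linarith
      · exact h8
    · rintro x ⟨⟨h3, h4, h5, h6⟩, h7⟩
      have h8 : bF x ≤ σ := (le_max_left _ _).trans (abs_le.1 h6).2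
      have h9 : d x ≤ sc := by linarith [hb2 x]
      have h10 : sc < u x := by
        by_contra h11
        linarith [hc3 x (not_lt.1 h11), hb1 x]
      have h11 := fing_side (hu' x h5) (by linarith)
      refine ⟨h3, ⟨h4, (hd2 x).trans h9⟩, (hd1 x).trans h9, abs_le.2 ⟨by linarith [hb1 x], ?_⟩⟩
      rcases min_le_iff.1 h8 with h12 | h12 <;> linarith

theorem tau_const {I : Finset ℕ} {Y : ℕ → X → ℝ} (hY : ∀ k, Lip (Y k)) {σ : ℝ} (hσ : 0 ≤ σ)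
    {x y : X} (hd : dist x y ≤ σ) (hy : ∃ k ∈ I, |Y k y| ≤ σ)
    (hy' : ∀ k ∈ I, ∀ k' ∈ I, k ≠ k' → |Y k y| ≤ 3 * σ → 3 * σ < |Y k' y|) :
    ∀ k ∈ I, |Y k x| ≤ σ → |Y k y| ≤ σ := by
  intro k hk hx
  obtain ⟨k', hk', hy⟩ := hy
  by_cases h : k = k'
  · rw [h]; exact hy
  · have h1 := abs_le_of_close ((hY k).abs_sub x y) hx
    linarith [hy' k hk k' hk' h (by linarith)]

theorem col_two_of_pairs {D : ℝ → ℝ → ℝ} {rm s T σ : ℝ} {f : ℕ → X → ℝ} {I : Finset ℕ} {C : Set X}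
    {z : ℝ → ℝ} (hz : Zig s z) (h : Light D rm f I C) (hf : ∀ k, Lip (f k)) {Y : ℕ → X → ℝ}
    (hY : ∀ k, Lip (Y k)) (hT : ∀ k x, |Y k x - z (f k x)| ≤ T) {P : Set X} (hP : P ⊆ C)
    (hP2 : ∀ x ∈ P, ∀ k ∈ I, ∀ k' ∈ I, k ≠ k' → |Y k x| ≤ 3 * σ → 3 * σ < |Y k' x|)
    (hσ : 0 ≤ σ) (hσT : σ ≤ T) (hs : 4 * T + σ < s) (hrm : 2 * s ≤ rm) :
    Col 2 σ (D σ (2 * s)) P := by
  classical
  refine ⟨fun x => if ∃ k ∈ I, |Y k x| ≤ σ then 1 else 0, 
    fun x _ => by dsimp only; split_ifs <;> omega, fun a => ?_⟩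
  refine h.tame hz hf hY hT (fun x hx => hP hx.1) (fun x => I.filter fun k => |Y k x| ≤ σ)
    (fun x hx y hy hd => ?_) (fun x _ k hk => (Finset.mem_filter.1 hk).2.trans hσT)
    (fun x _ k hk hk' => ?_) hσ (hσ.trans hσT) hs hrm
  · have hxy : (∃ k ∈ I, |Y k x| ≤ σ) ↔ ∃ k ∈ I, |Y k y| ≤ σ := by
      have h1 := hx.2.trans hy.2.symm
      by_cases h2 : ∃ k ∈ I, |Y k x| ≤ σ <;> by_cases h3 : ∃ k ∈ I, |Y k y| ≤ σ
      · exact iff_of_true h2 h3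
      · simp only [h2, h3, if_true, if_false] at h1; omega
      · simp only [h2, h3, if_true, if_false] at h1; omega
      · exact iff_of_false h2 h3
    refine Finset.filter_congr fun k hk => ⟨fun h1 => ?_, fun h1 => ?_⟩
    · exact tau_const hY hσ hd (hxy.1 ⟨k, hk, h1⟩) (hP2 y hy.1) k hk h1
    · exact tau_const hY hσ (dist_comm x y ▸ hd) (hxy.2 ⟨k, hk, h1⟩) (hP2 x hx.1) k hk h1
  · by_contra h1
    exact hk' (Finset.mem_filter.2 ⟨hk, not_lt.1 h1⟩)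

theorem Zig.lip {s : ℝ} {z : ℝ → ℝ} (hz : Zig s z) {g : X → ℝ} (hg : Lip g) :
    Lip fun x => z (g x) := fun x y => (hz.1 _ _).trans (hg.abs_sub x y)

theorem dense_of_loop {q K1 Kq Kg : ℕ} (hq : 2 ≤ q)
    (hKq : ∀ (r M : ℝ) (A : Set X), Col q r M A → Coll q Kq r M A) {I : Finset ℕ}
    {D : ℝ → ℝ → ℝ} {σ : ℝ} (hσ : 0 < σ) {l : List (ℕ × ℕ)}
    (hl : ∀ c ∈ I, ∀ p ∈ I, p < c → (c, p) ∈ l) {T1 μ1 rm1 s μa μg τ : ℝ} {Rm : Set (Set X)}
    (h1 : LoopP q K1 I D σ l T1 μ1 rm1 Rm) (hs : s = 5 * T1 + 5 * σ + 1)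
    (hμa : μa = μ1 + |D σ (2 * s)|) (hg : ∀ S ∈ Rm, Coll (q + 1) Kg (σ + 4 * μa) μg S)
    (hτ : τ = T1 + 2 * σ + 2 * μa + |μg|) :
    DenseP q ((Kq + K1) * (1 + Kg * (q + 2))) I D σ T1 (8 * τ) (2 * μa + |μg|) (max rm1 (2 * s))
      Rm := by
  obtain ⟨hT1, hμ1, h1⟩ := h1
  have hD := abs_nonneg (D σ (2 * s))
  have hD' := le_abs_self (D σ (2 * s))
  have hμg := abs_nonneg μg
  refine ⟨hT1, by linarith, by linarith, fun f u h hf hu hh => ?_⟩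
  obtain ⟨z, hz⟩ := exists_zig (s := s) (by linarith)
  obtain ⟨ut, bl, Yt, hut, hbl, hYt, hr1, hr2, hr3, hr4, hr5⟩ := h1 s (by linarith) f
    (fun k x => z (f k x)) u (fun x => 2 * τ - h x) hf (fun k => hz.lip (hf k)) hu (hh.const_sub _)
    fun e _ x T hx => hz.2.1 _ T hx
  refine ⟨ut, fun x => max (h x - 7 * τ) (bl x), hut, (hh.sub_const _).max hbl, hr1,
    fun x hx => le_trans (by linarith) (le_max_left _ _),
    fun x hx => max_le (by linarith) (by linarith [hr3 x]), fun S hS C hC => ?_⟩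
  refine Coll.interp (m := 4 * τ) (δ := 2 * τ) (rg := σ + 4 * μa) hh ?_
    ((hr5 S hS C (hC.le (le_max_left _ _))).mono le_rfl le_rfl (by linarith) ?_)
    ((hg S hS).mono le_rfl le_rfl (le_abs_self _) fun x hx => hx.1) (by linarith) hμg le_rfl
    (by linarith)
  · refine hKq _ _ _ ((col_two_of_pairs (T := T1 + σ) hz hC hf hYt
      (fun k x => (hr2 k x).trans (by linarith)) (fun x hx => hx.1.2.1) ?_ hσ.le (by linarith)
      (by linarith) (le_max_right _ _)).mono hq le_rfl (by linarith) le_rfl)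
    rintro x ⟨⟨-, -, h5, h6⟩, h7⟩ k hk k' hk' hne h8
    by_contra h9
    have h10 : bl x ≤ σ := (le_max_right _ _).trans (abs_le.1 h6).2
    rcases lt_or_gt_of_ne hne with h11 | h11
    · linarith [hr4 _ (hl k' hk' k hk h11) x h5 (not_lt.1 h9) h8 (by linarith)]
    · linarith [hr4 _ (hl k hk k' hk' h11) x h5 h8 (not_lt.1 h9) (by linarith)]
  · rintro x ⟨⟨h3, h4, h5, h6⟩, h7⟩
    refine ⟨h3, h4, h5, ?_⟩
    rw [abs_le] at h6 ⊢
    refine ⟨?_, (le_max_right _ _).trans h6.2⟩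
    rcases le_max_iff.1 h6.1 with h8 | h8
    · linarith
    · exact h8

theorem exists_pairs (I : Finset ℕ) : ∃ l : List (ℕ × ℕ), (∀ e ∈ l, e.2 ∈ I ∧ e.1 ≠ e.2) ∧
    l.Pairwise (fun e e' => e.1 ≠ e'.2) ∧ ∀ c ∈ I, ∀ p ∈ I, p < c → (c, p) ∈ l := by
  let l0 := ((I ×ˢ I).filter fun e => e.2 < e.1).toList
  let l := l0.mergeSort fun e e' => decide (e'.1 ≤ e.1)
  have hm : ∀ e, e ∈ l ↔ (e.1 ∈ I ∧ e.2 ∈ I) ∧ e.2 < e.1 := fun e => by
    simp [l, l0]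
  refine ⟨l, fun e he => ⟨((hm e).1 he).1.2, ((hm e).1 he).2.ne'⟩, ?_,
    fun c hc p hp h => (hm _).2 ⟨⟨hc, hp⟩, h⟩⟩
  have h1 : l.Pairwise fun e e' => decide (e'.1 ≤ e.1) = true :=
    List.pairwise_mergeSort (fun a b c h h' => by simp at *; omega)
      (fun a b => by simp; omega) l0
  refine h1.imp_of_mem fun {e e'} _ he' h => ?_
  have h2 := ((hm e').1 he').2
  simp only [decide_eq_true_eq] at h
  omega

variable {J : Type*} (Rem : (J → ℕ → Set X) → Set (Set X))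

/-- The remainders collapse to lists of length `q` at every scale. -/
def Orc (q : ℕ) : Prop :=
  ∃ K : ℕ, ∀ r : ℝ, Ach fun (μ : ℝ) W => ∀ S ∈ Rem W, Coll q K r μ S

/-- The dense cut lemma for the coordinates `I`. -/
def Dense (q : ℕ) (I : Finset ℕ) : Prop :=
  ∃ K : ℕ, ∀ (D : ℝ → ℝ → ℝ) (σ : ℝ), 0 < σ →
    Ach fun (x : ℝ × ℝ × ℝ × ℝ) W => DenseP q K I D σ x.1 x.2.1 x.2.2.1 x.2.2.2 (Rem W)

theorem loop {q : ℕ} {I : Finset ℕ} (ih : ∀ p ∈ I, Dense Rem q (I.erase p)) (l : List (ℕ × ℕ)) :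
    (∀ e ∈ l, e.2 ∈ I ∧ e.1 ≠ e.2) → l.Pairwise (fun e e' => e.1 ≠ e'.2) →
    ∃ K : ℕ, ∀ (D : ℝ → ℝ → ℝ) (σ : ℝ), 0 < σ →
      Ach fun (x : ℝ × ℝ × ℝ) W => LoopP q K I D σ l x.1 x.2.1 x.2.2 (Rem W) := by
  induction l with
  | nil => exact fun _ _ => ⟨0, fun D σ hσ => Ach.pure (0, 0, 0) fun W => loop_nil q I D hσ _⟩
  | cons e l ihl =>
    intro h1 h2
    obtain ⟨c, p⟩ := e
    obtain ⟨h3, h4⟩ := List.pairwise_cons.1 h2
    obtain ⟨K1, hK1⟩ := ihl (fun e he => h1 e (List.mem_cons_of_mem _ he)) h4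
    obtain ⟨hp, hcp⟩ := h1 _ List.mem_cons_self
    obtain ⟨K2, hK2⟩ := ih p hp
    refine ⟨K1 + (1 + K1 * (q + 1)) * K2, fun D σ hσ => (hK1 D σ hσ).bind ?_⟩
    rintro ⟨T1, μ1, rm1⟩
    by_cases h0 : 0 ≤ T1 ∧ 0 ≤ μ1
    · refine (hK2 (fun r s' => D r (max s' (2 * (3 * (3 * σ + T1) + 1 + 3 * (4 * σ + 4 * μ1)))))
        (3 * (3 * σ + T1) + 1 + 3 * (4 * σ + 4 * μ1)) (by linarith [h0.1, h0.2])).imp ?_
      rintro ⟨T2, t, μ2, rm2⟩
      exact ⟨(_, _, _), fun W h5 h6 => loop_cons hσ hcp h3 h6 rfl h5⟩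
    · exact Ach.pure (0, 0, 0) fun W h => (h0 ⟨h.1, h.2.1⟩).elim

theorem dense {q : ℕ} (hq : 2 ≤ q) (ho : Orc Rem (q + 1)) (I : Finset ℕ) : Dense Rem q I := by
  induction I using Finset.strongInduction with
  | H I ih =>
  obtain ⟨l, h1, h2, h3⟩ := exists_pairs I
  obtain ⟨K1, hK1⟩ := loop Rem (fun p hp => ih _ (Finset.erase_ssubset hp)) l h1 h2
  obtain ⟨Kq, hKq⟩ := coll_of_col (X := X) q
  obtain ⟨Kg, hKg⟩ := ho
  refine ⟨(Kq + K1) * (1 + Kg * (q + 2)), fun D σ hσ => (hK1 D σ hσ).bind ?_⟩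
  rintro ⟨T1, μ1, rm1⟩
  refine (hKg (σ + 4 * (μ1 + |D σ (2 * (5 * T1 + 5 * σ + 1))|))).imp fun μg => ?_
  exact ⟨(T1, _, _, _), fun W h5 h6 => dense_of_loop (T1 := T1) (μ1 := μ1) (rm1 := rm1) hq hKq hσ h3
    h6 rfl rfl h5 rfl⟩

end Pool.Agent.Apc.Trap
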