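import Pool.Agent.Lib.MP_4f4e79_gt.Abel

namespace Pool.Agent.Apc

universe u

section metric

variable {X Y : Type*} [PseudoMetricSpace X] [PseudoMetricSpace Y]

/-- Finite asymptotic dimension in terms of chains. -/
def FinDim (Z : Type*) [PseudoMetricSpace Z] : Prop :=
  ∃ c : ℕ, ∀ s : ℝ, ∃ (M : ℝ) (T : ℕ → Set Z), (∀ i < c, Thin s M (T i)) ∧ ∀ z, ∃ i < c, z ∈ T i

theorem apc1_of_finDim (h : FinDim Y) : Apc1 ({Set.univ} : Set (Set Y)) := by
  obtain ⟨c, hc⟩ := h
  intro R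
  obtain ⟨M, T, h1, h2⟩ := hc (∑ j ∈ Finset.range c, |R j|)
  refine ⟨c, M, fun A _ => ⟨T, fun i hi => (h1 i hi).mono ?_ le_rfl le_rfl, fun x _ => h2 x⟩⟩
  exact (le_abs_self _).trans (Finset.single_le_sum (f := fun j => |R j|)
    (fun _ _ => abs_nonneg _) (Finset.mem_range.2 hi))

theorem lc_of_finDim {f : X → Y}
    (h : ∀ D0 : ℝ, ∃ (Z : Type u) (_ : PseudoMetricSpace Z) (g : X → Z), FinDim Z ∧ Expans g ∧
      ∀ t : ℝ, ∃ M : ℝ, ∀ a b, dist (f a) (f b) ≤ D0 → dist (g a) (g b) ≤ t → dist a b ≤ M) :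
    LC f := by
  intro D0 r
  obtain ⟨Z, _, g, ⟨c, hc⟩, hg, hM⟩ := h D0
  refine ⟨c, fun D1 R D => ?_⟩
  obtain ⟨s0, hs0⟩ := hg R
  obtain ⟨r0, hr0⟩ := hg r
  let σ : ℝ := |s0| + 1
  have hσ : 0 < σ := by positivity
  obtain ⟨M1, T, hT1, hT2⟩ := hc (2 * (σ * (D + 1)) + |r0|)
  obtain ⟨M, hM⟩ := hM (M1 + σ * (D + 1))
  refine ⟨max M 0, fun y => ⟨fun x i => ⌊Metric.infDist (g x) (T i) / σ⌋, ?_, ?_⟩⟩
  · intro x x' _ _ hd i
    have h1 := hs0 x x' hd
    have h2 := Metric.infDist_le_infDist_add_dist (x := g x) (y := g x') (s := T i)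
    have h3 := Metric.infDist_le_infDist_add_dist (x := g x') (y := g x) (s := T i)
    rw [dist_comm] at h3
    have h4 := le_abs_self s0
    have key : ∀ a b : ℝ, a ≤ b + σ → ⌊a / σ⌋ ≤ ⌊b / σ⌋ + 1 := by
      intro a b hab
      rw [← Int.floor_add_one]
      apply Int.floor_mono
      rw [div_add_one hσ.ne']
      exact div_le_div_of_nonneg_right hab hσ.le
    have h5 := key (Metric.infDist (g x) (T i)) (Metric.infDist (g x') (T i))
      (by simp only [σ]; linarith)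
    have h6 := key (Metric.infDist (g x') (T i)) (Metric.infDist (g x) (T i))
      (by simp only [σ]; linarith)
    rw [abs_le]
    constructor <;> linarith
  · intro x0 x hch
    rcases hch.eq_or_mem with rfl | h0
    · simp
    obtain ⟨i, hi, hx0⟩ := hT2 (g x0)
    have hnear : ∀ z, (∀ j : Fin c, |⌊Metric.infDist (g z) (T j) / σ⌋ -
        ⌊Metric.infDist (g x0) (T j) / σ⌋| ≤ D) → ∃ w ∈ T i, dist (g z) w < σ * (D + 1) := by
      intro z hz
      have h1 := (abs_le.1 (hz ⟨i, hi⟩)).2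
      simp only [Metric.infDist_zero_of_mem hx0, zero_div, Int.floor_zero, sub_zero] at h1
      have h2 := Int.lt_floor_add_one (Metric.infDist (g z) (T i) / σ)
      have h3 : ((⌊Metric.infDist (g z) (T i) / σ⌋ : ℤ) : ℝ) ≤ D := by exact_mod_cast h1
      refine (Metric.infDist_lt_iff ⟨_, hx0⟩).1 ?_
      rw [div_lt_iff₀ hσ] at h2
      nlinarith
    have key : ∃ w ∈ T i, dist (g x) w < σ * (D + 1) ∧
        Chain (2 * (σ * (D + 1)) + |r0|) (T i) (g x0) w := by
      induction hch with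
      | refl => exact ⟨g x0, hx0, by rw [dist_self]; positivity, Chain.refl _⟩
      | @tail a b _ hab ih =>
        obtain ⟨w, hw, hw1, hw2⟩ := ih
        obtain ⟨w', hw', hw1'⟩ := hnear b hab.2.1.2.2
        refine ⟨w', hw', hw1', hw2.tail hw hw' ?_⟩
        have h1 := hr0 a b hab.2.2
        have h2 := dist_triangle4 w (g a) (g b) w'
        rw [dist_comm w (g a)] at h2
        have h3 := le_abs_self r0
        linarith
    obtain ⟨w, -, hw1, hw2⟩ := key
    have h1 := hT1 i hi _ _ hw2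
    refine (hM x0 x (hch.mem h0).2.1 ?_).trans (le_max_left _ _)
    have h2 := dist_triangle_right (g x0) (g x) w
    linarith

end metric

theorem rtg_map {α β : Type*} {r : α → α → Prop} {r' : β → β → Prop} (f : α → β) {x y : α}
    (h : Relation.ReflTransGen r x y) (hf : ∀ a b, r a b → r' (f a) (f b)) :
    Relation.ReflTransGen r' (f x) (f y) := by
  induction h with
  | refl => exact Relation.ReflTransGen.refl
  | tail _ hab ih => exact ih.tail (hf _ _ hab)

variable {G : Type u} [Group G]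

/-- Length functions, possibly nonzero at the identity. -/
structure IsLen (l : G → ℝ) : Prop where
  nonneg : ∀ g, 0 ≤ l g
  inv : ∀ g, l g⁻¹ = l g
  mul : ∀ g h, l (g * h) ≤ l g + l h

theorem IsLen.zero : IsLen (fun _ : G => (0 : ℝ)) := ⟨fun _ => le_rfl, fun _ => rfl, by simp⟩

theorem IsLen.add {l l' : G → ℝ} (h : IsLen l) (h' : IsLen l') : IsLen fun g => l g + l' g :=
  ⟨fun g => add_nonneg (h.nonneg g) (h'.nonneg g), fun g => by rw [h.inv, h'.inv],
    fun g k => by linarith [h.mul g k, h'.mul g k]⟩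

/-- Colourings with finitely many colours whose monochromatic `P`-chains are `Q`-bounded. -/
def FDb (P Q : ℝ → G → Prop) : Prop :=
  ∃ (γ : Type) (_ : Fintype γ), ∀ s : ℝ, ∃ (M : ℝ) (κ : G → γ), ∀ x y,
    Relation.ReflTransGen (fun a b => κ a = κ b ∧ P s (a⁻¹ * b)) x y → Q M (x⁻¹ * y)

/-- Finite asymptotic dimension for a length function. -/
def FD (l : G → ℝ) : Prop := FDb (fun s g => l g ≤ s) fun s g => l g ≤ s

theorem FD.zero : FD (fun _ : G => (0 : ℝ)) :=
  ⟨Unit, inferInstance, fun _ => ⟨0, fun _ => (), fun _ _ _ => le_rfl⟩⟩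

theorem FD.add {l l' : G → ℝ} (h : FD l) (h' : FD l') (hl : IsLen l) (hl' : IsLen l') :
    FD fun g => l g + l' g := by
  obtain ⟨γ, _, h⟩ := h
  obtain ⟨γ', _, h'⟩ := h'
  refine ⟨γ × γ', inferInstance, fun s => ?_⟩
  obtain ⟨M, κ, h⟩ := h s
  obtain ⟨M', κ', h'⟩ := h' s
  refine ⟨M + M', fun g => (κ g, κ' g), fun x y hc => add_le_add (h x y (rtg_map id hc ?_))
    (h' x y (rtg_map id hc ?_))⟩
  · rintro a b ⟨h1, h2⟩
    exact ⟨congrArg Prod.fst h1, (le_add_of_nonneg_right (hl'.nonneg _)).trans h2⟩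
  · rintro a b ⟨h1, h2⟩
    exact ⟨congrArg Prod.snd h1, (le_add_of_nonneg_left (hl.nonneg _)).trans h2⟩

theorem len_sum {ι : Type*} (s : Finset ι) (l : ι → G → ℝ)
    (h : ∀ i ∈ s, IsLen (l i) ∧ FD (l i)) :
    IsLen (fun g => ∑ i ∈ s, l i g) ∧ FD fun g => ∑ i ∈ s, l i g := by
  classical
  induction s using Finset.induction_on with
  | empty => simpa using ⟨IsLen.zero, FD.zero⟩
  | insert i s hi ih =>
    have h1 := ih fun j hj => h j (Finset.mem_insert_of_mem hj)
    have h2 := h i (Finset.mem_insert_self _ _)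
    simp only [Finset.sum_insert hi]
    exact ⟨h2.1.add h1.1, h2.2.add h1.2 h2.1 h1.1⟩

/-- A copy of a type. -/
structure Cp (G : Type u) : Type u where
  val : G

theorem exists_len_metric {l : G → ℝ} (h : IsLen l) :
    ∃ _ : PseudoMetricSpace (Cp G), ∀ a b : G, dist (Cp.mk a) (Cp.mk b) ≤ l (a⁻¹ * b) ∧
      l (a⁻¹ * b) ≤ dist (Cp.mk a) (Cp.mk b) + l 1 := by
  classical
  let d : PseudoMetricSpace (Cp G) :=
    { dist := fun a b => if a.val = b.val then 0 else l (a.val⁻¹ * b.val)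
      dist_self := fun a => by simp
      dist_comm := fun a b => by
        by_cases e : a.val = b.val
        · simp [e]
        · rw [if_neg e, if_neg (Ne.symm e), ← h.inv]; simp
      dist_triangle := fun a b c => by
        have h1 := h.nonneg (a.val⁻¹ * b.val)
        have h2 := h.nonneg (b.val⁻¹ * c.val)
        have h3 := h.mul (a.val⁻¹ * b.val) (b.val⁻¹ * c.val)
        rw [mul_assoc, mul_inv_cancel_left] at h3
        by_cases e1 : a.val = b.val
        · simp [e1]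
        · by_cases e2 : b.val = c.val
          · simp [e2]
          · rw [if_neg e1, if_neg e2]
            split_ifs <;> linarith }
  refine ⟨d, fun a b => ?_⟩
  change (if a = b then 0 else l (a⁻¹ * b)) ≤ _ ∧ _ ≤ (if a = b then 0 else l (a⁻¹ * b)) + _
  have h1 := h.nonneg 1
  split_ifs with e
  · subst e; simp [h1]
  · simp [h1]

theorem finDim_of_fd {l : G → ℝ} (h : FD l) [PseudoMetricSpace (Cp G)]
    (hd : ∀ a b : G, dist (Cp.mk a) (Cp.mk b) ≤ l (a⁻¹ * b) ∧
      l (a⁻¹ * b) ≤ dist (Cp.mk a) (Cp.mk b) + l 1) : FinDim (Cp G) := by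
  obtain ⟨γ, _, h⟩ := h
  refine ⟨Fintype.card γ, fun s => ?_⟩
  obtain ⟨M, κ, h⟩ := h (s + l 1)
  refine ⟨M, fun i => {z | ((Fintype.equivFin γ (κ z.val) : Fin _) : ℕ) = i}, fun i _ x y hc => ?_,
    fun z => ⟨_, (Fintype.equivFin γ (κ z.val)).2, rfl⟩⟩
  refine (hd x.val y.val).1.trans (h _ _ ?_)
  induction hc with
  | refl => exact Relation.ReflTransGen.refl
  | @tail a b _ hab ih =>
    refine ih.tail ⟨(Fintype.equivFin γ).injective (Fin.ext (hab.1.trans hab.2.1.symm)), ?_⟩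
    have h1 := (hd a.val b.val).2
    have h2 := hab.2.2
    change dist (Cp.mk a.val) (Cp.mk b.val) ≤ s at h2
    change l _ ≤ _
    linarith

theorem expans_cp [PseudoMetricSpace G] [IsIsometricSMul G G]
    (hG : ∀ r, (Metric.closedBall (1 : G) r).Finite) {l : G → ℝ} [PseudoMetricSpace (Cp G)]
    (hd : ∀ a b : G, dist (Cp.mk a) (Cp.mk b) ≤ l (a⁻¹ * b) ∧
      l (a⁻¹ * b) ≤ dist (Cp.mk a) (Cp.mk b) + l 1) : Expans (Cp.mk : G → Cp G) := by
  intro r
  obtain ⟨L, -, hL⟩ := exists_bound_of_finite (hG r) l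
  refine ⟨L, fun a b hab => (hd a b).1.trans (hL _ ?_)⟩
  rw [Metric.mem_closedBall', ← dist_eq_len]
  exact hab

theorem apc1_of_lens [PseudoMetricSpace G] [IsIsometricSMul G G]
    (hG : ∀ r, (Metric.closedBall (1 : G) r).Finite) {l : G → ℝ} (hl : IsLen l) (hf : FD l)
    (h : ∀ D : ℝ, ∃ l' : G → ℝ, IsLen l' ∧ FD l' ∧ ∀ t, {g | l g ≤ D ∧ l' g ≤ t}.Finite) :
    Apc1 ({Set.univ} : Set (Set G)) := by
  obtain ⟨d, hd⟩ := exists_len_metric hl
  have h1 : LC (Cp.mk : G → Cp G) := by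
    refine lc_of_finDim fun D0 => ?_
    obtain ⟨l', hl', hf', hfin⟩ := h (D0 + l 1)
    obtain ⟨d', hd'⟩ := exists_len_metric hl'
    refine ⟨Cp G, d', Cp.mk, @finDim_of_fd _ _ _ hf' d' hd', @expans_cp _ _ _ _ hG _ d' hd',
      fun t => ?_⟩
    obtain ⟨L, -, hL⟩ := exists_bound_of_finite (hfin (t + l' 1)) fun g => dist 1 g
    refine ⟨L, fun a b h1 h2 => ?_⟩
    rw [dist_eq_len]
    exact hL _ ⟨by linarith [(hd a b).2], by linarith [(hd' a b).2]⟩
  have := pull_of_lc (@expans_cp _ _ _ _ hG _ d hd) h1 _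
    (apc1_of_finDim (@finDim_of_fd _ _ _ hf d hd))
  simpa using this

end Pool.Agent.Apc
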