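import Pool.Agent.Lib.MP_4f4e79_gt.Rel

namespace Pool.Agent.Results.MP_4f4e79_gt.FiniteDimFibres

open Pool.Agent.Apc

universe u v w t

/-- Fibering without increase of level when the preimages of bounded families split, at every
scale and with a fixed number `c` of colours, into families of finite asymptotic dimension; the
dimension may depend on the bounded family and on the scale. -/
theorem result {X : Type u} {Y : Type v} {ι : Type w} [MetricSpace X] [MetricSpace Y]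
    (A : ι → Set X) (B : ι → Set Y) (f : ι → X → Y) (𝒴 : Set (Set Y)) (hB : ∀ i, B i ∈ 𝒴)
    (hf : ∀ i, Set.MapsTo (f i) (A i) (B i)) (ρ : ℝ → ℝ) (hρ : MonotoneOn ρ (Set.Ici 0))
    (hexp : ∀ i, ∀ x ∈ A i, ∀ y ∈ A i, dist (f i x) (f i y) ≤ ρ (dist x y))
    (α : Ordinal.{t}) (hα : 0 < α) (hY : Cls α 𝒴) (c : ℕ)
    (hfib : ∀ ℬ : Set (Set Y), BddFam ℬ → (∀ V ∈ ℬ, ∃ W ∈ 𝒴, V ⊆ W) → ∀ r : ℝ, 0 < r →
      ∃ 𝒱 : Set (Set X), FinAsdim 𝒱 ∧ Cov c r {S | ∃ i, ∃ V ∈ ℬ, S = A i ∩ f i ⁻¹' V} 𝒱) :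
    Cls α (Set.range A) :=
  Trap.fibering A B f 𝒴 hB hf ρ hρ hexp α hα hY (Trap.rel_cut hfib)

end Pool.Agent.Results.MP_4f4e79_gt.FiniteDimFibres
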