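import Pool.Agent.Lib.MP_4f4e79_gt.Tri

namespace Pool.Agent.Apc

universe u

variable {L : Type*} [Field L] {v : AbsoluteValue L ℝ} {m : ℕ}

theorem absv_mul_le {A B : Matrix (Fin m) (Fin m) L} {a b : ℝ} (ha0 : 0 ≤ a)
    (ha : ∀ i j, v (A i j) ≤ a) (hb : ∀ i j, v (B i j) ≤ b) (i j : Fin m) :
    v ((A * B) i j) ≤ m * (a * b) := by
  rw [Matrix.mul_apply]
  have := absv_sum_le (v := v) Finset.univ (fun l => A i l * B l j) (C := a * b) fun l _ => by
    rw [v.map_mul]; exact mul_le_mul (ha i l) (hb l j) (v.nonneg _) ha0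
  simpa using this

theorem Bd.mul {G : Type u} [Group G] {ρ : G →* Matrix (Fin m) (Fin m) L} {a b : ℝ} {g h : G}
    (ha0 : 0 ≤ a) (hb0 : 0 ≤ b) (ha : Bd v ρ a g) (hb : Bd v ρ b h) :
    Bd v ρ (m * (a * b)) (g * h) := fun i j => by
  rw [mul_inv_rev, map_mul, map_mul]
  refine ⟨absv_mul_le ha0 (fun i j => (ha i j).1) (fun i j => (hb i j).1) i j, ?_⟩
  rw [mul_comm a b]
  exact absv_mul_le hb0 (fun i j => (hb i j).2) (fun i j => (ha i j).2) i j

theorem gauss_row (A : Matrix (Fin m) (Fin m) L) (i0 : Fin m)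
    (hA : ∀ i j, j < i → i0 < i → A i j = 0) :
    ∃ k : (Matrix (Fin m) (Fin m) L)ˣ, Bd v (Units.coeHom _) (m * (1 * 1)) k ∧
      ∀ i j, j < i → i0 ≤ i → (A * k.val) i j = 0 := by
  classical
  obtain ⟨j0, hj0, hmax⟩ := Finset.exists_max_image (Finset.univ.filter fun j => j ≤ i0)
    (fun j => v (A i0 j)) ⟨i0, by simp⟩
  have hj0' : j0 ≤ i0 := by simpa using hj0
  let P : (Matrix (Fin m) (Fin m) L)ˣ := ⟨Matrix.swap L j0 i0, Matrix.swap L j0 i0,
    Matrix.swap_mul_self _ _, Matrix.swap_mul_self _ _⟩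
  have hP : ∀ (B : Matrix (Fin m) (Fin m) L) a b,
      (B * Matrix.swap L j0 i0) a b = B a (Equiv.swap j0 i0 b) := fun B a b => by
    simp [Matrix.swap, PEquiv.mul_toMatrix_toPEquiv]
  have hsw : ∀ b, b ≤ i0 → Equiv.swap j0 i0 b ≤ i0 := fun b hb => by
    rw [Equiv.swap_apply_def]; split_ifs <;> simp [*]
  have hsw2 : ∀ b, i0 < b → Equiv.swap j0 i0 b = b := fun b hb =>
    Equiv.swap_apply_of_ne_of_ne (ne_of_gt (hj0'.trans_lt hb)) (ne_of_gt hb)
  have hP1 : ∀ a b, v (Matrix.swap L j0 i0 a b) ≤ 1 := fun a b => by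
    have := hP 1 a b
    rw [one_mul] at this
    rw [this, Matrix.one_apply]
    split_ifs <;> simp
  let c : Fin m → L := fun j => if j < i0 then A i0 (Equiv.swap j0 i0 j) / A i0 j0 else 0
  have hc : ∀ j, v (c j) ≤ 1 := fun j => by
    simp only [c]
    split_ifs with h
    · rw [map_div₀]
      exact div_le_one_of_le₀ (hmax _ (by simpa using hsw j h.le)) (v.nonneg _)
    · simp
  have hc0 : c i0 = 0 := by simp [c]
  let E : Matrix (Fin m) (Fin m) L := Matrix.of fun a b => if a = i0 then c b else 0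
  have hE : ∀ (B : Matrix (Fin m) (Fin m) L) a b, (B * E) a b = B a i0 * c b := fun B a b => by
    simp [E, Matrix.mul_apply]
  have hEE : E * E = 0 := by
    ext a b
    rw [hE]
    simp [E, hc0]
  let Q : (Matrix (Fin m) (Fin m) L)ˣ := ⟨1 - E, 1 + E,
    by rw [sub_mul, mul_add, mul_add, hEE]; simp, by rw [add_mul, mul_sub, mul_sub, hEE]; simp⟩
  have hQ1 : ∀ (ε : L), v ε = 1 → ∀ a b, v ((1 : Matrix (Fin m) (Fin m) L) a b + ε * E a b) ≤ 1 := by
    intro ε hε a b
    rw [Matrix.one_apply]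
    by_cases hab : a = b
    · subst hab
      by_cases ha : a = i0
      · simp [E, ha, hc0]
      · simp [E, ha]
    · by_cases ha : a = i0
      · simpa [E, ha, hε, show i0 ≠ b from ha ▸ hab] using hc b
      · simp [E, ha, hab]
  refine ⟨P * Q, Bd.mul zero_le_one zero_le_one (fun a b => ⟨hP1 a b, hP1 a b⟩) fun a b => ⟨?_, ?_⟩,
    fun i j hji hi => ?_⟩
  · simpa [Q, sub_eq_add_neg] using hQ1 (-1) (by simp) a b
  · simpa [Q] using hQ1 1 (by simp) a b
  · change (A * (Matrix.swap L j0 i0 * (1 - E))) i j = 0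
    rw [← mul_assoc, mul_sub, mul_one, Matrix.sub_apply, hE, hP, hP, Equiv.swap_apply_right]
    rcases hi.eq_or_lt with rfl | hi'
    · simp only [c, hji, if_true]
      by_cases h0 : A i0 j0 = 0
      · have := hmax (Equiv.swap j0 i0 j) (by simpa using hsw j hji.le)
        rw [h0, map_zero] at this
        rw [h0, v.eq_zero.1 (le_antisymm this (v.nonneg _))]
        simp
      · field_simp
        ring
    · rw [hA i j0 (hj0'.trans_lt hi') hi', zero_mul, sub_zero]
      rcases le_or_gt j i0 with h | h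
      · exact hA _ _ ((hsw j h).trans_lt hi') hi'
      · rw [hsw2 j h]; exact hA _ _ hji hi'

theorem gauss (v : AbsoluteValue L ℝ) (m : ℕ) : ∃ C, 0 ≤ C ∧ ∀ A : Matrix (Fin m) (Fin m) L,
    ∃ k : (Matrix (Fin m) (Fin m) L)ˣ, Bd v (Units.coeHom _) C k ∧
      ∀ i j, j < i → (A * k.val) i j = 0 := by
  have key : ∀ t, t ≤ m → ∃ C, 0 ≤ C ∧ ∀ A : Matrix (Fin m) (Fin m) L,
      ∃ k : (Matrix (Fin m) (Fin m) L)ˣ, Bd v (Units.coeHom _) C k ∧
        ∀ i j : Fin m, j < i → m ≤ (i : ℕ) + t → (A * k.val) i j = 0 := by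
    intro t
    induction t with
    | zero =>
      refine fun _ => ⟨1, zero_le_one, fun A => ⟨1, fun i j => ?_, fun i j _ h => by omega⟩⟩
      simp only [inv_one, map_one, and_self, Matrix.one_apply]
      split_ifs <;> simp
    | succ t ih =>
      intro ht
      obtain ⟨C, hC, h⟩ := ih (by omega)
      refine ⟨m * (C * (m * (1 * 1))), by positivity, fun A => ?_⟩
      obtain ⟨k, hk1, hk2⟩ := h A
      obtain ⟨k', hk1', hk2'⟩ := gauss_row (v := v) (A * k.val) ⟨m - t - 1, by omega⟩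
        fun i j hji hi => hk2 i j hji (by have : m - t - 1 < i := hi; omega)
      refine ⟨k * k', hk1.mul hC (by positivity) hk1', fun i j hji hi => ?_⟩
      rw [Units.val_mul, ← mul_assoc]
      exact hk2' i j hji (show m - t - 1 ≤ i by omega)
  obtain ⟨C, hC, h⟩ := key m le_rfl
  refine ⟨C, hC, fun A => ?_⟩
  obtain ⟨k, hk1, hk2⟩ := h A
  exact ⟨k, hk1, fun i j hji => hk2 i j hji (by omega)⟩

/-- The invertible upper triangular matrices. -/
def borel (L : Type*) [Field L] (m : ℕ) : Subgroup (Matrix (Fin m) (Fin m) L)ˣ where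
  carrier := {u | u.val.BlockTriangular id}
  one_mem' := Matrix.blockTriangular_one
  mul_mem' := fun ha hb => Matrix.BlockTriangular.mul ha hb
  inv_mem' := fun {u} hu => by
    have := u.invertible
    have h := Matrix.blockTriangular_inv_of_blockTriangular (M := u.val) hu
    rwa [← Matrix.coe_units_inv] at h

theorem fdb_bd (hv : Col1 fun a b : L => v (b - a)) {G : Type u} [Group G]
    (ρ : G →* Matrix (Fin m) (Fin m) L) : FDb (Bd v ρ) (Bd v ρ) := by
  obtain ⟨γ, _, h⟩ := fdb_tri hv (ρ := (Units.coeHom _).comp (borel L m).subtype)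
    fun g i j hij => g.2 hij
  obtain ⟨C0, hC0, hg⟩ := gauss v m
  choose k hk1 hk2 using hg
  let b : G → borel L m := fun g => ⟨ρ.toHomUnits g * k (ρ g), fun i j hij => hk2 (ρ g) i j hij⟩
  refine ⟨γ, inferInstance, fun C => ?_⟩
  obtain ⟨M, κ, h⟩ := h (m * (m * (C0 * max C 0) * C0))
  refine ⟨m * (m * (C0 * max M 0) * C0), fun g => κ (b g), fun x y hc => ?_⟩
  have h1 := h _ _ (rtg_map b hc fun x y hxy => ⟨hxy.1, by
    have h2 : Bd v (Units.coeHom _) (max C 0) (ρ.toHomUnits (x⁻¹ * y)) := fun i j =>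
      ⟨(hxy.2 i j).1.trans (le_max_left _ _), (hxy.2 i j).2.trans (le_max_left _ _)⟩
    have h3 := ((hk1 (ρ x)).inv.mul hC0 (le_max_right _ _) h2).mul (by positivity) hC0 (hk1 (ρ y))
    have e : (k (ρ x))⁻¹ * ρ.toHomUnits (x⁻¹ * y) * k (ρ y) = ((b x)⁻¹ * b y : borel L m) := by
      simp only [b, map_mul, map_inv, Subgroup.coe_mul, Subgroup.coe_inv]
      group
    rw [e] at h3
    exact h3⟩)
  have h2 : Bd v (Units.coeHom _) (max M 0) (((b x)⁻¹ * b y : borel L m) :
      (Matrix (Fin m) (Fin m) L)ˣ) := fun i j =>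
    ⟨(h1 i j).1.trans (le_max_left _ _), (h1 i j).2.trans (le_max_left _ _)⟩
  have h3 := ((hk1 (ρ x)).mul hC0 (le_max_right _ _) h2).mul (by positivity) hC0 (hk1 (ρ y)).inv
  have e : k (ρ x) * (((b x)⁻¹ * b y : borel L m) : (Matrix (Fin m) (Fin m) L)ˣ) * (k (ρ y))⁻¹ =
      ρ.toHomUnits (x⁻¹ * y) := by
    simp only [b, map_mul, map_inv, Subgroup.coe_mul, Subgroup.coe_inv]
    group
  rw [e] at h3
  exact h3

/-- The sum of the absolute values of the entries. -/
def nsum (v : AbsoluteValue L ℝ) (A : Matrix (Fin m) (Fin m) L) : ℝ := ∑ i, ∑ j, v (A i j)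

theorem nsum_nonneg (A : Matrix (Fin m) (Fin m) L) : 0 ≤ nsum v A :=
  Finset.sum_nonneg fun _ _ => Finset.sum_nonneg fun _ _ => v.nonneg _

theorem le_nsum (A : Matrix (Fin m) (Fin m) L) (i j : Fin m) : v (A i j) ≤ nsum v A :=
  (Finset.single_le_sum (f := fun j => v (A i j)) (fun _ _ => v.nonneg _)
    (Finset.mem_univ j)).trans (Finset.single_le_sum (f := fun i => ∑ j, v (A i j))
    (fun _ _ => Finset.sum_nonneg fun _ _ => v.nonneg _) (Finset.mem_univ i))

theorem nsum_mul (A B : Matrix (Fin m) (Fin m) L) : nsum v (A * B) ≤ nsum v A * nsum v B := by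
  unfold nsum
  rw [Finset.sum_mul]
  refine Finset.sum_le_sum fun i _ => ?_
  calc ∑ j, v ((A * B) i j) ≤ ∑ j, ∑ l, v (A i l) * v (B l j) := by
        refine Finset.sum_le_sum fun j _ => ?_
        rw [Matrix.mul_apply]
        simpa using v.sum_le Finset.univ fun l => A i l * B l j
    _ = ∑ l, v (A i l) * ∑ j, v (B l j) := by
        rw [Finset.sum_comm]; simp [Finset.mul_sum]
    _ ≤ _ := by
        rw [Finset.sum_mul]
        refine Finset.sum_le_sum fun l _ => mul_le_mul_of_nonneg_left ?_ (v.nonneg _)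
        exact Finset.single_le_sum (f := fun i => ∑ j, v (B i j))
          (fun _ _ => Finset.sum_nonneg fun _ _ => v.nonneg _) (Finset.mem_univ l)

variable {G : Type u} [Group G]

/-- The length function of a representation. -/
noncomputable def mlen (v : AbsoluteValue L ℝ) (ρ : G →* Matrix (Fin m) (Fin m) L) (g : G) : ℝ :=
  Real.log (1 + nsum v (ρ g) + nsum v (ρ g⁻¹))

theorem isLen_mlen (ρ : G →* Matrix (Fin m) (Fin m) L) : IsLen (mlen v ρ) := by
  refine ⟨fun g => Real.log_nonneg ?_, fun g => ?_, fun g h => ?_⟩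
  · linarith [nsum_nonneg (v := v) (ρ g), nsum_nonneg (v := v) (ρ g⁻¹)]
  · unfold mlen; rw [inv_inv]; congr 1; ring
  · unfold mlen
    have h1 := nsum_nonneg (v := v) (ρ g)
    have h2 := nsum_nonneg (v := v) (ρ g⁻¹)
    have h3 := nsum_nonneg (v := v) (ρ h)
    have h4 := nsum_nonneg (v := v) (ρ h⁻¹)
    have h5 := nsum_mul (v := v) (ρ g) (ρ h)
    have h6 := nsum_mul (v := v) (ρ h⁻¹) (ρ g⁻¹)
    have h7 := nsum_nonneg (v := v) (ρ g * ρ h)
    have h8 := nsum_nonneg (v := v) (ρ h⁻¹ * ρ g⁻¹)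
    rw [← Real.log_mul (by positivity) (by positivity), mul_inv_rev, map_mul, map_mul]
    exact Real.log_le_log (by positivity) (by nlinarith)

theorem bd_of_mlen {ρ : G →* Matrix (Fin m) (Fin m) L} {s : ℝ} {g : G} (h : mlen v ρ g ≤ s) :
    Bd v ρ (Real.exp s) g := by
  have h1 := nsum_nonneg (v := v) (ρ g)
  have h2 := nsum_nonneg (v := v) (ρ g⁻¹)
  have h3 := (Real.log_le_iff_le_exp (by positivity)).1 h
  exact fun i j => ⟨by linarith [le_nsum (v := v) (ρ g) i j],
    by linarith [le_nsum (v := v) (ρ g⁻¹) i j]⟩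

theorem fd_mlen (hv : Col1 fun a b : L => v (b - a)) (ρ : G →* Matrix (Fin m) (Fin m) L) :
    FD (mlen v ρ) := by
  obtain ⟨γ, _, h⟩ := fdb_bd hv ρ
  refine ⟨γ, inferInstance, fun s => ?_⟩
  obtain ⟨M, κ, h⟩ := h (Real.exp s)
  refine ⟨Real.log (1 + m * (m * M) + m * (m * M)), κ, fun x y hc => ?_⟩
  have h1 := h x y (rtg_map id hc fun a b hab => ⟨hab.1, bd_of_mlen hab.2⟩)
  have key : ∀ A : Matrix (Fin m) (Fin m) L, (∀ i j, v (A i j) ≤ M) → nsum v A ≤ m * (m * M) := by
    intro A hA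
    have := Finset.sum_le_card_nsmul Finset.univ (fun i => ∑ j, v (A i j)) (m * M) fun i _ => by
      simpa using Finset.sum_le_card_nsmul Finset.univ (fun j => v (A i j)) M fun j _ => hA i j
    simpa [nsum] using this
  have h2 := nsum_nonneg (v := v) (ρ (x⁻¹ * y))
  have h3 := nsum_nonneg (v := v) (ρ (x⁻¹ * y)⁻¹)
  exact Real.log_le_log (by positivity) (add_le_add (add_le_add le_rfl
    (key _ fun i j => (h1 i j).1)) (key _ fun i j => (h1 i j).2))

end Pool.Agent.Apc
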