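import Pool.Agent.Lib.MP_4f4e79_gt.Ch

/-!
Gluing local collapses: the union lemma and the interpolation lemma.
-/

namespace Pool.Agent.Apc.Trap

open FreeAbelianGroup

variable {X : Type*} [PseudoMetricSpace X]

/-- All points of `l` are within `μ` of a point of `τ`. -/
def Cl (μ : ℝ) (τ l : List X) : Prop := ∀ p ∈ l, ∃ x ∈ τ, dist p x ≤ μ

theorem Cl.trans {μ ν : ℝ} {τ l l' : List X} (h : Cl μ τ l) (h' : Cl ν l l') :
    Cl (μ + ν) τ l' := by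
  intro p hp
  obtain ⟨x, hx, hd⟩ := h' p hp
  obtain ⟨y, hy, hd'⟩ := h x hx
  exact ⟨y, hy, by linarith [dist_triangle p x y]⟩

theorem Cl.of_sub {μ : ℝ} (hμ : 0 ≤ μ) {τ l : List X} (h : ∀ p ∈ l, p ∈ τ) : Cl μ τ l :=
  fun p hp => ⟨p, h p hp, by simpa using hμ⟩

theorem Cl.sub {μ : ℝ} {τ l l' : List X} (h : Cl μ τ l) (h' : ∀ p ∈ l', p ∈ l) : Cl μ τ l' :=
  fun p hp => h p (h' p hp)

theorem Cl.sup {μ : ℝ} {τ τ' l : List X} (h : Cl μ τ l) (h' : ∀ p ∈ τ, p ∈ τ') : Cl μ τ' l :=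
  fun p hp => by
    obtain ⟨x, hx, hd⟩ := h p hp
    exact ⟨x, h' x hx, hd⟩

theorem Cl.pair {μ r : ℝ} {σ l : List X} (h : Cl μ σ l) (hσ : ∀ x ∈ σ, ∀ y ∈ σ, dist x y ≤ r) :
    ∀ p ∈ l, ∀ p' ∈ l, dist p p' ≤ r + 2 * μ := by
  intro p hp p' hp'
  obtain ⟨x, hx, hd⟩ := h p hp
  obtain ⟨y, hy, hd'⟩ := h p' hp'
  have h1 := dist_triangle4 p x y p'
  rw [dist_comm y p'] at h1
  linarith [hσ x hx y hy]

/-- The chain `σ - C (bd σ)` is local and lies in `A`. -/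
theorem bd_defect {q K : ℕ} {μ : ℝ} (hμ : 0 ≤ μ) {A : Set X} {C : Ch X →+ Ch X}
    (hC : ∀ τ, Bd (fun l => Nr μ (q + 1) τ l ∧ ∀ p ∈ l, p ∈ A) K (C (of τ))) {σ : List X}
    (h1 : σ.length = q + 1) (h2 : ∀ x ∈ σ, x ∈ A) :
    Bd (fun l => l.length = q + 1 ∧ Cl μ σ l ∧ ∀ p ∈ l, p ∈ A) (1 + (q + 1) * K)
      (of σ - C (bd (of σ))) := by
  refine Bd.sub (Bd.single ⟨h1, Cl.of_sub hμ fun _ h => h, h2⟩) ?_
  rw [← h1]
  refine (bd_face σ).map C fun τ hτ => (hC τ).imp fun l hl => ⟨h1 ▸ hl.1.1, ?_, hl.2⟩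
  exact Cl.sup hl.1.2 hτ.2

/-- The chain `l - bd (C l)` is local. -/
theorem bd_gam {q K : ℕ} {μ : ℝ} (hμ : 0 ≤ μ) {C : Ch X →+ Ch X} {P : List X → List X → Prop}
    (hC : ∀ τ, Bd (fun l => Nr μ (q + 1) τ l ∧ P τ l) K (C (of τ))) (τ : List X) :
    Bd (fun l => (τ.length = q → l.length = q) ∧ Cl μ τ l) (1 + K * (q + 1))
      (of τ - bd (C (of τ))) := by
  refine Bd.sub (Bd.single ⟨fun h => h, Cl.of_sub hμ fun _ h => h⟩) ?_
  refine (hC τ).map bd fun l hl => ?_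
  rw [← hl.1.1]
  refine (bd_face l).imp fun l' hl' => ⟨fun _ => ?_, Cl.sub hl.1.2 hl'.2⟩
  have := hl'.1
  have := hl.1.1
  omega

theorem Coll.union {q K1 K2 : ℕ} {r r2 μ1 μ2 a δ : ℝ} {A : Set X} {b : X → ℝ} (hb : Lip b)
    (h1 : Coll q K1 r μ1 {x | x ∈ A ∧ b x ≤ a}) (h2 : Coll q K2 r2 μ2 {x | x ∈ A ∧ a - δ ≤ b x})
    (hμ1 : 0 ≤ μ1) (hμ2 : 0 ≤ μ2) (hr2 : r + 4 * μ1 ≤ r2) (hδ : r + 2 * μ1 ≤ δ) :
    Coll q (K1 + (1 + K1 * (q + 1)) * K2) r (2 * μ1 + μ2) A := by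
  obtain ⟨C1, h11, h12⟩ := h1.retract
  obtain ⟨C2, h21, h22⟩ := h2
  refine ⟨C1 + C2.comp (AddMonoidHom.id _ - bd.comp C1), fun τ => ?_, fun σ hσ => ?_⟩
  · simp only [AddMonoidHom.add_apply, AddMonoidHom.comp_apply, AddMonoidHom.sub_apply,
      AddMonoidHom.id_apply]
    refine Bd.add ((h11 τ).imp fun l hl => ⟨hl.1.1, fun p hp => ?_⟩) ?_
    · obtain ⟨x, hx, hd⟩ := hl.1.2 p hp
      exact ⟨x, hx, by linarith⟩
    · refine (bd_gam (P := fun _ l => ∀ p ∈ l, p ∈ {x | x ∈ A ∧ b x ≤ a}) (by linarith) h11 τ).map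
        C2 fun l hl => (h21 l).imp fun l' hl' => ⟨hl'.1, Cl.trans hl.2 hl'.2⟩
  · simp only [AddMonoidHom.add_apply, AddMonoidHom.comp_apply, AddMonoidHom.sub_apply,
      AddMonoidHom.id_apply, map_add]
    by_cases hs : ∀ x ∈ σ, b x ≤ a
    · rw [h12 σ ⟨hσ.1, fun x hx => ⟨hσ.2.1 x hx, hs x hx⟩, hσ.2.2⟩]
      simp
    · push Not at hs
      obtain ⟨x0, hx0, hs⟩ := hs
      have h3 := bd_defect (A := A) (μ := 2 * μ1) (by linarith)
        (fun τ => (h11 τ).imp fun l hl => ⟨hl.1, fun p hp => (hl.2 p hp).1⟩) hσ.1 hσ.2.1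
      have h4 := h3.congr (bd.comp (C2.comp bd)) bd fun l hl => by
        refine h22 l ⟨hl.1, fun p hp => ⟨hl.2.2 p hp, ?_⟩, fun p hp p' hp' => ?_⟩
        · obtain ⟨x, hx, hd⟩ := hl.2.1 p hp
          have h5 := hb x0 x
          have h6 := hb x p
          rw [dist_comm] at h6
          linarith [hσ.2.2 x0 hx0 x hx]
        · linarith [hl.2.1.pair hσ.2.2 p hp p' hp']
      simp only [AddMonoidHom.comp_apply, map_sub] at h4 ⊢
      rw [h4]
      abel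

theorem Coll.interp {q Ka Kb Kg : ℕ} {r rg μ μg m δ : ℝ} {A : Set X} {h : X → ℝ} (hh : Lip h)
    (ha : Coll q Ka r μ {x | x ∈ A ∧ m - δ ≤ h x}) (hb : Coll q Kb r μ {x | x ∈ A ∧ h x ≤ m + δ})
    (hg : Coll (q + 1) Kg rg μg A) (hμ : 0 ≤ μ) (hμg : 0 ≤ μg) (hrg : r + 4 * μ ≤ rg)
    (hδ : r + 2 * μ + μg ≤ δ) :
    Coll q ((Ka + Kb) * (1 + Kg * (q + 2))) r (2 * μ + μg) A := by
  classical
  obtain ⟨Ca, ha1, ha2⟩ := ha.retract
  obtain ⟨Cb, hb1, hb2⟩ := hb.retract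
  obtain ⟨Cg, hg1, hg2⟩ := hg
  let γ : Ch X →+ Ch X := AddMonoidHom.id _ - bd.comp Cg
  have hγ : ∀ z, γ z = z - bd (Cg z) := fun z => rfl
  let π : Ch X →+ Ch X := FreeAbelianGroup.lift fun l => if ∀ p ∈ l, h p ≤ m then of l else 0
  let π' : Ch X →+ Ch X := FreeAbelianGroup.lift fun l => if ∀ p ∈ l, h p ≤ m then 0 else of l
  have hπ : ∀ z, π' z + π z = z := by
    intro z
    have : π' + π = AddMonoidHom.id _ := by
      refine FreeAbelianGroup.lift_ext _ _ fun l => ?_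
      simp only [π, π', AddMonoidHom.add_apply, FreeAbelianGroup.lift_apply_of,
        AddMonoidHom.id_apply]
      split_ifs <;> simp
    exact DFunLike.congr_fun this z
  have hπ1 : ∀ {P : List X → Prop} {n z}, Bd P n z → Bd P n (π z) := by
    intro P n z hz
    refine (hz.map π (k := 1) fun l hl => ?_).le (by omega)
    simp only [π, FreeAbelianGroup.lift_apply_of]
    split_ifs
    · exact Bd.single hl
    · exact Bd.zero _
  have hπ2 : ∀ {P : List X → Prop} {n z}, Bd P n z → Bd P n (π' z) := by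
    intro P n z hz
    refine (hz.map π' (k := 1) fun l hl => ?_).le (by omega)
    simp only [π', FreeAbelianGroup.lift_apply_of]
    split_ifs
    · exact Bd.zero _
    · exact Bd.single hl
  have hγ1 : ∀ {n z} {ν : ℝ} {τ : List X}, Bd (fun l => l.length = q + 1 ∧ Cl ν τ l) n z →
      Bd (Nr (ν + μg) (q + 1) τ) (n * (1 + Kg * (q + 2))) (γ z) := by
    intro n z ν τ hz
    refine hz.map γ fun l hl => ?_
    rw [hγ]
    exact (bd_gam (P := fun _ _ => True) hμg (fun τ => (hg1 τ).imp fun l hl => ⟨hl, trivial⟩) l).imp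
      fun l' hl' => ⟨hl'.1 hl.1, Cl.trans hl.2 hl'.2⟩
  -- where a collapse is valid, `γ` does not see it
  have key : ∀ (K : ℕ) (C : Ch X →+ Ch X) (σ : List X), Sm r A (q + 1) σ →
      (∀ τ, Bd (fun l => Nr (2 * μ) (q + 1) τ l ∧ ∀ p ∈ l, p ∈ A) K (C (of τ))) →
      bd (C (bd (of σ))) = bd (of σ) → γ (C (bd (of σ))) = γ (of σ) := by
    intro K C σ hσ hC he
    obtain ⟨x, l, hxl⟩ := List.exists_cons_of_length_eq_add_one hσ.1
    have hx : x ∈ σ := hxl ▸ List.mem_cons_self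
    have h3 := bd_defect (by linarith) hC hσ.1 hσ.2.1
    have h4 := h3.kill (γ.comp (bd.comp (cons x))) fun l hl => by
      simp only [AddMonoidHom.comp_apply, cons_of]
      rw [hγ, hg2 (x :: l) ⟨by simp [hl.1], ?_, ?_⟩, sub_self]
      · intro p hp
        rcases List.mem_cons.1 hp with rfl | hp
        · exact hσ.2.1 _ hx
        · exact hl.2.2 p hp
      · have h5 : Cl (2 * μ) σ (x :: l) := by
          intro p hp
          rcases List.mem_cons.1 hp with rfl | hp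
          · exact ⟨p, hx, by simpa using hμ⟩
          · exact hl.2.1 p hp
        intro p hp p' hp'
        linarith [h5.pair hσ.2.2 p hp p' hp']
    simp only [AddMonoidHom.comp_apply] at h4
    rw [bd_cons, map_sub bd, he, sub_self, map_zero, sub_zero, map_sub, sub_eq_zero] at h4
    exact h4.symm
  have hA1 : ∀ τ, Bd (fun l => Nr (2 * μ) (q + 1) τ l ∧ ∀ p ∈ l, p ∈ A) Ka (Ca (of τ)) :=
    fun τ => (ha1 τ).imp fun l hl => ⟨hl.1, fun p hp => (hl.2 p hp).1⟩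
  have hB1 : ∀ τ, Bd (fun l => Nr (2 * μ) (q + 1) τ l ∧ ∀ p ∈ l, p ∈ A) Kb (Cb (of τ)) :=
    fun τ => (hb1 τ).imp fun l hl => ⟨hl.1, fun p hp => (hl.2 p hp).1⟩
  refine ⟨π'.comp (γ.comp Ca) + π.comp (γ.comp Cb), fun τ => ?_, fun σ hσ => ?_⟩
  · simp only [AddMonoidHom.add_apply, AddMonoidHom.comp_apply]
    rw [add_mul]
    exact (hπ2 (hγ1 ((hA1 τ).imp fun l hl => hl.1))).add (hπ1 (hγ1 ((hB1 τ).imp fun l hl => hl.1)))
  · simp only [AddMonoidHom.add_apply, AddMonoidHom.comp_apply]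
    have hloc : ∀ (K : ℕ) (C : Ch X →+ Ch X),
        (∀ τ, Bd (fun l => Nr (2 * μ) (q + 1) τ l ∧ ∀ p ∈ l, p ∈ A) K (C (of τ))) →
        ∃ n, Bd (Nr (2 * μ + μg) (q + 1) σ) n (γ (of σ - C (bd (of σ)))) := fun K C hC =>
      ⟨_, hγ1 ((bd_defect (by linarith) hC hσ.1 hσ.2.1).imp fun l hl => ⟨hl.1, hl.2.1⟩)⟩
    have e1 : π' (γ (Ca (bd (of σ)))) = π' (γ (of σ)) := by
      by_cases hs : ∀ x ∈ σ, m - δ ≤ h x
      · rw [key Ka Ca σ hσ hA1 (ha2 σ ⟨hσ.1, fun x hx => ⟨hσ.2.1 x hx, hs x hx⟩, hσ.2.2⟩)]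
      · push Not at hs
        obtain ⟨x0, hx0, hs⟩ := hs
        obtain ⟨n, hn⟩ := hloc Ka Ca hA1
        have := hn.kill π' fun l hl => by
          simp only [π', FreeAbelianGroup.lift_apply_of]
          refine if_pos fun p hp => ?_
          obtain ⟨x, hx, hd⟩ := hl.2 p hp
          linarith [hh p x, hh x x0, hσ.2.2 x hx x0 hx0]
        rw [map_sub, map_sub, sub_eq_zero] at this
        exact this.symm
    have e2 : π (γ (Cb (bd (of σ)))) = π (γ (of σ)) := by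
      by_cases hs : ∀ x ∈ σ, h x ≤ m + δ
      · rw [key Kb Cb σ hσ hB1 (hb2 σ ⟨hσ.1, fun x hx => ⟨hσ.2.1 x hx, hs x hx⟩, hσ.2.2⟩)]
      · push Not at hs
        obtain ⟨x0, hx0, hs⟩ := hs
        obtain ⟨n, hn⟩ := hloc Kb Cb hB1
        have := hn.kill π fun l hl => by
          simp only [π, FreeAbelianGroup.lift_apply_of]
          refine if_neg fun hp => ?_
          obtain ⟨p, l', rfl⟩ := List.exists_cons_of_length_eq_add_one hl.1
          obtain ⟨x, hx, hd⟩ := hl.2 p List.mem_cons_self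
          have h5 := hh x p
          rw [dist_comm] at h5
          linarith [hp p List.mem_cons_self, hh x0 x, hσ.2.2 x0 hx0 x hx]
        rw [map_sub, map_sub, sub_eq_zero] at this
        exact this.symm
    rw [e1, e2, hπ, hγ, map_sub, bd_bd, sub_zero]

end Pool.Agent.Apc.Trap
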