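import Pool.Agent.Lib.MP_4f4e79_gt.Ch

namespace Pool.Agent.Apc.Trap

open FreeAbelianGroup

variable {X : Type*} [PseudoMetricSpace X]

theorem li_three (j : ℕ) : ∑ i ∈ Finset.range j, (3 : ℝ) ^ (i + 1) + j + 1 < 3 ^ (j + 1) := by
  induction j with
  | zero => norm_num
  | succ j ih =>
    rw [Finset.sum_range_succ, pow_succ (3 : ℝ) (j + 1)]
    have : (1 : ℝ) ≤ 3 ^ (j + 1) := one_le_pow₀ (by norm_num)
    push_cast
    linarith

theorem li_two (J : ℕ) : ∑ i ∈ Finset.range J, (1 / 2 : ℝ) ^ (i + 1) ≤ 1 := by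
  have : ∑ i ∈ Finset.range J, (1 / 2 : ℝ) ^ (i + 1) = 1 - (1 / 2) ^ J := by
    induction J with
    | zero => simp
    | succ J ih => rw [Finset.sum_range_succ, ih]; ring
  rw [this]
  exact sub_le_self _ (by positivity)

theorem li_seq (Mf : ℝ → ℝ) : ∃ E eps cap : ℕ → ℝ, Monotone E ∧ (∀ i, 1 ≤ E i) ∧
    (∀ i, 0 < eps i) ∧ (∀ i, eps i * E i = (1 / 2) ^ (i + 1)) ∧
    (∀ i, eps i * cap i = 3 ^ (i + 1)) ∧ ∀ i, E (i + 1) = E i + |Mf (3 * cap i)| + |3 * cap i| := by
  let E : ℕ → ℝ := fun i => Nat.rec 1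
    (fun i e => e + |Mf (3 * (6 ^ (i + 1) * e))| + |3 * (6 ^ (i + 1) * e)|) i
  have hE : ∀ i, E (i + 1) = E i + |Mf (3 * (6 ^ (i + 1) * E i))| + |3 * (6 ^ (i + 1) * E i)| :=
    fun _ => rfl
  have hm : Monotone E := monotone_nat_of_le_succ fun i => by
    rw [hE, add_assoc]
    exact le_add_of_nonneg_right (by positivity)
  have h1 : ∀ i, 1 ≤ E i := fun i => hm (Nat.zero_le i)
  have h0 : ∀ i, 0 < E i := fun i => one_pos.trans_le (h1 i)
  refine ⟨E, fun i => (1 / 2) ^ (i + 1) / E i, fun i => 6 ^ (i + 1) * E i, hm, h1,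
    fun i => div_pos (by positivity) (h0 i), fun i => div_mul_cancel₀ _ (h0 i).ne', fun i => ?_, hE⟩
  beta_reduce
  rw [mul_comm (6 ^ (i + 1)), ← mul_assoc, div_mul_cancel₀ _ (h0 i).ne', ← mul_pow]
  norm_num

theorem li_lip (U : Set X) (c : ℝ) (x y : X) :
    min (Metric.infDist x U) c - min (Metric.infDist y U) c ≤ dist x y := by
  have h := Metric.infDist_le_infDist_add_dist (x := x) (y := y) (s := U)
  have h0 : 0 ≤ dist x y := dist_nonneg
  rcases le_total (Metric.infDist y U) c with e | e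
  · rw [min_eq_left e]
    linarith [min_le_left (Metric.infDist x U) c]
  · rw [min_eq_right e]
    linarith [min_le_right (Metric.infDist x U) c]

theorem exists_light (n : ℕ) (Mf : ℝ → ℝ) : ∃ D : ℝ → ℝ → ℝ, ∀ (rm : ℝ) (H : Set X),
    (∀ ρ, Col n ρ (Mf ρ) H) →
      ∃ f : ℕ → X → ℝ, (∀ k, Lip (f k)) ∧ Light D rm f (Finset.range n) H := by
  obtain ⟨E, eps, cap, hm, h1, he, heE, hec, hE⟩ := li_seq Mf
  have he1 : ∀ i, eps i ≤ (1 / 2) ^ (i + 1) := fun i => by
    rw [← heE]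
    exact le_mul_of_one_le_right (he i).le (h1 i)
  have hc : ∀ i, 3 ^ (i + 1) ≤ cap i := fun i => by
    have a1 : eps i ≤ 1 := (he1 i).trans (pow_le_one₀ (by norm_num) (by norm_num))
    have a2 : 0 < cap i := (mul_pos_iff_of_pos_left (he i)).1 (by rw [hec]; positivity)
    rw [← hec]
    exact mul_le_of_le_one_left a2.le a1
  have hc0 : ∀ i, 0 < cap i := fun i => lt_of_lt_of_le (by positivity) (hc i)
  have hcj : ∀ j : ℕ, (j : ℝ) ≤ cap j := fun j => by
    have a1 := li_three j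
    have a2 : 0 ≤ ∑ i ∈ Finset.range j, (3 : ℝ) ^ (i + 1) := by positivity
    linarith [hc j]
  refine ⟨fun r s => E (⌈max r s⌉₊ + 1), fun rm H hH => ?_⟩
  choose κ k1 k2 using fun i => hH (3 * cap i)
  let t : ℕ → ℕ → X → ℝ := fun i k x => min (Metric.infDist x {x | x ∈ H ∧ κ i x = k}) (cap i)
  have t0 : ∀ i k x, 0 ≤ t i k x := fun i k x => le_min Metric.infDist_nonneg (hc0 i).le
  have t1 : ∀ i k x, t i k x ≤ cap i := fun i k x => min_le_right _ _
  have t2 : ∀ i k x y, t i k x - t i k y ≤ dist x y := fun i k x y => li_lip _ _ x y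
  refine ⟨fun k x => ∑ i ∈ Finset.range (⌈rm⌉₊ + 1), eps i * t i k x, fun k x y => ?_,
    fun r s hr hs P hP hf x0 x hch => ?_⟩
  · rw [← Finset.sum_sub_distrib]
    calc _ ≤ ∑ i ∈ Finset.range (⌈rm⌉₊ + 1), (1 / 2 : ℝ) ^ (i + 1) * dist x y :=
          Finset.sum_le_sum fun i _ => by
            rw [← mul_sub]
            exact (mul_le_mul_of_nonneg_left (t2 i k x y) (he i).le).trans
              (mul_le_mul_of_nonneg_right (he1 i) dist_nonneg)
      _ ≤ _ := by
        rw [← Finset.sum_mul]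
        exact mul_le_of_le_one_left dist_nonneg (li_two _)
  show dist x0 x ≤ E (⌈max r s⌉₊ + 1)
  have hj : ⌈max r s⌉₊ < ⌈rm⌉₊ + 1 := Nat.lt_succ_of_le (Nat.ceil_mono (max_le hr hs))
  have hr' : r ≤ ⌈max r s⌉₊ := (le_max_left r s).trans (Nat.le_ceil _)
  have hs' : s ≤ ⌈max r s⌉₊ := (le_max_right r s).trans (Nat.le_ceil _)
  generalize ⌈max r s⌉₊ = j at *
  generalize ⌈rm⌉₊ + 1 = J at *
  rcases hch.eq_or_mem with rfl | h0
  · simpa using zero_le_one.trans (h1 _)
  have hx0 : x0 ∈ {x | x ∈ H ∧ κ j x = κ j x0} := ⟨hP h0, rfl⟩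
  have hEj : |Mf (3 * cap j)| + 3 * cap j ≤ E (j + 1) := by
    rw [hE, abs_of_pos (a := 3 * cap j) (by linarith [hc0 j])]
    linarith [h1 j]
  have near : ∀ w ∈ P, dist x0 w ≤ E (j + 1) →
      ∃ a ∈ {x | x ∈ H ∧ κ j x = κ j x0}, dist w a < cap j := by
    intro w hw hd
    have a1 := (abs_le.1 (hf w hw x0 h0 _ (Finset.mem_range.2 (k1 j x0 (hP h0))))).2
    have a2 : ∀ i ∈ Finset.range J, (if i = j then eps j * t j (κ j x0) w else 0) -
        (if i < j then (3 : ℝ) ^ (i + 1) else 0) - (1 / 2) ^ (i + 1) ≤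
        eps i * t i (κ j x0) w - eps i * t i (κ j x0) x0 := fun i _ => by
      have b0 : (0 : ℝ) ≤ (1 / 2) ^ (i + 1) := by positivity
      rcases lt_trichotomy i j with e | e | e
      · rw [if_neg e.ne, if_pos e, ← hec]
        linarith [mul_nonneg (he i).le (t0 i (κ j x0) w),
          mul_le_mul_of_nonneg_left (t1 i (κ j x0) x0) (he i).le]
      · subst e
        have b1 : t i (κ i x0) x0 = 0 := by
          simp only [t, Metric.infDist_zero_of_mem hx0, min_eq_left (hc0 i).le]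
        rw [if_pos rfl, if_neg (lt_irrefl i), b1]
        linarith
      · rw [if_neg e.ne', if_neg e.not_gt, ← heE]
        have b1 := mul_le_mul_of_nonneg_left
          ((t2 i (κ j x0) x0 w).trans (hd.trans (hm (Nat.succ_le_of_lt e)))) (he i).le
        linarith
    have a3 := Finset.sum_le_sum a2
    rw [Finset.sum_sub_distrib, Finset.sum_sub_distrib, Finset.sum_sub_distrib, Finset.sum_ite_eq',
      if_pos (Finset.mem_range.2 hj), ← Finset.sum_filter,
      show (Finset.range J).filter (fun i => i < j) = Finset.range j by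
        ext i; simp only [Finset.mem_filter, Finset.mem_range]; omega] at a3
    have a4 : eps j * t j (κ j x0) w < eps j * cap j := by
      rw [hec]
      linarith [li_three j, li_two J]
    have a5 := lt_of_mul_lt_mul_left a4 (he j).le
    exact (Metric.infDist_lt_iff ⟨_, hx0⟩).1 ((min_lt_iff.1 a5).resolve_right (lt_irrefl _))
  have key : ∃ a ∈ {x | x ∈ H ∧ κ j x = κ j x0}, dist x a < cap j ∧
      Chain (3 * cap j) {x | x ∈ H ∧ κ j x = κ j x0} x0 a := by
    induction hch with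
    | refl => exact ⟨x0, hx0, by simpa using hc0 j, Chain.refl _⟩
    | @tail w w' _ hab ih =>
      obtain ⟨a, ha, b1, b2⟩ := ih
      have b3 := k2 j _ _ _ b2
      have b4 := dist_triangle4 x0 a w w'
      rw [dist_comm a w] at b4
      obtain ⟨a', ha', b5⟩ := near w' hab.2.1 (by
        linarith [le_abs_self (Mf (3 * cap j)), hab.2.2, hcj j, hc0 j])
      refine ⟨a', ha', b5, b2.tail ha ha' ?_⟩
      have b6 := dist_triangle4 a w w' a'
      rw [dist_comm a w] at b6
      linarith [hab.2.2, hcj j]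
  obtain ⟨a, -, b1, b2⟩ := key
  have b3 := k2 j _ _ _ b2
  linarith [dist_triangle_right x0 x a, le_abs_self (Mf (3 * cap j)), hc0 j]

end Pool.Agent.Apc.Trap
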