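import Mathlib

namespace Pool.Agent.Apc

variable {G : Type*} [Group G]

theorem entries_mem {R n : Type*} [CommRing R] [Fintype n] [DecidableEq n]
    (ρ : G →* Matrix n n R) {S : Set G} (hS : Subgroup.closure S = ⊤) (T : Subring R)
    (h : ∀ g ∈ S, ∀ i j, ρ g i j ∈ T ∧ ρ g⁻¹ i j ∈ T) (g : G) (i j : n) : ρ g i j ∈ T := by
  have key : ∀ i j, ρ g i j ∈ T ∧ ρ g⁻¹ i j ∈ T := by
    have hg : g ∈ Subgroup.closure S := hS ▸ Subgroup.mem_top g
    induction hg using Subgroup.closure_induction with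
    | mem x hx => exact h x hx
    | one =>
      intro i j
      simp only [inv_one, map_one, and_self, Matrix.one_apply]
      split_ifs
      · exact T.one_mem
      · exact T.zero_mem
    | mul x y _ _ hx hy =>
      intro i j
      rw [mul_inv_rev, map_mul, map_mul, Matrix.mul_apply, Matrix.mul_apply]
      exact ⟨T.sum_mem fun l _ => T.mul_mem (hx i l).1 (hy l j).1,
        T.sum_mem fun l _ => T.mul_mem (hy i l).2 (hx l j).2⟩
    | inv x _ hx =>
      intro i j
      rw [inv_inv]
      exact (hx i j).symm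
  exact (key i j).1

theorem exists_lift_rep {R R' n : Type*} [CommRing R] [CommRing R'] [Fintype n] [DecidableEq n]
    (φ : R →+* R') (hφ : Function.Injective φ) (ρ : G →* Matrix n n R')
    (h : ∀ g i j, ρ g i j ∈ φ.range) :
    ∃ ρ' : G →* Matrix n n R, ∀ g i j, φ (ρ' g i j) = ρ g i j := by
  choose f hf using h
  have hinj : Function.Injective (φ.mapMatrix : Matrix n n R →+* Matrix n n R') :=
    Matrix.map_injective hφ
  have hf' : ∀ g, (φ.mapMatrix : Matrix n n R →+* Matrix n n R') (Matrix.of (f g)) = ρ g :=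
    fun g => by ext i j; exact hf g i j
  refine ⟨{ toFun := fun g => Matrix.of (f g)
            map_one' := hinj (by rw [hf', map_one, map_one])
            map_mul' := fun a b => hinj (by rw [hf', map_mul, map_mul, hf', hf']) }, hf⟩

theorem finite_entries {R n : Type*} [CommRing R] [Fintype n] [DecidableEq n]
    (ρ : G →* Matrix n n R) {S : Set G} (hS : S.Finite) :
    ∃ X : Set R, X.Finite ∧ ∀ g ∈ S, ∀ i j, ρ g i j ∈ X ∧ ρ g⁻¹ i j ∈ X := by
  refine ⟨(⋃ g ∈ S, Set.range fun ij : n × n => ρ g ij.1 ij.2) ∪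
    ⋃ g ∈ S, Set.range fun ij : n × n => ρ g⁻¹ ij.1 ij.2,
    (hS.biUnion fun _ _ => Set.finite_range _).union (hS.biUnion fun _ _ => Set.finite_range _),
    fun g hg i j => ⟨Or.inl (Set.mem_biUnion hg ⟨(i, j), rfl⟩),
      Or.inr (Set.mem_biUnion hg ⟨(i, j), rfl⟩)⟩⟩

theorem exists_rep_base {K L n : Type*} [Field K] [Field L] [Algebra L K] [Fintype n]
    [DecidableEq n] (ρ : G →* Matrix n n K) (hρ : Function.Injective ρ) {S : Set G}
    (hS : Subgroup.closure S = ⊤) {X : Set K} (hX : X.Finite)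
    (h : ∀ g ∈ S, ∀ i j, ρ g i j ∈ X ∧ ρ g⁻¹ i j ∈ X) (halg : ∀ x ∈ X, IsAlgebraic L x) :
    ∃ (m : ℕ) (ρ' : G →* Matrix (Fin m) (Fin m) L), Function.Injective ρ' := by
  classical
  let B := Algebra.adjoin L X
  have : Module.Finite L B :=
    Algebra.finite_adjoin_of_finite_of_isIntegral hX fun x hx => (halg x hx).isIntegral
  obtain ⟨ρ1, h1⟩ := exists_lift_rep B.val.toRingHom Subtype.val_injective ρ fun g i j => by
    have := entries_mem ρ hS B.toSubring (fun g hg i j =>
      ⟨Algebra.subset_adjoin (h g hg i j).1, Algebra.subset_adjoin (h g hg i j).2⟩) g i j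
    exact ⟨⟨_, this⟩, rfl⟩
  let b := Module.finBasis L B
  let Ψ : Matrix n n B →+* Matrix _ _ L :=
    (Matrix.reindexRingEquiv L (Fintype.equivFin (n × Fin (Module.finrank L B)))).toRingHom.comp
      ((Matrix.compRingEquiv n _ L).toRingHom.comp
        (Algebra.leftMulMatrix b).toRingHom.mapMatrix)
  have hΨ : Function.Injective Ψ :=
    (Matrix.reindexRingEquiv L _).injective.comp ((Matrix.compRingEquiv n _ L).injective.comp
      (Matrix.map_injective (Algebra.leftMulMatrix_injective b)))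
  refine ⟨_, Ψ.toMonoidHom.comp ρ1, hΨ.comp fun x y hxy => hρ ?_⟩
  ext i j
  rw [← h1, ← h1, hxy]

universe w

theorem exists_rep_frac (k : Type*) {K : Type w} {n : Type*} [CommRing k] [Field K] [Algebra k K]
    [FaithfulSMul k K] [IsDomain k] [Fintype n] [DecidableEq n] (ρ : G →* Matrix n n K)
    (hρ : Function.Injective ρ) {S : Set G} (hS : Subgroup.closure S = ⊤) (hS' : S.Finite) :
    ∃ (ι : Type w) (_ : Finite ι) (m : ℕ)
      (ρ' : G →* Matrix (Fin m) (Fin m) (FractionRing (MvPolynomial ι k))),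
      Function.Injective ρ' := by
  obtain ⟨X, hX, h⟩ := finite_entries ρ hS'
  obtain ⟨u, -, hu⟩ := exists_maximal_algebraicIndependent (R := k) ∅ X (Set.empty_subset _)
    ((algebraicIndependent_empty_iff k K).2 (FaithfulSMul.algebraMap_injective k K))
  have hu1 : AlgebraicIndependent k (fun x : u => (x : K)) := hu.prop.1
  have hinj := algebraicIndependent_iff_injective_aeval.1 hu1
  let _ : Algebra (FractionRing (MvPolynomial u k)) K :=
    (IsFractionRing.lift (K := FractionRing (MvPolynomial u k))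
      (g := (MvPolynomial.aeval (R := k) fun x : u => (x : K)).toRingHom) hinj).toAlgebra
  refine ⟨u, hX.subset hu.prop.2, exists_rep_base ρ hρ hS hX h fun x hx => ?_⟩
  have h1 : IsAlgebraic (Algebra.adjoin k (Set.range fun x : u => (x : K))) x := by
    by_contra h2
    have h3 : AlgebraicIndepOn k id (insert x u) :=
      hu.prop.1.insert (by rwa [Set.image_id, ← Subtype.range_coe (s := u)])
    have h4 := hu.eq_of_subset ⟨h3, Set.insert_subset hx hu.prop.2⟩ (Set.subset_insert _ _)
    have h5 : x ∈ u := h4 ▸ Set.mem_insert _ _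
    exact h2 (isAlgebraic_algebraMap
      (⟨x, Algebra.subset_adjoin ⟨⟨x, h5⟩, rfl⟩⟩ : Algebra.adjoin k (Set.range _)))
  refine h1.ringHom_of_comp_eq ((algebraMap (MvPolynomial u k) _).comp
    hu1.aevalEquiv.symm.toRingEquiv.toRingHom) (RingHom.id K)
    ((IsFractionRing.injective _ _).comp hu1.aevalEquiv.symm.injective) ?_
  ext y
  obtain ⟨p, rfl⟩ := hu1.aevalEquiv.surjective y
  simp [RingHom.algebraMap_toAlgebra, hu1.algebraMap_aevalEquiv]

theorem exists_rep_away {P n : Type*} [CommRing P] [IsDomain P] [Fintype n] [DecidableEq n]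
    (ρ : G →* Matrix n n (FractionRing P)) {S : Set G} (hS : Subgroup.closure S = ⊤)
    (hS' : S.Finite) :
    ∃ (s : P) (_ : s ≠ 0) (φ : Localization.Away s →+* FractionRing P)
      (ρ' : G →* Matrix n n (Localization.Away s)), Function.Injective φ ∧
      (∀ a, φ (algebraMap P _ a) = algebraMap P _ a) ∧ ∀ g i j, φ (ρ' g i j) = ρ g i j := by
  obtain ⟨X, hX, h⟩ := finite_entries ρ hS'
  obtain ⟨s, hs⟩ := IsLocalization.exist_integer_multiples_of_finset (nonZeroDivisors P)
    hX.toFinset
  have hs0 : (s : P) ≠ 0 := nonZeroDivisors.ne_zero s.2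
  have hs1 : algebraMap P (FractionRing P) s ≠ 0 := by simp
  let φ : Localization.Away (s : P) →+* FractionRing P :=
    IsLocalization.Away.lift (s : P) (g := algebraMap P (FractionRing P)) (Ne.isUnit hs1)
  have hφ1 : ∀ a, φ (algebraMap P _ a) = algebraMap P _ a := fun a =>
    IsLocalization.Away.lift_eq _ _ a
  have hφ : Function.Injective φ := by
    rw [injective_iff_map_eq_zero]
    intro z hz
    obtain ⟨n, a, ha⟩ := IsLocalization.Away.surj (s : P) z
    have h1 := congrArg φ ha
    rw [map_mul, hz, zero_mul, hφ1] at h1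
    have h2 : a = 0 := by simpa using h1.symm
    rw [h2, map_zero] at ha
    exact ((IsLocalization.Away.algebraMap_isUnit (s : P)).pow n).mul_left_eq_zero.1 ha
  have hmem : ∀ x ∈ X, x ∈ φ.range := fun x hx => by
    obtain ⟨a, ha⟩ := hs x (hX.mem_toFinset.2 hx)
    refine ⟨algebraMap P _ a * IsLocalization.Away.invSelf (s : P), ?_⟩
    apply mul_left_cancel₀ hs1
    rw [← hφ1, ← map_mul, mul_left_comm, IsLocalization.Away.mul_invSelf, mul_one, hφ1, hφ1, ha,
      Algebra.smul_def]
  obtain ⟨ρ', h'⟩ := exists_lift_rep φ hφ ρ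
    (entries_mem ρ hS φ.range fun g hg i j => ⟨hmem _ (h g hg i j).1, hmem _ (h g hg i j).2⟩)
  exact ⟨s, hs0, φ, ρ', hφ, hφ1, h'⟩

end Pool.Agent.Apc
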