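import Mathlib

namespace Pool.Agent.Apc

open scoped NNReal

theorem exists_absv {P : Type*} [CommRing P] [IsDomain P] (w : P → ℤ)
    (hmul : ∀ a b, a ≠ 0 → b ≠ 0 → w (a * b) = w a + w b)
    (hadd : ∀ a b, a ≠ 0 → b ≠ 0 → a + b ≠ 0 → w (a + b) ≤ max (w a) (w b)) :
    ∃ v : AbsoluteValue (FractionRing P) ℝ, (∀ a b, v (a + b) ≤ max (v a) (v b)) ∧
      ∀ a, a ≠ 0 → v (algebraMap P _ a) = (2 : ℝ) ^ w a := by
  classical
  have h1 : w 1 = 0 := by
    have := hmul 1 1 one_ne_zero one_ne_zero
    rw [mul_one] at this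
    omega
  let u : Valuation P ℝ≥0 :=
    { toFun := fun a => if a = 0 then 0 else (2 : ℝ≥0) ^ w a
      map_zero' := by simp
      map_one' := by simp [h1]
      map_mul' := fun a b => by
        by_cases ha : a = 0
        · simp [ha]
        by_cases hb : b = 0
        · simp [hb]
        simp [ha, hb, hmul a b ha hb, zpow_add₀]
      map_add_le_max' := fun a b => by
        by_cases ha : a = 0
        · simp [ha]
        by_cases hb : b = 0
        · simp [hb]
        by_cases hab : a + b = 0
        · simp [hab]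
        simp only [ha, hb, hab, if_false]
        rcases le_max_iff.1 (hadd a b ha hb hab) with h | h
        · exact le_max_of_le_left (zpow_le_zpow_right₀ one_le_two h)
        · exact le_max_of_le_right (zpow_le_zpow_right₀ one_le_two h) }
  have hu : ∀ a, a ≠ 0 → u a = (2 : ℝ≥0) ^ w a := fun a ha => if_neg ha
  have hS : nonZeroDivisors P ≤ u.supp.primeCompl := fun a ha => by
    have : u a ≠ 0 := by rw [hu a (nonZeroDivisors.ne_zero ha)]; positivity
    simpa [Ideal.primeCompl] using this
  let U := u.extendToLocalization hS (FractionRing P)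
  have hU : ∀ a b, ((U (a + b) : ℝ≥0) : ℝ) ≤ max (U a : ℝ) (U b) := fun a b => by
    exact_mod_cast U.map_add a b
  refine ⟨{ toFun := fun x => U x
            map_mul' := fun a b => by simp
            nonneg' := fun a => by simp
            eq_zero' := fun a => by simp
            add_le' := fun a b => (hU a b).trans (max_le (by simp) (by simp)) }, hU, fun a ha => ?_⟩
  change ((U (algebraMap P _ a) : ℝ≥0) : ℝ) = _
  rw [Valuation.extendToLocalization_apply_map_apply, hu a ha]
  simp

theorem exists_absv_prime {P : Type*} [CommRing P] [IsDomain P] [UniqueFactorizationMonoid P]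
    {q : P} (hq : Prime q) :
    ∃ v : AbsoluteValue (FractionRing P) ℝ, (∀ a b, v (a + b) ≤ max (v a) (v b)) ∧
      ∀ a, a ≠ 0 → v (algebraMap P _ a) = (2 : ℝ) ^ (-(multiplicity q a : ℤ)) := by
  refine exists_absv (fun a => -(multiplicity q a : ℤ)) (fun a b ha hb => ?_) fun a b _ _ hab => ?_
  · rw [multiplicity_mul hq (FiniteMultiplicity.of_prime_left hq (mul_ne_zero ha hb))]
    push_cast; ring
  · have := (FiniteMultiplicity.of_prime_left hq hab).le_multiplicity_of_pow_dvd
      (k := min (multiplicity q a) (multiplicity q b))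
      (dvd_add (pow_dvd_of_le_multiplicity (min_le_left _ _))
        (pow_dvd_of_le_multiplicity (min_le_right _ _)))
    omega

open MvPolynomial in
theorem exists_absv_family {ι k : Type*} [CommRing k] [IsDomain k] [UniqueFactorizationMonoid k]
    {s : MvPolynomial ι k} (hs : s ≠ 0) :
    ∃ I : Finset (AbsoluteValue (FractionRing (MvPolynomial ι k)) ℝ),
      (∀ v ∈ I, ∀ a b, v (a + b) ≤ max (v a) (v b)) ∧
      ∀ C : ℝ, ∃ e K : ℕ, ∀ (x : FractionRing (MvPolynomial ι k)) (n : ℕ) (a : MvPolynomial ι k),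
        x * algebraMap _ _ s ^ n = algebraMap _ _ a → (∀ v ∈ I, v x ≤ C) →
        ∃ b : MvPolynomial ι k, x * algebraMap _ _ s ^ e = algebraMap _ _ b ∧
          b.totalDegree ≤ K := by
  classical
  obtain ⟨vd, hvd1, hvd2⟩ := exists_absv (fun a : MvPolynomial ι k => (a.totalDegree : ℤ))
    (fun a b ha hb => by rw [totalDegree_mul_of_isDomain ha hb]; push_cast; ring)
    (fun a b _ _ _ => by exact_mod_cast totalDegree_add a b)
  have hq : ∀ q : MvPolynomial ι k, ∃ v : AbsoluteValue (FractionRing (MvPolynomial ι k)) ℝ,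
      (∀ a b, v (a + b) ≤ max (v a) (v b)) ∧ (Prime q →
      ∀ a, a ≠ 0 → v (algebraMap _ _ a) = (2 : ℝ) ^ (-(multiplicity q a : ℤ))) := fun q => by
    by_cases h : Prime q
    · obtain ⟨v, h1, h2⟩ := exists_absv_prime h
      exact ⟨v, h1, fun _ => h2⟩
    · exact ⟨vd, hvd1, fun h' => absurd h' h⟩
  choose vq hq1 hq2 using hq
  refine ⟨insert vd ((UniqueFactorizationMonoid.factors s).toFinset.image vq), ?_, fun C => ?_⟩
  · intro v hv
    rcases Finset.mem_insert.1 hv with rfl | hv
    · exact hvd1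
    · obtain ⟨q, -, rfl⟩ := Finset.mem_image.1 hv
      exact hq1 q
  obtain ⟨e, he⟩ := pow_unbounded_of_one_lt C (one_lt_two (α := ℝ))
  refine ⟨e, e + e * s.totalDegree, fun x n a hx hv => ?_⟩
  have hinj := IsFractionRing.injective (MvPolynomial ι k) (FractionRing (MvPolynomial ι k))
  have hs' : algebraMap _ (FractionRing (MvPolynomial ι k)) s ≠ 0 := by simpa using hs
  by_cases ha : a = 0
  · have : x = 0 := by
      rw [ha, map_zero] at hx
      exact (mul_eq_zero.1 hx).resolve_right (pow_ne_zero _ hs')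
    exact ⟨0, by simp [this], by simp⟩
  have hdvd : s ^ n ∣ a * s ^ e := by
    rw [UniqueFactorizationMonoid.dvd_iff_emultiplicity_le (pow_ne_zero _ hs)]
    intro p hp
    by_cases hps : p ∣ s
    · obtain ⟨q, hq, hpq⟩ := UniqueFactorizationMonoid.exists_mem_factors_of_dvd hs
        hp.irreducible hps
      have hq' : Prime q := hpq.prime hp
      rw [← emultiplicity_eq_of_associated_left hpq, ← emultiplicity_eq_of_associated_left hpq,
        emultiplicity_mul hq', emultiplicity_pow hq', emultiplicity_pow hq',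
        (FiniteMultiplicity.of_prime_left hq' hs).emultiplicity_eq_multiplicity,
        (FiniteMultiplicity.of_prime_left hq' ha).emultiplicity_eq_multiplicity]
      have h1 := (hv (vq q) (Finset.mem_insert_of_mem (Finset.mem_image_of_mem _
        (Multiset.mem_toFinset.2 hq)))).trans he.le
      have h2 := congrArg (vq q) hx
      rw [map_mul, map_pow, hq2 q hq' s hs, hq2 q hq' a ha, ← zpow_natCast, ← zpow_mul] at h2
      have h3 : (2 : ℝ) ^ (-(multiplicity q a : ℤ)) ≤
          2 ^ ((e : ℤ) + -(multiplicity q s : ℤ) * n) := by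
        rw [← h2, zpow_add₀ two_ne_zero, zpow_natCast]
        exact mul_le_mul_of_nonneg_right h1 (by positivity)
      rw [zpow_le_zpow_iff_right₀ one_lt_two] at h3
      have h4 : 0 < multiplicity q s := multiplicity_pos_of_dvd (hpq.symm.dvd.trans hps)
      have h5 : n * multiplicity q s ≤ multiplicity q a + e * multiplicity q s := by
        zify at h4 ⊢
        nlinarith
      exact_mod_cast h5
    · rw [emultiplicity_pow hp, emultiplicity_eq_zero.2 hps]
      simp
  obtain ⟨b, hb⟩ := hdvd
  have hxb : x * algebraMap _ _ s ^ e = algebraMap _ _ b := by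
    apply mul_left_cancel₀ (pow_ne_zero n hs')
    have := congrArg (algebraMap _ (FractionRing (MvPolynomial ι k))) hb
    rw [map_mul, map_mul, map_pow, map_pow, ← hx] at this
    linear_combination this
  refine ⟨b, hxb, ?_⟩
  by_cases hb0 : b = 0
  · simp [hb0]
  have h1 := (hv vd (Finset.mem_insert_self _ _)).trans he.le
  have h2 := congrArg vd hxb
  rw [map_mul, map_pow, hvd2 s hs, hvd2 b hb0, ← zpow_natCast, ← zpow_mul] at h2
  have h3 : (2 : ℝ) ^ (b.totalDegree : ℤ) ≤ 2 ^ ((e : ℤ) + (s.totalDegree : ℤ) * e) := by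
    rw [← h2, zpow_add₀ two_ne_zero, zpow_natCast]
    exact mul_le_mul_of_nonneg_right h1 (by positivity)
  rw [zpow_le_zpow_iff_right₀ one_lt_two] at h3
  zify
  linarith

open MvPolynomial in
theorem exists_evals_int {ι : Type*} [Finite ι] {s : MvPolynomial ι ℤ} (hs : s ≠ 0) (K : ℕ) :
    ∃ T : Finset (MvPolynomial ι ℤ →+* ℚ), (∀ e ∈ T, e s ≠ 0) ∧
      ∀ C : ℝ, {b : MvPolynomial ι ℤ | b.totalDegree ≤ K ∧ ∀ e ∈ T, |(e b : ℝ)| ≤ C}.Finite := by
  classical
  have := Fintype.ofFinite ι
  let N := K + s.totalDegree + 1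
  let S : Finset ℤ := (Finset.range N).image Nat.cast
  have hS : S.card = N := by
    rw [Finset.card_image_of_injective _ Nat.cast_injective, Finset.card_range]
  let T0 : Finset (ι → ℤ) := (Fintype.piFinset fun _ => S).filter fun τ => eval τ s ≠ 0
  refine ⟨T0.image fun τ => (Int.castRingHom ℚ).comp (eval τ), ?_, fun C => ?_⟩
  · intro e he
    obtain ⟨τ, hτ, rfl⟩ := Finset.mem_image.1 he
    simpa using (Finset.mem_filter.1 hτ).2
  refine Set.Finite.of_finite_image (f := fun b (τ : T0) => eval τ.1 b) ?_ ?_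
  · refine (Set.Finite.pi' fun _ : T0 => Set.finite_Icc (-⌈C⌉) ⌈C⌉).subset ?_
    rintro _ ⟨b, hb, rfl⟩ τ
    have h1 := hb.2 _ (Finset.mem_image_of_mem _ τ.2)
    have h2 : |((eval τ.1 b : ℤ) : ℝ)| ≤ (⌈C⌉ : ℤ) := by
      refine le_trans ?_ (Int.le_ceil C)
      simpa using h1
    exact abs_le.1 (by exact_mod_cast h2)
  · intro b hb b' hb' h
    have h0 : (b - b') * s = 0 := by
      refine eq_zero_of_eval_zero_at_prod_finset _ (fun _ => S) (fun i => ?_) fun τ hτ => ?_
      · have h1 := degreeOf_le_totalDegree ((b - b') * s) i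
        have h2 := totalDegree_mul (b - b') s
        have h3 := totalDegree_sub b b'
        have h4 := max_le hb.1 hb'.1
        rw [hS]
        omega
      · rw [map_mul, map_sub]
        by_cases h1 : eval τ s = 0
        · rw [h1, mul_zero]
        · have h2 : eval τ b = eval τ b' := congrFun h
            ⟨τ, Finset.mem_filter.2 ⟨Fintype.mem_piFinset.2 hτ, h1⟩⟩
          rw [h2, sub_self, zero_mul]
    exact sub_eq_zero.1 ((mul_eq_zero.1 h0).resolve_right hs)

open MvPolynomial in
theorem exists_evals_finite {ι k : Type*} [Finite ι] [CommRing k] [Finite k]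
    (s : MvPolynomial ι k) (K : ℕ) :
    ∃ T : Finset (MvPolynomial ι k →+* ℚ), (∀ e ∈ T, e s ≠ 0) ∧
      ∀ C : ℝ, {b : MvPolynomial ι k | b.totalDegree ≤ K ∧ ∀ e ∈ T, |(e b : ℝ)| ≤ C}.Finite := by
  refine ⟨∅, by simp, fun C => ?_⟩
  have : Finite (restrictTotalDegree ι k K) := Module.finite_of_finite k
  refine (Set.toFinite (restrictTotalDegree ι k K : Set (MvPolynomial ι k))).subset ?_
  intro b hb
  exact (mem_restrictTotalDegree _ _ _).2 hb.1

end Pool.Agent.Apc
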