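import Pool.Agent.Lib.MP_4f4e79_gt.Gauss
import Pool.Agent.Lib.MP_4f4e79_gt.Val
import Pool.Agent.Lib.MP_4f4e79_gt.Red

namespace Pool.Agent.Apc

universe u

variable {G : Type u} [Group G] [PseudoMetricSpace G] [IsIsometricSMul G G]

theorem apc1_of_frac (hG : ∀ r, (Metric.closedBall (1 : G) r).Finite) {ι k : Type*} [CommRing k]
    [IsDomain k] [UniqueFactorizationMonoid k] {m : ℕ}
    (hev : ∀ s : MvPolynomial ι k, s ≠ 0 → ∀ K : ℕ,
      ∃ T : Finset (MvPolynomial ι k →+* ℚ), (∀ e ∈ T, e s ≠ 0) ∧ ∀ C : ℝ,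
        {b : MvPolynomial ι k | b.totalDegree ≤ K ∧ ∀ e ∈ T, |(e b : ℝ)| ≤ C}.Finite)
    (ρ : G →* Matrix (Fin m) (Fin m) (FractionRing (MvPolynomial ι k)))
    (hρ : Function.Injective ρ) {S : Set G} (hS : Subgroup.closure S = ⊤) (hS' : S.Finite) :
    Apc1 ({Set.univ} : Set (Set G)) := by
  classical
  obtain ⟨s, hs, φ, ρA, hφ, hφ1, hρA⟩ := exists_rep_away ρ hS hS'
  obtain ⟨I, hI1, hI2⟩ := exists_absv_family hs
  obtain ⟨h1, h2⟩ := len_sum I (fun v => mlen v ρ) fun v hv =>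
    ⟨isLen_mlen ρ, fd_mlen (col1_of_nonarch v (hI1 v hv)) ρ⟩
  refine apc1_of_lens hG h1 h2 fun D => ?_
  obtain ⟨e, K, hK⟩ := hI2 (Real.exp D)
  obtain ⟨T, hT1, hT2⟩ := hev s hs K
  let ev : T → Localization.Away s →+* ℚ := fun τ =>
    IsLocalization.Away.lift s (g := τ.1) (Ne.isUnit (hT1 τ.1 τ.2))
  have hev1 : ∀ τ a, ev τ (algebraMap _ _ a) = τ.1 a := fun τ a =>
    IsLocalization.Away.lift_eq _ _ a
  obtain ⟨h3, h4⟩ := len_sum Finset.univ (fun τ : T => mlen Rat.AbsoluteValue.real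
    ((ev τ).mapMatrix.toMonoidHom.comp ρA)) fun τ _ => ⟨isLen_mlen _, fd_mlen col1_rat _⟩
  refine ⟨_, h3, h4, fun t => ?_⟩
  let C : ℝ := Real.exp t * ∑ τ : T, |(τ.1 s : ℝ)| ^ e
  refine Set.Finite.of_finite_image (f := ρ) ?_ hρ.injOn
  refine (Set.Finite.pi' fun _ : Fin m => Set.Finite.pi' fun _ : Fin m =>
    (hT2 C).image fun b => algebraMap _ (FractionRing (MvPolynomial ι k)) b /
      algebraMap _ _ s ^ e).subset ?_
  rintro _ ⟨g, ⟨hg1, hg2⟩, rfl⟩ i j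
  obtain ⟨n, a, ha⟩ := IsLocalization.Away.surj s (ρA g i j)
  have h5 := congrArg φ ha
  rw [map_mul, map_pow, hφ1, hφ1, hρA] at h5
  obtain ⟨b, hb1, hb2⟩ := hK _ n a h5 fun v hv =>
    (bd_of_mlen ((Finset.single_le_sum (f := fun v => mlen v ρ g)
      (fun v _ => (isLen_mlen ρ).nonneg g) hv).trans hg1) i j).1
  have hs1 : algebraMap _ (FractionRing (MvPolynomial ι k)) s ≠ 0 := by simpa using hs
  refine ⟨b, ⟨hb2, fun τ hτ => ?_⟩, (div_eq_iff (pow_ne_zero _ hs1)).2 hb1.symm⟩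
  have h6 : ρA g i j * algebraMap _ _ s ^ e = algebraMap _ _ b :=
    hφ (by rw [map_mul, map_pow, hφ1, hφ1, hρA, hb1])
  have h7 := congrArg (ev ⟨τ, hτ⟩) h6
  rw [map_mul, map_pow, hev1, hev1] at h7
  have h8 := (bd_of_mlen ((Finset.single_le_sum (f := fun τ : T => mlen Rat.AbsoluteValue.real
    ((ev τ).mapMatrix.toMonoidHom.comp ρA) g) (fun v _ => (isLen_mlen _).nonneg g)
    (Finset.mem_univ ⟨τ, hτ⟩)).trans hg2) i j).1
  have h9 : |((ev ⟨τ, hτ⟩ (ρA g i j) : ℚ) : ℝ)| ≤ Real.exp t := by simpa using h8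
  have h10 : |(τ s : ℝ)| ^ e ≤ ∑ τ : T, |(τ.1 s : ℝ)| ^ e :=
    Finset.single_le_sum (f := fun τ : T => |(τ.1 s : ℝ)| ^ e) (fun _ _ => by positivity)
      (Finset.mem_univ ⟨τ, hτ⟩)
  change |(((⟨τ, hτ⟩ : T).1 b : ℚ) : ℝ)| ≤ C
  rw [← h7]
  push_cast
  rw [abs_mul, abs_pow]
  exact mul_le_mul h9 h10 (by positivity) (by positivity)

theorem apc1_of_linear (hG : ∀ r, (Metric.closedBall (1 : G) r).Finite) (hfg : Group.FG G)
    {K n : Type*} [Field K] [Fintype n] [DecidableEq n] (ρ : G →* Matrix n n K)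
    (hρ : Function.Injective ρ) : Apc1 ({Set.univ} : Set (Set G)) := by
  obtain ⟨S, hS, hS'⟩ := Group.fg_iff.1 hfg
  obtain ⟨p, hp⟩ := CharP.exists K
  rcases CharP.char_is_prime_or_zero K p with h | rfl
  · have : Fact p.Prime := ⟨h⟩
    let _ : Algebra (ZMod p) K := ZMod.algebra K p
    obtain ⟨ι, _, m, ρ', h'⟩ := exists_rep_frac (ZMod p) ρ hρ hS hS'
    exact apc1_of_frac hG (fun s _ K => exists_evals_finite s K) ρ' h' hS hS'
  · have : CharZero K := CharP.charP_to_charZero K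
    obtain ⟨ι, _, m, ρ', h'⟩ := exists_rep_frac ℤ ρ hρ hS hS'
    exact apc1_of_frac hG (fun s hs K => exists_evals_int hs K) ρ' h' hS hS'

end Pool.Agent.Apc
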