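import Pool.Agent.Lib.MP_4f4e79_gt.Lin

namespace Pool.Agent.Results.MP_4f4e79_gt.LinearGroups

open Pool.Agent.Apc

universe u v w

/-- Every finitely generated linear group over a field has asymptotic property C. -/
theorem result {G : Type u} [Group G] [MetricSpace G]
    (hGinv : ∀ g x y : G, dist (g * x) (g * y) = dist x y)
    (hG : ∀ r : ℝ, (Metric.closedBall (1 : G) r).Finite) (hfg : Group.FG G)
    {K : Type v} [Field K] (n : ℕ) (ρ : G →* Matrix.GeneralLinearGroup (Fin n) K)
    (hρ : Function.Injective ρ) :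
    Cls (1 : Ordinal.{w}) ({Set.univ} : Set (Set G)) := by
  have : IsIsometricSMul G G := ⟨fun g => Isometry.of_dist_eq (hGinv g)⟩
  exact cls_of_apc1 (apc1_of_linear hG hfg ((Units.coeHom _).comp ρ)
    (Units.val_injective.comp hρ))

end Pool.Agent.Results.MP_4f4e79_gt.LinearGroups
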