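import Pool.Agent.Lib.MP_4f4e79_gt.Core

namespace Pool.Agent.Apc.Trap

variable {X Y ι : Type*} [PseudoMetricSpace X] [PseudoMetricSpace Y]

theorem rel_sel {A : ι → Set X} {f : ι → X → Y} {𝒴 : Set (Set Y)} {c : ℕ} {D r : ℝ}
    {𝒱 : Set (Set X)} (h : Cov c (|r| + 1) (as_pre A f {V | as_G 𝒴 D V}) 𝒱) (i : ι) (S : Set Y) :
    ∃ (κ : X → ℕ) (P : X → Set X),
      (∀ x, x ∈ A i ∧ f i x ∈ S ∧ as_G 𝒴 D S → κ x < c ∧ P x ∈ 𝒱 ∧ x ∈ P x) ∧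
      ∀ x y, x ∈ A i ∧ f i x ∈ S ∧ as_G 𝒴 D S → y ∈ A i ∧ f i y ∈ S ∧ as_G 𝒴 D S → κ x = κ y →
        dist x y ≤ r → P x = P y := by
  by_cases hS : as_G 𝒴 D S
  · obtain ⟨𝒰, h1, h2⟩ := h _ ⟨i, S, hS, rfl⟩
    choose! κ hκ P hP hx using h2
    refine ⟨κ, P, fun x h3 => ⟨hκ x ⟨h3.1, h3.2.1⟩, (h1 _ (hκ x ⟨h3.1, h3.2.1⟩)).1
      (hP x ⟨h3.1, h3.2.1⟩), hx x ⟨h3.1, h3.2.1⟩⟩, fun x y h3 h4 he hd => ?_⟩
    by_contra hne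
    have := (h1 _ (hκ x ⟨h3.1, h3.2.1⟩)).2.2 _ (hP x ⟨h3.1, h3.2.1⟩) _
      (he ▸ hP y ⟨h4.1, h4.2.1⟩) hne x (hx x ⟨h3.1, h3.2.1⟩) y (hx y ⟨h4.1, h4.2.1⟩)
    linarith [le_abs_self r]
  · exact ⟨fun _ => 0, fun _ => ∅, fun x h3 => (hS h3.2.2).elim, fun x y h3 => (hS h3.2.2).elim⟩

theorem rel_code {c e e' a a' b b' : ℕ} (he : e < 2) (he' : e' < 2) (ha : a < c) (ha' : a' < c)
    (h : e + 2 * (a + c * b) = e' + 2 * (a' + c * b')) : e = e' ∧ a = a' ∧ b = b' := by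
  have h1 : a + c * b = a' + c * b' := by omega
  have h2 : a = a' := by
    have := congrArg (· % c) h1
    simpa [Nat.mod_eq_of_lt ha, Nat.mod_eq_of_lt ha'] using this
  subst h2
  exact ⟨by omega, rfl, Nat.eq_of_mul_eq_mul_left (by omega) (Nat.add_left_cancel h1)⟩

theorem rel_cut {A : ι → Set X} {f : ι → X → Y} {𝒴 : Set (Set Y)} {c : ℕ}
    (h : ∀ ℬ : Set (Set Y), BddFam ℬ → (∀ V ∈ ℬ, ∃ W ∈ 𝒴, V ⊆ W) → ∀ r : ℝ, 0 < r →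
      ∃ 𝒱 : Set (Set X), FinAsdim 𝒱 ∧ Cov c r (as_pre A f ℬ) 𝒱) : as_Cut A f 𝒴 := by
  refine ⟨2 * (c * c) + 1, by omega, fun D0 r => ?_⟩
  obtain ⟨𝒱, hV, hVc⟩ := h {V | as_G 𝒴 D0 V} ⟨D0, fun V hV => hV.2⟩ (fun V hV => hV.1) (|r| + 1)
    (by positivity)
  obtain ⟨n, hn⟩ := as_col_of_fin hV
  refine ⟨c * (2 * n), fun D1 R hrR => ?_⟩
  obtain ⟨𝒲, hW, hWc⟩ := h {V | as_G 𝒴 D1 V} ⟨D1, fun V hV => hV.2⟩ (fun V hV => hV.1) (|R| + 1)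
    (by positivity)
  obtain ⟨b, hb⟩ := as_col_of_fin hW
  choose κL PL hL1 hL2 using rel_sel hVc
  choose κH PH hH1 hH2 using rel_sel hWc
  obtain ⟨M, W, h1, h2⟩ := core X (Set X × Set X)
    (fun j => {x | (x ∈ j.1 ∧ j.1 ∈ 𝒱) ∧ x ∈ j.2 ∧ j.2 ∈ 𝒲}) (fun j => {x | x ∈ j.2 ∧ j.2 ∈ 𝒲})
    (fun j => (∅, j.2)) n b (fun j x hx => hx.2)
    (fun ρ => by
      obtain ⟨M, hM0, hM⟩ := hn ρ
      refine ⟨M, fun j => ?_⟩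
      by_cases hj : j.1 ∈ 𝒱
      · exact (hM _ hj).mono (by omega) le_rfl le_rfl fun x hx => hx.1.1
      · exact as_col_empty _ _ hM0 fun x hx => hj hx.1.2)
    (fun ρ => by
      obtain ⟨M, hM0, hM⟩ := hb ρ
      refine ⟨M, fun j => ?_⟩
      by_cases hj : j.2 ∈ 𝒲
      · exact (hM _ hj).mono le_rfl le_rfl le_rfl fun x hx => hx.1
      · exact as_col_empty _ _ hM0 fun x hx => hj hx.2) r R
  choose κ hκ1 hκ2 using h2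
  refine ⟨M, fun i Q a => {x | (x ∈ A i ∧ f i x ∈ Q ∧ as_G 𝒴 D1 Q) ∧ κH i Q x = a / (2 * n) ∧
    x ∈ W (∅, PH i Q x) (a % (2 * n))}, fun i Q a x0 x hc => ?_, fun i S Q => ?_⟩
  · rcases hc.eq_or_mem with rfl | ⟨h3, h4, h5⟩
    · exact h1 (∅, ∅) 0 _ _ (Chain.refl _)
    have := hc.refine (T' := {x | PH i Q x = PH i Q x0 ∧ x ∈ W (∅, PH i Q x0) (a % (2 * n))})
      (fun _ => ⟨rfl, h5⟩) (by
      rintro x1 x2 - - ⟨h6, -⟩ ⟨h7, h8, -⟩ ⟨h9, h10, h11⟩ hd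
      have e1 := (hH2 i Q x1 x2 h7 h9 (h8.trans h10.symm) hd).symm.trans h6
      exact ⟨e1, e1 ▸ h11⟩)
    exact h1 _ _ x0 x (this.mono le_rfl fun w hw => hw.2)
  · have key : ∀ x, (((x ∈ A i ∧ f i x ∈ S ∧ as_G 𝒴 D0 S) ∧ S ⊆ Q ∧ as_G 𝒴 D1 Q) ∧
        ∀ a < c * (2 * n), ¬ ((x ∈ A i ∧ f i x ∈ Q ∧ as_G 𝒴 D1 Q) ∧ κH i Q x = a / (2 * n) ∧
          x ∈ W (∅, PH i Q x) (a % (2 * n)))) →
        (x ∈ A i ∧ f i x ∈ Q ∧ as_G 𝒴 D1 Q) ∧ κL i S x < c ∧ κH i Q x < c ∧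
          (((x ∈ PL i S x ∧ PL i S x ∈ 𝒱) ∧ x ∈ PH i Q x ∧ PH i Q x ∈ 𝒲) ∧
            ∀ a < 2 * n, x ∉ W (∅, PH i Q x) a) := by
      rintro x ⟨⟨h3, h4, h5⟩, h6⟩
      have h7 : x ∈ A i ∧ f i x ∈ Q ∧ as_G 𝒴 D1 Q := ⟨h3.1, h4 h3.2.1, h5⟩
      obtain ⟨h8, h9, h10⟩ := hL1 i S x h3
      obtain ⟨h11, h12, h13⟩ := hH1 i Q x h7
      refine ⟨h7, h8, h11, ⟨⟨h10, h9⟩, h13, h12⟩, fun e he hw => ?_⟩
      have h14 := Nat.mul_le_mul_right (2 * n) (show κH i Q x + 1 ≤ c from h11)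
      have h15 : (κH i Q x + 1) * (2 * n) = κH i Q x * (2 * n) + 2 * n := by ring
      refine h6 (e + κH i Q x * (2 * n)) (by omega) ⟨h7, ?_, ?_⟩
      · rw [Nat.add_mul_div_right _ _ (by omega), Nat.div_eq_of_lt he, zero_add]
      · rwa [Nat.add_mul_mod_self_right, Nat.mod_eq_of_lt he]
    refine ⟨fun x => κ (PL i S x, PH i Q x) x + 2 * (κL i S x + c * κH i Q x), fun x hx => ?_,
      fun a x0 x hc => ?_⟩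
    · obtain ⟨-, h3, h4, h5⟩ := key x hx
      have h6 := hκ1 (PL i S x, PH i Q x) x h5
      have h7 := Nat.mul_le_mul_left c (show κH i Q x + 1 ≤ c from h4)
      have h8 : c * (κH i Q x + 1) = c * κH i Q x + c := by ring
      dsimp only
      omega
    · rcases hc.eq_or_mem with rfl | ⟨h3, h4⟩
      · exact h1 (∅, ∅) 0 _ _ (Chain.refl _)
      have h5 := hc.refine (T' := {x | x ∈ {x | x ∈ {x | (x ∈ PL i S x0 ∧ PL i S x0 ∈ 𝒱) ∧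
          x ∈ PH i Q x0 ∧ PH i Q x0 ∈ 𝒲} ∧ ∀ a < 2 * n, x ∉ W (∅, PH i Q x0) a} ∧
          κ (PL i S x0, PH i Q x0) x = κ (PL i S x0, PH i Q x0) x0})
        (fun _ => ⟨(key x0 h3).2.2.2, rfl⟩) (by
        rintro x1 x2 hx2 - - - ⟨h9, h10⟩ -
        have h6 := hx2.refine (T' := {x | PL i S x = PL i S x0 ∧ PH i Q x = PH i Q x0})
          (fun _ => ⟨rfl, rfl⟩) (by
          rintro x1 x2 - - ⟨h5, h6⟩ ⟨h7, h8⟩ ⟨h9, h10⟩ hd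
          obtain ⟨k1, k2, k3, k4⟩ := key x1 h7
          obtain ⟨l1, l2, l3, l4⟩ := key x2 h9
          obtain ⟨-, e2, e3⟩ := rel_code (hκ1 (_, _) x1 k4) (hκ1 (_, _) x2 l4) k2 l2
            (h8.trans h10.symm)
          exact ⟨(hL2 i S x1 x2 h7.1.1 h9.1.1 e2 hd).symm.trans h5,
            (hH2 i Q x1 x2 k1 l1 e3 (hd.trans hrR)).symm.trans h6⟩)
        obtain ⟨e4, e5⟩ := h6.mem ⟨rfl, rfl⟩
        obtain ⟨k1, k2, k3, k4⟩ := key x0 h3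
        obtain ⟨l1, l2, l3, l4⟩ := key x2 h9
        obtain ⟨e1, -, -⟩ := rel_code (hκ1 (_, _) x2 l4) (hκ1 (_, _) x0 k4) l2 k2
          (h10.trans h4.symm)
        rw [e4, e5] at e1 l4
        exact ⟨l4, e1⟩)
      exact hκ2 (PL i S x0, PH i Q x0) _ x0 x h5

end Pool.Agent.Apc.Trap
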