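import Pool.Agent.Lib.MP_4f4e79_gt.Dense
import Pool.Agent.Lib.MP_4f4e79_gt.Light

/-!
The root recursion: the walls of a grid are moved so that, outside of a set that collapses,
they fall into bounded pieces.
-/

namespace Pool.Agent.Apc.Trap

open FreeAbelianGroup

variable {X : Type*} [PseudoMetricSpace X] {J : Type*}

theorem rt_lip_sup {s : Finset ℕ} (hs : s.Nonempty) {g : ℕ → X → ℝ} (hg : ∀ k, Lip (g k)) :
    ∃ d : X → ℝ, Lip d ∧ (∀ k ∈ s, ∀ y, g k y ≤ d y) ∧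
      ∀ y E, (∀ k ∈ s, g k y ≤ E) → d y ≤ E := by
  refine ⟨fun y => s.sup' hs fun k => g k y, fun x y => ?_,
    fun k hk y => Finset.le_sup' (fun k => g k y) hk, fun y E h => Finset.sup'_le _ _ h⟩
  have : (s.sup' hs fun k => g k x) ≤ dist x y + s.sup' hs fun k => g k y := by
    refine Finset.sup'_le _ _ fun k hk => ?_
    have h1 := hg k x y
    have h2 := Finset.le_sup' (fun k => g k y) hk
    linarith
  simp only
  linarith

theorem rt_le {t : ℝ} (ht : 0 ≤ t) (u v : ℝ) : fing t u v ≤ u :=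
  max_le (min_le_left _ _) (by linarith)

theorem rt_ge (t u v : ℝ) : u - t ≤ fing t u v := le_max_right _ _

theorem rt_low {t u v e : ℝ} (h : |fing t u v| ≤ e) (hv : v < -e) : |u - t| ≤ e := by
  have h1 := abs_le.1 h
  have h2 := rt_ge t u v
  refine abs_le.2 ⟨?_, by linarith⟩
  rcases le_max_iff.1 (show -e ≤ max (min u v) (u - t) from h1.1) with h3 | h3
  · linarith [min_le_right u v]
  · exact h3

/-- The functions of one step of the root recursion. -/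
theorem rt_fun {F : Finset ℕ} {p c : ℕ} (hc : c ∈ F) (hcp : c ≠ p) {Y : ℕ → X → ℝ}
    (hY : ∀ k, Lip (Y k)) {u' b : X → ℝ} (hu' : Lip u') (hb : Lip b) {e lam L a sc T2 t : ℝ}
    (he : 0 ≤ e) (hlam : 0 < lam) (hL : L = 5 * e + 2 + 2 * lam) (ha : a = L + lam + e + 1)
    (hsc : L + lam ≤ sc) (hT2 : 0 ≤ T2) (ht : 0 ≤ t) (hu : ∀ y, |u' y - (Y c y - a)| ≤ T2)
    (htop : ∀ y, t - sc ≤ Y p y → sc ≤ b y) (hbot : ∀ y, Y p y ≤ sc → b y ≤ -sc) :
    ∃ (Y' : ℕ → X → ℝ) (bF : X → ℝ), (∀ k, Lip (Y' k)) ∧ Lip bF ∧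
      (∀ k y, |Y' k y - Y k y| ≤ T2 + a + t) ∧ (∀ k, k ∉ F → k ≠ p → Y' k = Y k) ∧
      (∀ y, |Y' p y| ≤ e → (∀ k ∈ F, |Y' k y| ≤ e) → 2 * lam ≤ bF y) ∧
      (∀ y, -lam ≤ bF y → ∀ k, k ∈ F ∨ k = p → |Y' k y| ≤ a + L + t + 3 * e + 1 + 3 * lam ∧
        |Y k y| ≤ a + L + t + 3 * e + 1 + 3 * lam + T2) ∧
      (∀ y, -lam ≤ bF y → bF y < 2 * lam → (∃ k ∈ F, |Y' k y| ≤ e) →
        |u' y| ≤ sc ∧ |b y| ≤ sc) := by
  classical
  obtain ⟨Y1, hY1⟩ : ∃ Y1 : ℕ → X → ℝ, Y1 = fun k => if k = c then fun y => u' y + a else Y k :=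
    ⟨_, rfl⟩
  have hY1l : ∀ k, Lip (Y1 k) := by
    intro k
    rw [hY1]
    simp only
    split_ifs
    · exact hu'.add_const a
    · exact hY k
  have hY1c : ∀ y, Y1 c y = u' y + a := by intro y; simp [hY1]
  have hY1d : ∀ k y, |Y1 k y - Y k y| ≤ T2 := by
    intro k y
    by_cases hk : k = c
    · rw [hk, hY1c]
      have := hu y
      rwa [show u' y - (Y c y - a) = u' y + a - Y c y by ring] at this
    · simpa [hY1, hk] using hT2
  have hcF : c ∈ F.erase p := Finset.mem_erase.2 ⟨hcp, hc⟩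
  obtain ⟨d, hd, hd1, hd2⟩ := rt_lip_sup ⟨c, hcF⟩ (g := fun k y => |Y1 k y - a|)
    fun k => ((hY1l k).sub_const a).abs
  obtain ⟨Yp, hYp⟩ : ∃ Yp : X → ℝ, Yp = fun y => fing t (Y p y) (d y - (2 * e + 1)) := ⟨_, rfl⟩
  have hYpl : Lip Yp := hYp ▸ (hY p).fing (hd.sub_const _) t
  obtain ⟨Y', hY'⟩ : ∃ Y' : ℕ → X → ℝ, Y' = fun k => if k = p then Yp else if k ∈ F then
      fun y => fing a (Y1 k y) (|Yp y| - (2 * e + 1)) else Y k := ⟨_, rfl⟩
  have hp' : ∀ y, Y' p y = fing t (Y p y) (d y - (2 * e + 1)) := by intro y; simp [hY', hYp]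
  have hk' : ∀ k ∈ F, k ≠ p → ∀ y, Y' k y = fing a (Y1 k y) (|Y' p y| - (2 * e + 1)) := by
    intro k hk hkp y; simp [hY', hk, hkp]
  have ho' : ∀ k, k ∉ F → k ≠ p → Y' k = Y k := by intro k hk hkp; simp [hY', hk, hkp]
  have ha0 : 0 ≤ a := by linarith
  have big : ∀ y, -lam ≤ min (b y) (min (L - d y) (t + 3 * e + 1 + 2 * lam - Y p y)) →
      -lam ≤ b y ∧ d y ≤ L + lam ∧ Y p y ≤ t + 3 * e + 1 + 3 * lam ∧ sc < Y p y := by
    intro y h
    rw [le_min_iff, le_min_iff] at h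
    refine ⟨h.1, by linarith [h.2.1], by linarith [h.2.2], ?_⟩
    by_contra h1
    have := hbot y (not_lt.1 h1)
    linarith [h.1]
  refine ⟨Y', fun y => min (b y) (min (L - d y) (t + 3 * e + 1 + 2 * lam - Y p y)), fun k => ?_,
    hb.min ((hd.const_sub _).min ((hY p).const_sub _)), fun k y => ?_, ho',
    fun y h0 h => ?_, fun y h k hk => ?_, fun y h h' hk => ?_⟩
  · rw [hY']
    simp only
    split_ifs
    · exact hYpl
    · exact (hY1l k).fing (hYpl.abs.sub_const _) a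
    · exact hY k
  · by_cases hkp : k = p
    · rw [hkp, hp']
      have h1 := rt_le ht (Y p y) (d y - (2 * e + 1))
      have h2 := rt_ge t (Y p y) (d y - (2 * e + 1))
      exact abs_le.2 ⟨by linarith, by linarith⟩
    · by_cases hk : k ∈ F
      · rw [hk' k hk hkp]
        have h1 := rt_le ha0 (Y1 k y) (|Y' p y| - (2 * e + 1))
        have h2 := rt_ge a (Y1 k y) (|Y' p y| - (2 * e + 1))
        have h3 := abs_le.1 (hY1d k y)
        exact abs_le.2 ⟨by linarith, by linarith⟩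
      · rw [ho' k hk hkp, sub_self, abs_zero]
        linarith
  · have h1 : d y ≤ e := by
      refine hd2 y e fun k hk => ?_
      obtain ⟨hkp, hk⟩ := Finset.mem_erase.1 hk
      have h2 := h k hk
      rw [hk' k hk hkp] at h2
      exact rt_low h2 (by linarith)
    rw [hp'] at h0
    have h2 := abs_le.1 (rt_low h0 (by linarith))
    have h3 := htop y (by linarith)
    exact le_min (by linarith) (le_min (by linarith) (by linarith))
  · obtain ⟨-, h1, h2, h3⟩ := big y h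
    by_cases hkp : k = p
    · rw [hkp, hp']
      have h4 := rt_le ht (Y p y) (d y - (2 * e + 1))
      have h5 := rt_ge t (Y p y) (d y - (2 * e + 1))
      exact ⟨abs_le.2 ⟨by linarith, by linarith⟩, abs_le.2 ⟨by linarith, by linarith⟩⟩
    · have hk : k ∈ F := hk.resolve_right hkp
      rw [hk' k hk hkp]
      have h4 := rt_le ha0 (Y1 k y) (|Y' p y| - (2 * e + 1))
      have h5 := rt_ge a (Y1 k y) (|Y' p y| - (2 * e + 1))
      have h6 := abs_le.1 (hY1d k y)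
      have h7 := abs_le.1 ((hd1 k (Finset.mem_erase.2 ⟨hkp, hk⟩) y).trans h1)
      exact ⟨abs_le.2 ⟨by linarith, by linarith⟩, abs_le.2 ⟨by linarith, by linarith⟩⟩
  · obtain ⟨h0, h1, -, h3⟩ := big y h
    obtain ⟨k, hk, hke⟩ := hk
    have h4 : |Y' p y| ≤ 3 * e + 1 := by
      by_cases hkp : k = p
      · rw [hkp] at hke
        linarith
      · rw [hk' k hk hkp] at hke
        have h7 := abs_le.1 ((hd1 k (Finset.mem_erase.2 ⟨hkp, hk⟩) y).trans h1)
        have := fing_side hke (by linarith)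
        linarith
    rw [hp'] at h4
    have h5 := fing_side h4 (by linarith)
    have h6 := rt_ge t (Y p y) (d y - (2 * e + 1))
    have h7 := (abs_le.1 h4).2
    have h8 : b y < 2 * lam := by
      rcases min_lt_iff.1 h' with h9 | h9
      · exact h9
      · rcases min_lt_iff.1 h9 with h9 | h9 <;> linarith
    have h9 := hd1 c hcF y
    simp only [hY1c, add_sub_cancel_right] at h9
    exact ⟨by linarith, abs_le.2 ⟨by linarith, by linarith⟩⟩

/-- The points close to a wall. -/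
def Wl (σ : ℝ) (I : Finset ℕ) (Z : ℕ → X → ℝ) : Set X := {y | ∃ k ∈ I, |Z k y| ≤ σ}

/-- The points that are not close to all the walls of a set of at least two walls outside the
list. -/
def NoBig (T : ℝ) (I : Finset ℕ) (Ls : List (Finset ℕ)) (Y : ℕ → X → ℝ) : Set X :=
  {y | ∀ F ⊆ I, 2 ≤ F.card → F ∉ Ls → ∃ k ∈ F, T < |Y k y|}

/-- The statement of the root recursion. -/
def RootP (Rs : (J → ℕ → Set X) → Set (Set X)) (q K : ℕ) (D : ℝ → ℝ → ℝ) (σ : ℝ) (I : Finset ℕ)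
    (Ls : List (Finset ℕ)) (x : ℝ × ℝ × ℝ) (W : J → ℕ → Set X) : Prop :=
  3 * σ ≤ x.1 ∧ 0 ≤ x.2.1 ∧ ∀ f Y : ℕ → X → ℝ, (∀ k, Lip (f k)) → (∀ k, Lip (Y k)) →
    ∃ (Z : ℕ → X → ℝ) (Rm : Set X) (τ : X → Finset ℕ), (∀ k, Lip (Z k)) ∧
      (∀ k y, |Z k y - Y k y| ≤ x.1) ∧
      (∀ S ∈ Rs W, ∀ C : Set X, Light D x.2.2 f I C → Coll q K σ x.2.1
        {y | y ∈ S ∧ y ∈ C ∧ y ∈ Wl σ I Z ∧ y ∈ Rm ∧ y ∈ NoBig x.1 I Ls Y}) ∧
      (∀ y y', y ∈ Wl σ I Z ∧ y ∈ NoBig x.1 I Ls Y ∧ y ∉ Rm →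
        y' ∈ Wl σ I Z ∧ y' ∈ NoBig x.1 I Ls Y ∧ y' ∉ Rm → dist y y' ≤ σ → τ y = τ y') ∧
      (∀ y, y ∈ Wl σ I Z ∧ y ∈ NoBig x.1 I Ls Y ∧ y ∉ Rm →
        (∀ k ∈ τ y, |Z k y| ≤ x.1) ∧ ∀ k ∈ I, k ∉ τ y → σ < |Z k y|)

theorem rt_nil (Rs : (J → ℕ → Set X) → Set (Set X)) (q : ℕ) (D : ℝ → ℝ → ℝ) {σ : ℝ} (hσ : 0 < σ)
    (I : Finset ℕ) (W : J → ℕ → Set X) : RootP Rs q 0 D σ I [] (3 * σ, 0, 0) W := by
  classical
  refine ⟨le_rfl, le_rfl, fun f Y _ hY => ⟨Y, ∅, fun y => I.filter fun k => |Y k y| ≤ σ, hY,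
    fun k y => by simp; positivity, fun S _ C _ => coll_empty _ _ _ _ fun y hy => hy.2.2.2.1,
    ?_, fun y _ => ⟨fun k hk => ?_, fun k hk hk' => ?_⟩⟩⟩
  · have one : ∀ y ∈ NoBig (3 * σ) I [] Y, ∀ k ∈ I, ∀ k' ∈ I, |Y k y| ≤ 3 * σ →
        |Y k' y| ≤ 3 * σ → k = k' := by
      intro y hy k hk k' hk' h1 h2
      by_contra hne
      obtain ⟨j, hj, h3⟩ := hy {k, k'} (by intro j hj; simp at hj; rcases hj with rfl | rfl <;> assumption)
        (by rw [Finset.card_pair hne]) (by simp)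
      simp at hj
      rcases hj with rfl | rfl <;> linarith
    have sub : ∀ y y', y ∈ NoBig (3 * σ) I [] Y → y' ∈ Wl σ I Y → dist y y' ≤ σ →
        ∀ k ∈ I, |Y k y| ≤ σ → |Y k y'| ≤ σ := by
      rintro y y' hy ⟨k', hk', h1⟩ hd k hk h2
      have h3 := (hY k').abs y y'
      simp only at h3
      rwa [one y hy k hk k' hk' (by linarith) (by linarith)]
    intro y y' hy hy' hd
    ext k
    simp only [Finset.mem_filter]
    exact ⟨fun h => ⟨h.1, sub y y' hy.2.1 hy'.1 hd k h.1 h.2⟩,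
      fun h => ⟨h.1, sub y' y hy'.2.1 hy.1 (by rwa [dist_comm]) k h.1 h.2⟩⟩
  · have := (Finset.mem_filter.1 hk).2
    simp only
    linarith
  · by_contra h
    exact hk' (Finset.mem_filter.2 ⟨hk, not_lt.1 h⟩)

theorem root {Rs : (J → ℕ → Set X) → Set (Set X)} {q : ℕ} (hq : 2 ≤ q)
    (ho : Orc Rs (q + 1)) (I : Finset ℕ) (Ls : List (Finset ℕ))
    (h1 : ∀ F ∈ Ls, 2 ≤ F.card ∧ F ⊆ I) (h2 : Ls.Pairwise fun F F' => F'.card ≤ F.card) :
    ∃ K : ℕ, ∀ (D : ℝ → ℝ → ℝ) (σ : ℝ), 0 < σ → Ach (RootP Rs q K D σ I Ls) := by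
  classical
  obtain ⟨K2, hK2⟩ := dense Rs hq ho I
  induction Ls with
  | nil => exact ⟨0, fun D σ hσ => Ach.pure _ (rt_nil Rs q D hσ I)⟩
  | cons F Ls ih =>
  obtain ⟨K1, hK1⟩ := ih (fun F hF => h1 F (List.mem_cons_of_mem _ hF)) (List.pairwise_cons.1 h2).2
  obtain ⟨hF2, hFI⟩ := h1 F List.mem_cons_self
  obtain ⟨c, hc, p, hp, hcp⟩ := Finset.one_lt_card.1 hF2
  refine ⟨K1 + (1 + K1 * (q + 1)) * K2, fun D σ hσ => (hK1 D σ hσ).bind ?_⟩
  rintro ⟨T1, μ1, rm1⟩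
  obtain ⟨e, he⟩ : ∃ e, e = |T1| + σ := ⟨_, rfl⟩
  obtain ⟨lam, hlam⟩ : ∃ lam, lam = 2 * σ + 4 * |μ1| + 1 := ⟨_, rfl⟩
  obtain ⟨L, hL⟩ : ∃ L, L = 5 * e + 2 + 2 * lam := ⟨_, rfl⟩
  obtain ⟨a, ha⟩ : ∃ a, a = L + lam + e + 1 := ⟨_, rfl⟩
  obtain ⟨sc, hsc⟩ : ∃ sc, sc = L + lam + σ + 4 * |μ1| := ⟨_, rfl⟩
  have a1 := abs_nonneg T1
  have a2 := abs_nonneg μ1
  refine (hK2 D sc (by linarith)).imp ?_
  rintro ⟨T2, t, μ2, rm2⟩
  refine ⟨(T1 + T2 + a + L + t + 3 * e + 1 + 3 * lam + σ, 2 * μ1 + μ2, max rm1 rm2), ?_⟩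
  rintro W ⟨hT2, ht, hμ2, hch⟩ ⟨hT1, hμ1, hre⟩
  simp only at hT2 ht hμ2 hch hT1 hμ1 hre
  rw [abs_of_nonneg hμ1] at hlam hsc
  rw [abs_of_nonneg (by linarith : 0 ≤ T1)] at he
  refine ⟨by simp only; linarith, by simp only; linarith, fun f Y hf hY => ?_⟩
  obtain ⟨u', b, hu', hb, hu, htop, hbot, hC2⟩ :=
    hch f (fun y => Y c y - a) (Y p) hf ((hY c).sub_const a) (hY p)
  obtain ⟨Y', bF, hY', hbF, s1, s2, s3, s4, s5⟩ := rt_fun hc hcp hY hu' hb (e := e) (lam := lam)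
    (sc := sc) (by linarith) (by linarith) hL ha (by linarith) hT2 ht hu htop hbot
  obtain ⟨Z, Rm, τ, hZ, hZY, hC1, hτ1, hτ2⟩ := hre f Y' hf hY'
  obtain ⟨T, hT⟩ : ∃ T, T = T1 + T2 + a + L + t + 3 * e + 1 + 3 * lam + σ := ⟨_, rfl⟩
  simp only [← hT]
  have nb : ∀ y ∈ NoBig T I (F :: Ls) Y, bF y ≤ σ → y ∈ NoBig T1 I Ls Y' := by
    intro y hy hb F' hF' hc' hn
    by_cases hFF : F' = F
    · by_contra hno
      push Not at hno
      rw [hFF] at hno
      have := s3 y (by linarith [hno p hp]) fun k hk => by linarith [hno k hk]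
      linarith
    · obtain ⟨k, hk, h3⟩ := hy F' hF' hc' (by simp [hFF, hn])
      refine ⟨k, hk, ?_⟩
      have h4 := s1 k y
      have h5 := abs_sub_abs_le_abs_sub (Y k y) (Y' k y)
      rw [abs_sub_comm] at h4
      linarith
  have out : ∀ y ∈ NoBig T I (F :: Ls) Y, -lam ≤ bF y → ∀ k ∈ I, k ∉ F → σ < |Z k y| := by
    intro y hy hb k hk hkF
    by_contra hno
    have hcard := Finset.card_insert_of_notMem hkF
    obtain ⟨j, hj, h3⟩ := hy (insert k F) (Finset.insert_subset hk hFI) (by omega) (by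
      intro hm
      rcases List.mem_cons.1 hm with hm | hm
      · rw [hm] at hcard
        omega
      · have := (List.pairwise_cons.1 h2).1 _ hm
        omega)
    rcases Finset.mem_insert.1 hj with rfl | hj
    · have h4 := hZY j y
      rw [s2 j hkF fun e => hkF (e ▸ hp)] at h4
      have h5 := abs_sub_abs_le_abs_sub (Y j y) (Z j y)
      rw [abs_sub_comm] at h4
      linarith [not_lt.1 hno]
    · linarith [(s4 y hb j (Or.inl hj)).2]
  refine ⟨Z, {y | |bF y| ≤ σ ∨ (bF y < -σ ∧ y ∈ Rm)}, fun y => if σ < bF y then F else τ y, hZ,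
    fun k y => ?_, fun S hS C hC => ?_, fun y y' hy hy' hd => ?_, fun y hy => ?_⟩
  · have h3 := hZY k y
    have h4 := s1 k y
    have h5 := abs_sub_le (Z k y) (Y' k y) (Y k y)
    linarith
  · have hle : ∀ y : X, y ∈ {y | |bF y| ≤ σ ∨ (bF y < -σ ∧ y ∈ Rm)} → bF y ≤ σ := by
      rintro y (h | h)
      · exact (abs_le.1 h).2
      · linarith [h.1]
    refine Coll.union (r2 := sc) (a := -(lam / 2)) (δ := lam / 2) hbF
      ((hC1 S hS C (hC.le (le_max_left _ _))).mono le_rfl le_rfl le_rfl ?_)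
      ((hC2 S hS C (hC.le (le_max_right _ _))).mono le_rfl le_rfl le_rfl ?_) hμ1 hμ2
      (by linarith) (by linarith)
    · rintro y ⟨⟨h3, h4, h5, h6, h7⟩, h8⟩
      refine ⟨h3, h4, h5, ?_, nb y h7 (hle y h6)⟩
      rcases h6 with h6 | h6
      · linarith [(abs_le.1 h6).1]
      · exact h6.2
    · rintro y ⟨⟨h3, h4, ⟨k, hk, h5⟩, h6, h7⟩, h8⟩
      have h9 : -lam ≤ bF y := by linarith
      have hkF : k ∈ F := by
        by_contra hkF
        linarith [out y h7 h9 k hk hkF]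
      have h10 := hZY k y
      have h11 := abs_sub_abs_le_abs_sub (Y' k y) (Z k y)
      rw [abs_sub_comm] at h10
      exact ⟨h3, h4, s5 y h9 (by linarith [hle y h6]) ⟨k, hkF, by linarith⟩⟩
  · have key : ∀ y : X, y ∉ {y | |bF y| ≤ σ ∨ (bF y < -σ ∧ y ∈ Rm)} →
        σ < bF y ∨ (bF y < -σ ∧ y ∉ Rm) := by
      intro y hy
      simp only [Set.mem_ofPred_eq, not_or, not_and, not_le] at hy
      rcases lt_abs.1 hy.1 with h | h
      · exact Or.inl h
      · exact Or.inr ⟨by linarith, hy.2 (by linarith)⟩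
    have l1 := hbF y y'
    have l2 := hbF y' y
    rw [dist_comm] at l2
    rcases key y hy.2.2 with h3 | h3 <;> rcases key y' hy'.2.2 with h4 | h4
    · simp only [if_pos h3, if_pos h4]
    · linarith [h4.1]
    · linarith [h3.1]
    · simp only [if_neg (show ¬ σ < bF y by linarith [h3.1]),
        if_neg (show ¬ σ < bF y' by linarith [h4.1])]
      exact hτ1 y y' ⟨hy.1, nb y hy.2.1 (by linarith [h3.1]), h3.2⟩
        ⟨hy'.1, nb y' hy'.2.1 (by linarith [h4.1]), h4.2⟩ hd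
  · by_cases h3 : σ < bF y
    · simp only [if_pos h3]
      refine ⟨fun k hk => ?_, out y hy.2.1 (by linarith)⟩
      have h4 := (s4 y (by linarith) k (Or.inl hk)).1
      have h5 := hZY k y
      have h6 := abs_sub_abs_le_abs_sub (Z k y) (Y' k y)
      linarith
    · simp only [if_neg h3]
      have h4 : y ∉ Rm := by
        intro h4
        have h5 := hy.2.2
        simp only [Set.mem_ofPred_eq, not_or, not_and, not_le] at h5
        rcases lt_abs.1 h5.1 with h | h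
        · exact h3 h
        · exact h5.2 (by linarith) h4
      obtain ⟨h5, h6⟩ := hτ2 y ⟨hy.1, nb y hy.2.1 (not_lt.1 h3), h4⟩
      exact ⟨fun k hk => by linarith [h5 k hk], h6⟩

theorem rt_list (I : Finset ℕ) : ∃ Ls : List (Finset ℕ), (∀ F ∈ Ls, 2 ≤ F.card ∧ F ⊆ I) ∧
    (Ls.Pairwise fun F F' => F'.card ≤ F.card) ∧ ∀ F ⊆ I, 2 ≤ F.card → F ∈ Ls := by
  classical
  let l0 := (I.powerset.filter fun F => 2 ≤ F.card).toList
  let l := l0.mergeSort fun F F' => decide (F'.card ≤ F.card)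
  have hm : ∀ F, F ∈ l ↔ F ⊆ I ∧ 2 ≤ F.card := fun F => by simp [l, l0]
  refine ⟨l, fun F hF => ((hm F).1 hF).symm, ?_, fun F h1 h2 => (hm F).2 ⟨h1, h2⟩⟩
  have h1 : l.Pairwise fun F F' => decide (F'.card ≤ F.card) = true :=
    List.pairwise_mergeSort (fun a b c h h' => by simp at *; omega)
      (fun a b => by simp; omega) l0
  exact h1.imp fun h => by simpa using h

/-- What is left of the leaves after the removal of the first `m` sets of their hosts. -/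
def Rems {ι : Type*} (L : ι → Set X) (host : ι → J) (m : ℕ) (W : J → ℕ → Set X) : Set (Set X) :=
  {S | ∃ i, S = {x | x ∈ L i ∧ ∀ a < m, x ∉ W (host i) a}}

theorem orc_step {ι : Type*} (L : ι → Set X) (H : J → Set X) (host : ι → J)
    (hLH : ∀ i, L i ⊆ H (host i)) {b : ℕ} (hH : ∀ ρ : ℝ, ∃ M : ℝ, ∀ j, Col b ρ M (H j)) {q m : ℕ}
    (hq : 2 ≤ q) (ho : Orc (Rems L host m) (q + 1)) : Orc (Rems L host (m + 2)) q := by
  classical
  choose Mf hMf using hH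
  obtain ⟨D, hD⟩ := exists_light (X := X) b Mf
  obtain ⟨Ls, l1, l2, l3⟩ := rt_list (Finset.range b)
  obtain ⟨K, hK⟩ := root hq ho (Finset.range b) Ls l1 l2
  refine ⟨K, fun r R => ?_⟩
  obtain ⟨σ, hσ⟩ : ∃ σ, σ = max (max r R) 1 := ⟨_, rfl⟩
  have hσ1 : 1 ≤ σ := hσ ▸ le_max_right _ _
  have hσr : r ≤ σ := hσ ▸ (le_max_left _ _).trans (le_max_left _ _)
  have hσR : R ≤ σ := hσ ▸ (le_max_right _ _).trans (le_max_left _ _)
  obtain ⟨M, W, ⟨T, μ, rm⟩, hW, hP⟩ := hK D σ (by linarith) R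
  obtain ⟨hT, -, hP⟩ := hP W fun _ _ => subset_rfl
  simp only at hT hP
  obtain ⟨s, hs⟩ : ∃ s, s = 4 * T + σ + 1 := ⟨_, rfl⟩
  obtain ⟨z, hz⟩ := exists_zig (s := s) (by linarith)
  choose f hf hli using fun j => hD (max rm (2 * s)) (H j) fun ρ => hMf ρ j
  choose Z Rm τ hZ hZY hC hτ1 hτ2 using fun j =>
    hP (f j) (fun k x => z (f j k x)) (hf j) fun k => hz.lip (hf j k)
  have nb : ∀ j y, y ∈ NoBig T (Finset.range b) Ls fun k x => z (f j k x) :=
    fun j y F h1 h2 h3 => (h3 (l3 F h1 h2)).elim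
  refine ⟨max M (D σ (2 * s)), fun j a => if a = m then {x | x ∈ H j ∧ x ∉ Wl σ (Finset.range b) (Z j)}
    else if a = m + 1 then {x | x ∈ H j ∧ x ∈ Wl σ (Finset.range b) (Z j) ∧ x ∉ Rm j} else W j a, μ,
    fun j a => ?_, ?_⟩
  · dsimp only
    split_ifs
    · refine ((hli j).tame hz (hf j) (hZ j) (hZY j) (fun x hx => hx.1) (fun _ => ∅)
        (fun _ _ _ _ _ => rfl) (fun _ _ k hk => by simp at hk) (fun x hx k hk _ => ?_)
        (by linarith) (by linarith) (by linarith) (le_max_right _ _)).mono hσR (le_max_right _ _)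
        subset_rfl
      by_contra h
      exact hx.2 ⟨k, hk, not_lt.1 h⟩
    · exact ((hli j).tame hz (hf j) (hZ j) (hZY j) (fun x hx => hx.1) (τ j)
        (fun x hx y hy hd => hτ1 j x y ⟨hx.2.1, nb j x, hx.2.2⟩ ⟨hy.2.1, nb j y, hy.2.2⟩ hd)
        (fun x hx => (hτ2 j x ⟨hx.2.1, nb j x, hx.2.2⟩).1)
        (fun x hx => (hτ2 j x ⟨hx.2.1, nb j x, hx.2.2⟩).2)
        (by linarith) (by linarith) (by linarith) (le_max_right _ _)).mono hσR (le_max_right _ _)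
        subset_rfl
    · exact (hW j a).mono le_rfl (le_max_left _ _) subset_rfl
  · rintro W' hW' _ ⟨i, rfl⟩
    refine (hC (host i) _ ⟨i, rfl⟩ (H (host i)) ((hli _).le (le_max_left _ _))).mono le_rfl hσr
      le_rfl ?_
    rintro x ⟨hx, hx'⟩
    have hxH := hLH i hx
    have h1 : x ∈ Wl σ (Finset.range b) (Z (host i)) := by
      by_contra h
      exact hx' m (by omega) (hW' _ m (by simp only [if_true]; exact ⟨hxH, h⟩))
    have h2 : x ∈ Rm (host i) := by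
      by_contra h
      refine hx' (m + 1) (by omega) (hW' _ (m + 1) ?_)
      simp only [if_true, if_neg (Nat.succ_ne_self m)]
      exact ⟨hxH, h1, h⟩
    refine ⟨⟨hx, fun a ha h => hx' a (by omega) (hW' _ a ?_)⟩, hxH, h1, h2, nb _ x⟩
    simp only [if_neg ha.ne, if_neg (show a ≠ m + 1 by omega)]
    exact h

end Pool.Agent.Apc.Trap
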