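import Pool.Agent.Lib.MP_4f4e79_gt.Abel

namespace Pool.Agent.Apc

universe v

theorem exists_quot_metric {G Q : Type*} [Group G] [Group Q] [PseudoMetricSpace G]
    [IsIsometricSMul G G] (hG : ∀ r, (Metric.closedBall (1 : G) r).Finite) (π : G →* Q)
    (hπ : Function.Surjective π) :
    ∃ _ : PseudoMetricSpace Q, IsIsometricSMul Q Q ∧ ∀ r, (Metric.closedBall (1 : Q) r).Finite := by
  let len : Q → ℝ := fun q => sInf ((fun g : G => dist 1 g) '' {g | π g = q})
  have hne : ∀ q, ((fun g : G => dist 1 g) '' {g | π g = q}).Nonempty := fun q => by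
    obtain ⟨g, hg⟩ := hπ q
    exact ⟨_, g, hg, rfl⟩
  have hbd : ∀ q, BddBelow ((fun g : G => dist 1 g) '' {g | π g = q}) := fun q =>
    ⟨0, by rintro _ ⟨g, -, rfl⟩; exact dist_nonneg⟩
  have hle : ∀ g, len (π g) ≤ dist 1 g := fun g => csInf_le (hbd _) ⟨g, rfl, rfl⟩
  have hge : ∀ q c, (∀ g, π g = q → c ≤ dist 1 g) → c ≤ len q := fun q c h =>
    le_csInf (hne q) (by rintro _ ⟨g, hg, rfl⟩; exact h g hg)
  have hinv : ∀ q, len q⁻¹ ≤ len q := fun q => hge _ _ fun g hg => by
    rw [← hg, ← map_inv, ← len_inv]; exact hle _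
  have hmul : ∀ q q', len (q * q') ≤ len q + len q' := fun q q' => by
    have : len (q * q') - len q' ≤ len q := hge _ _ fun g hg => by
      have : len (q * q') - dist 1 g ≤ len q' := hge _ _ fun g' hg' => by
        have h1 := hle (g * g')
        rw [map_mul, hg, hg'] at h1
        have h2 := len_mul g g'
        linarith
      linarith
    linarith
  let d : PseudoMetricSpace Q :=
    { dist := fun a b => len (a⁻¹ * b)
      dist_self := fun a => by
        rw [inv_mul_cancel]
        refine le_antisymm ?_ (hge _ _ fun _ _ => dist_nonneg)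
        simpa using hle 1
      dist_comm := fun a b => by
        refine le_antisymm ?_ ?_
        · simpa using hinv (b⁻¹ * a)
        · simpa using hinv (a⁻¹ * b)
      dist_triangle := fun a b c => by
        simpa [mul_assoc] using hmul (a⁻¹ * b) (b⁻¹ * c) }
  refine ⟨d, ⟨fun g => Isometry.of_dist_eq fun a b => ?_⟩, fun r => ?_⟩
  · change len ((g * a)⁻¹ * (g * b)) = len (a⁻¹ * b)
    congr 1
    group
  · refine ((hG (r + 1)).image π).subset fun q hq => ?_
    have h1 : len (1⁻¹ * q) ≤ r := Metric.mem_closedBall'.1 hq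
    rw [inv_one, one_mul] at h1
    obtain ⟨_, ⟨g, hg, rfl⟩, h2⟩ := exists_lt_of_csInf_lt (hne q) (h1.trans_lt (lt_add_one r))
    exact ⟨g, Metric.mem_closedBall'.2 h2.le, hg⟩

theorem pull_of_comm {G H : Type*} [Group G] [Group H] [PseudoMetricSpace G]
    [PseudoMetricSpace H] [IsIsometricSMul G G] [IsIsometricSMul H H]
    (hG : ∀ r, (Metric.closedBall (1 : G) r).Finite)
    (hH : ∀ r, (Metric.closedBall (1 : H) r).Finite) (p : G →* H)
    (hc : ∀ a ∈ p.ker, ∀ b ∈ p.ker, a * b = b * a) : Pull p :=
  pull_of_lc (expans_hom hG p) (lc_of_comm hG hH p hc)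

theorem pull_of_iter {G : Type v} [Group G] [PseudoMetricSpace G] [IsIsometricSMul G G]
    (hG : ∀ r, (Metric.closedBall (1 : G) r).Finite) (n : ℕ) :
    ∀ (N : Subgroup G), (fun K : Subgroup G => ⁅K, K⁆)^[n] N = ⊥ →
    ∀ {H : Type v} [Group H] [PseudoMetricSpace H] [IsIsometricSMul H H]
      (_ : ∀ r, (Metric.closedBall (1 : H) r).Finite) (p : G →* H),
      Function.Surjective p → p.ker = N → Pull p := by
  induction n with
  | zero =>
    intro N hN H _ _ _ hH p _ hp
    refine pull_of_comm hG hH p fun a ha b hb => ?_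
    rw [hp, show N = ⊥ from hN, Subgroup.mem_bot] at ha hb
    rw [ha, hb]
  | succ n ih =>
    intro N hN H _ _ _ hH p hs hp
    subst hp
    let K : Subgroup G := ⁅p.ker, p.ker⁆
    have hK : K ≤ p.ker := Subgroup.commutator_le_left _ _
    obtain ⟨d, hd1, hd2⟩ := exists_quot_metric hG (QuotientGroup.mk' K)
      (QuotientGroup.mk'_surjective K)
    have h1 : Pull (QuotientGroup.mk' K) :=
      ih K hN hd2 (QuotientGroup.mk' K) (QuotientGroup.mk'_surjective K) (QuotientGroup.ker_mk' K)
    have h2 : Pull (QuotientGroup.lift K p hK) := by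
      refine pull_of_comm hd2 hH _ fun a ha b hb => ?_
      obtain ⟨a, rfl⟩ := QuotientGroup.mk'_surjective K a
      obtain ⟨b, rfl⟩ := QuotientGroup.mk'_surjective K b
      have ha' : a ∈ p.ker := by simpa using ha
      have hb' : b ∈ p.ker := by simpa using hb
      rw [← map_mul, ← map_mul, QuotientGroup.mk'_apply, QuotientGroup.mk'_apply,
        QuotientGroup.eq]
      have := Subgroup.commutator_mem_commutator (inv_mem hb') (inv_mem ha')
      simpa [commutatorElement_def, mul_assoc] using this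
    exact h2.comp h1

theorem pull_of_solvable {G H : Type*} [Group G] [Group H] [PseudoMetricSpace G]
    [PseudoMetricSpace H] [IsIsometricSMul G G] [IsIsometricSMul H H]
    (hG : ∀ r, (Metric.closedBall (1 : G) r).Finite)
    (hH : ∀ r, (Metric.closedBall (1 : H) r).Finite) (p : G →* H) [hs : Group.IsSolvable p.ker] :
    Pull p := by
  obtain ⟨n, hn⟩ := hs.solvable
  have h0 : ∀ k, Subgroup.map p.ker.subtype (derivedSeries p.ker k) =
      (fun K : Subgroup G => ⁅K, K⁆)^[k] p.ker := by
    intro k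
    induction k with
    | zero => simp [← MonoidHom.range_eq_map]
    | succ k ih => rw [derivedSeries_succ, Subgroup.map_commutator, ih, Function.iterate_succ_apply']
  have hN := h0 n
  rw [hn, Subgroup.map_bot] at hN
  obtain ⟨d, hd1, hd2⟩ := exists_quot_metric hG (QuotientGroup.mk' p.ker)
    (QuotientGroup.mk'_surjective _)
  have h1 : Pull (QuotientGroup.mk' p.ker) :=
    pull_of_iter hG n p.ker hN.symm hd2 _ (QuotientGroup.mk'_surjective _) (QuotientGroup.ker_mk' _)
  have h2 : Pull (QuotientGroup.kerLift p) := by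
    refine pull_of_comm hd2 hH _ fun a ha b hb => ?_
    rw [(MonoidHom.ker_eq_bot_iff _).2 (QuotientGroup.kerLift_injective p), Subgroup.mem_bot]
      at ha hb
    rw [ha, hb]
  exact h2.comp h1

end Pool.Agent.Apc
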