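import Pool.Agent.Lib.MP_4f4e79_gt.Solv

namespace Pool.Agent.Results.MP_4f4e79_gt.SolvableKernel

open Pool.Agent.Apc

universe u v w

/-- Fibering without increase of level for homomorphisms with solvable kernel between groups
with proper left-invariant metrics. -/
theorem result {G : Type u} {H : Type v} [Group G] [Group H] [MetricSpace G] [MetricSpace H]
    (hGinv : ∀ g x y : G, dist (g * x) (g * y) = dist x y)
    (hHinv : ∀ g x y : H, dist (g * x) (g * y) = dist x y)
    (hG : ∀ r : ℝ, (Metric.closedBall (1 : G) r).Finite)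
    (hH : ∀ r : ℝ, (Metric.closedBall (1 : H) r).Finite)
    (p : G →* H) (hp : Group.IsSolvable p.ker)
    (α : Ordinal.{w}) (hα : 0 < α) (𝒴 : Set (Set H)) (h𝒴 : Cls α 𝒴) :
    Cls α ((fun B => p ⁻¹' B) '' 𝒴) := by
  have : IsIsometricSMul G G := ⟨fun g => Isometry.of_dist_eq (hGinv g)⟩
  have : IsIsometricSMul H H := ⟨fun g => Isometry.of_dist_eq (hHinv g)⟩
  exact cls_pull (expans_hom hG p) (pull_of_solvable hG hH p) α hα 𝒴 h𝒴

end Pool.Agent.Results.MP_4f4e79_gt.SolvableKernel
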