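import Pool.Agent.Lib.MP_4f4e79_gt.Defs

namespace Pool.Agent.Apc

universe u

variable {X Y : Type*} [PseudoMetricSpace X] [PseudoMetricSpace Y]

theorem cls_iff (α : Ordinal.{u}) (𝒳 : Set (Set X)) :
    Cls α 𝒳 ↔ (α = 0 → BddFam 𝒳) ∧
      (0 < α → ∀ R : ℕ → ℝ, (∀ i, 0 < R i) →
        ∃ β : Ordinal.{u}, ∃ _ : β < α, ∃ 𝒴 : Set (Set X), Cls β 𝒴 ∧ Decomp R 𝒳 𝒴) := by
  unfold Cls
  rw [WellFoundedLT.fix_eq]

theorem cls_zero (𝒳 : Set (Set X)) : Cls (0 : Ordinal.{u}) 𝒳 ↔ BddFam 𝒳 := by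
  rw [cls_iff]; simp

theorem cls_pos {α : Ordinal.{u}} (hα : 0 < α) (𝒳 : Set (Set X)) :
    Cls α 𝒳 ↔ ∀ R : ℕ → ℝ, (∀ i, 0 < R i) →
        ∃ β : Ordinal.{u}, β < α ∧ ∃ 𝒴 : Set (Set X), Cls β 𝒴 ∧ Decomp R 𝒳 𝒴 := by
  rw [cls_iff]; simp [hα, hα.ne']

/-- `r`-chains inside `T`. -/
def Chain (r : ℝ) (T : Set X) : X → X → Prop :=
  Relation.ReflTransGen fun a b => a ∈ T ∧ b ∈ T ∧ dist a b ≤ r

/-- All `r`-chains in `T` have end points within `M`. -/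
def Thin (r M : ℝ) (T : Set X) : Prop := ∀ x y, Chain r T x y → dist x y ≤ M

theorem Chain.refl {r : ℝ} {T : Set X} (x : X) : Chain r T x x := Relation.ReflTransGen.refl

theorem Chain.tail {r : ℝ} {T : Set X} {x a b : X} (h : Chain r T x a) (ha : a ∈ T) (hb : b ∈ T)
    (hab : dist a b ≤ r) : Chain r T x b := Relation.ReflTransGen.tail h ⟨ha, hb, hab⟩

theorem Chain.trans {r : ℝ} {T : Set X} {x y z : X} (h : Chain r T x y) (h' : Chain r T y z) :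
    Chain r T x z := Relation.ReflTransGen.trans h h'

theorem Chain.symm {r : ℝ} {T : Set X} {x y : X} (h : Chain r T x y) : Chain r T y x := by
  induction h with
  | refl => exact Chain.refl _
  | tail _ hab ih =>
    exact Chain.trans ((Chain.refl _).tail hab.2.1 hab.1 (by rw [dist_comm]; exact hab.2.2)) ih

theorem Chain.mono {r r' : ℝ} {T T' : Set X} {x y : X} (h : Chain r T x y) (hr : r ≤ r')
    (hT : T ⊆ T') : Chain r' T' x y := by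
  induction h with
  | refl => exact Chain.refl _
  | tail _ hab ih => exact Chain.tail ih (hT hab.1) (hT hab.2.1) (hab.2.2.trans hr)

theorem Chain.mem {r : ℝ} {T : Set X} {x y : X} (h : Chain r T x y) (hx : x ∈ T) : y ∈ T := by
  induction h with
  | refl => exact hx
  | tail _ hab _ => exact hab.2.1

theorem Chain.eq_or_mem {r : ℝ} {T : Set X} {x y : X} (h : Chain r T x y) : x = y ∨ x ∈ T := by
  induction h with
  | refl => exact Or.inl rfl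
  | tail _ hab ih =>
    rcases ih with rfl | ih
    · exact Or.inr hab.1
    · exact Or.inr ih

theorem Chain.map {r s : ℝ} {T : Set X} {T' : Set Y} {f : X → Y} {x y : X} (h : Chain r T x y)
    (hf : ∀ a b, dist a b ≤ r → dist (f a) (f b) ≤ s) (hT : ∀ a ∈ T, f a ∈ T') :
    Chain s T' (f x) (f y) := by
  induction h with
  | refl => exact Chain.refl _
  | tail _ hab ih => exact Chain.tail ih (hT _ hab.1) (hT _ hab.2.1) (hf _ _ hab.2.2)

theorem Chain.refine {r : ℝ} {T T' : Set X} {x0 x : X} (h : Chain r T x0 x)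
    (h0 : x0 ∈ T → x0 ∈ T')
    (hs : ∀ a b, Chain r T x0 b → Chain r T' x0 a → a ∈ T' → a ∈ T → b ∈ T → dist a b ≤ r →
      b ∈ T') : Chain r T' x0 x := by
  have : Chain r T' x0 x ∧ (x ∈ T → x ∈ T') := by
    induction h with
    | refl => exact ⟨Chain.refl _, h0⟩
    | tail hc hab ih =>
      have ha := ih.2 hab.1
      have hb := hs _ _ (Chain.tail hc hab.1 hab.2.1 hab.2.2) ih.1 ha hab.1 hab.2.1 hab.2.2
      exact ⟨Chain.tail ih.1 ha hb hab.2.2, fun _ => hb⟩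
  exact this.1

theorem Thin.mono {r r' M M' : ℝ} {T T' : Set X} (h : Thin r M T) (hr : r' ≤ r) (hM : M ≤ M')
    (hT : T' ⊆ T) : Thin r' M' T' := fun x y hc => (h x y (hc.mono hr hT)).trans hM

theorem thin_empty (r : ℝ) {M : ℝ} (hM : 0 ≤ M) : Thin r M (∅ : Set X) := by
  intro x y h
  rcases h.eq_or_mem with rfl | h
  · simpa using hM
  · exact h.elim

/-- Uniform asymptotic property C in terms of chains. -/
def Apc1 (𝒳 : Set (Set X)) : Prop :=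
  ∀ R : ℕ → ℝ, ∃ (k : ℕ) (M : ℝ), ∀ A ∈ 𝒳, ∃ T : ℕ → Set X,
    (∀ i < k, Thin (R i) M (T i)) ∧ ∀ x ∈ A, ∃ i < k, x ∈ T i

theorem apc1_of_cls {𝒳 : Set (Set X)} (h : Cls (1 : Ordinal.{u}) 𝒳) : Apc1 𝒳 := by
  intro R
  obtain ⟨β, hβ, 𝒴, hY, k, -, hk⟩ :=
    (cls_pos zero_lt_one 𝒳).1 h (fun i => |R i| + 1) fun i => by positivity
  obtain rfl : β = 0 := Order.lt_one_iff.1 hβ
  obtain ⟨M, hM⟩ := (cls_zero 𝒴).1 hY
  refine ⟨k, max M 0, fun A hA => ?_⟩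
  obtain ⟨𝒰, h1, h2⟩ := hk A hA
  refine ⟨fun i => ⋃₀ 𝒰 i, fun i hi x y hc => ?_, fun x hx => ?_⟩
  · rcases hc.eq_or_mem with rfl | ⟨U, hU, hx⟩
    · simp
    · have : Chain (R i) U x y := by
        refine hc.refine (fun _ => hx) ?_
        rintro a b - - ha - ⟨V, hV, hb⟩ hab
        by_cases hUV : U = V
        · rwa [hUV]
        · have := (h1 i hi).2.2 U hU V hV hUV a ha b hb
          have h3 := le_abs_self (R i)
          linarith
      exact (hM U ((h1 i hi).1 hU) x hx y (this.mem hx)).trans (le_max_left _ _)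
  · obtain ⟨i, hi, U, hU, hx⟩ := h2 x hx
    exact ⟨i, hi, U, hU, hx⟩

theorem cls_of_apc1 {𝒳 : Set (Set X)} (h : Apc1 𝒳) : Cls (1 : Ordinal.{u}) 𝒳 := by
  refine (cls_pos zero_lt_one 𝒳).2 fun R _ => ?_
  obtain ⟨k, M, hk⟩ := h R
  refine ⟨0, zero_lt_one, {U | ∀ x ∈ U, ∀ y ∈ U, dist x y ≤ M},
    (cls_zero _).2 ⟨M, fun A hA => hA⟩, k + 1, by omega, fun A hA => ?_⟩
  obtain ⟨T, h1, h2⟩ := hk A hA
  refine ⟨fun i => {U | i < k ∧ ∃ x ∈ T i ∩ A, U = {y | Chain (R i) (T i ∩ A) x y}},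
    fun i _ => ⟨?_, ?_, ?_⟩, fun x hx => ?_⟩
  · rintro U ⟨hi, x, -, rfl⟩ a ha b hb
    exact h1 i hi a b ((Chain.trans (Chain.symm ha) hb).mono le_rfl Set.inter_subset_left)
  · rintro U ⟨-, x, hx, rfl⟩ a ha
    exact (Chain.mem ha hx).2
  · rintro U ⟨-, x, hx, rfl⟩ V ⟨-, y, hy, rfl⟩ hne a ha b hb
    by_contra hlt
    apply hne
    have hab : Chain (R i) (T i ∩ A) x y :=
      Chain.trans (Chain.tail ha (Chain.mem ha hx) (Chain.mem hb hy) (not_le.1 hlt).le)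
        (Chain.symm hb)
    ext z
    exact ⟨fun hz => Chain.trans hab.symm hz, fun hz => Chain.trans hab hz⟩
  · obtain ⟨i, hi, hxi⟩ := h2 x hx
    exact ⟨i, by omega, _, ⟨hi, x, ⟨hxi, hx⟩, rfl⟩, Chain.refl x⟩

theorem apc1_of_bdd {𝒳 : Set (Set X)} (h : BddFam 𝒳) : Apc1 𝒳 := by
  obtain ⟨M, hM⟩ := h
  intro R
  refine ⟨1, max M 0, fun A hA => ⟨fun _ => A, fun i _ x y hc => ?_, fun x hx => ⟨0, one_pos, hx⟩⟩⟩
  rcases hc.eq_or_mem with rfl | hx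
  · simp
  · exact (hM A hA x hx y (hc.mem hx)).trans (le_max_left _ _)

/-- Uniformly expansive maps. -/
def Expans (f : X → Y) : Prop := ∀ r : ℝ, ∃ s : ℝ, ∀ a b, dist a b ≤ r → dist (f a) (f b) ≤ s

/-- Uniform property C pulls back along `f`. -/
def Pull (f : X → Y) : Prop := ∀ 𝒴 : Set (Set Y), Apc1 𝒴 → Apc1 ((fun B => f ⁻¹' B) '' 𝒴)

theorem Pull.comp {Z : Type*} [PseudoMetricSpace Z] {f : X → Y} {g : Y → Z} (hg : Pull g)
    (hf : Pull f) : Pull (g ∘ f) := by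
  intro 𝒵 h
  have := hf _ (hg _ h)
  rwa [Set.image_image] at this

theorem cls_pull {f : X → Y} (he : Expans f) (hp : Pull f) (α : Ordinal.{u}) :
    0 < α → ∀ 𝒴 : Set (Set Y), Cls α 𝒴 → Cls α ((fun B => f ⁻¹' B) '' 𝒴) := by
  induction α using WellFoundedLT.induction with
  | ind α ih =>
  intro hα 𝒴 h
  rcases (Order.one_le_iff_pos.2 hα).eq_or_lt with rfl | h1
  · exact cls_of_apc1 (hp _ (apc1_of_cls h))
  refine (cls_pos hα _).2 fun R _ => ?_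
  choose ρ hρ using he
  obtain ⟨β, hβ, 𝒵, hZ, k, hk1, hk⟩ :=
    (cls_pos hα 𝒴).1 h (fun i => |ρ (R i)| + 1) fun i => by positivity
  have hd : Decomp R ((fun B => f ⁻¹' B) '' 𝒴) ((fun B => f ⁻¹' B) '' 𝒵) := by
    refine ⟨k, hk1, ?_⟩
    rintro _ ⟨A, hA, rfl⟩
    obtain ⟨𝒰, h2, h3⟩ := hk A hA
    refine ⟨fun i => (fun B => f ⁻¹' B) '' 𝒰 i, fun i hi => ⟨Set.image_mono (h2 i hi).1, ?_, ?_⟩,
      fun x hx => ?_⟩
    · rintro _ ⟨U, hU, rfl⟩
      exact Set.preimage_mono ((h2 i hi).2.1 U hU)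
    · rintro _ ⟨U, hU, rfl⟩ _ ⟨V, hV, rfl⟩ hne x hx y hy
      have hUV : U ≠ V := fun e => hne (by rw [e])
      have h4 := (h2 i hi).2.2 U hU V hV hUV _ hx _ hy
      by_contra hlt
      have h5 := hρ _ x y (not_le.1 hlt).le
      have h6 := le_abs_self (ρ (R i))
      linarith
    · obtain ⟨i, hi, U, hU, hx⟩ := h3 _ hx
      exact ⟨i, hi, _, ⟨U, hU, rfl⟩, hx⟩
  rcases (zero_le (a := β)).eq_or_lt with rfl | hβ0
  · exact ⟨1, h1, _, cls_of_apc1 (hp _ (apc1_of_bdd ((cls_zero _).1 hZ))), hd⟩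
  · exact ⟨β, hβ, _, ih β hβ hβ0 _ hZ, hd⟩

end Pool.Agent.Apc
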