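import Pool.Agent.Lib.MP_4f4e79_gt.FD

namespace Pool.Agent.Apc

universe u

/-- Two colours suffice for the distance function `δ`. -/
def Col1 {A : Type*} (δ : A → A → ℝ) : Prop :=
  ∀ s : ℝ, ∃ (M : ℝ) (κ : A → Bool), ∀ x y,
    Relation.ReflTransGen (fun a b => κ a = κ b ∧ δ a b ≤ s) x y → δ x y ≤ M

theorem col1_real : Col1 fun a b : ℝ => |b - a| := by
  intro s
  let σ : ℝ := |s| + 1
  have hσ : 0 < σ := by positivity
  refine ⟨σ, fun a => decide (⌊a / σ⌋ % 2 = 0), fun x y h => ?_⟩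
  have key : ⌊y / σ⌋ = ⌊x / σ⌋ := by
    induction h with
    | refl => rfl
    | @tail a b _ hab ih =>
      rw [← ih]
      have h1 := abs_le.1 hab.2
      have h4 := le_abs_self s
      have k : ∀ a b : ℝ, a ≤ b + σ → ⌊a / σ⌋ ≤ ⌊b / σ⌋ + 1 := by
        intro a b hab
        rw [← Int.floor_add_one]
        apply Int.floor_mono
        rw [div_add_one hσ.ne']
        exact div_le_div_of_nonneg_right hab hσ.le
      have h5 := k a b (by simp only [σ]; linarith)
      have h6 := k b a (by simp only [σ]; linarith)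
      have h7 := hab.1
      simp only [decide_eq_decide] at h7
      omega
  have h1 := Int.abs_sub_lt_one_of_floor_eq_floor key
  rw [← sub_div, abs_div, abs_of_pos hσ, div_lt_one hσ] at h1
  exact h1.le

theorem col1_rat : Col1 fun a b : ℚ => Rat.AbsoluteValue.real (b - a) := by
  intro s
  obtain ⟨M, κ, h⟩ := col1_real s
  refine ⟨M, fun a => κ a, fun x y hc => ?_⟩
  have := h x y (rtg_map (fun a : ℚ => (a : ℝ)) hc fun a b hab => ⟨hab.1, by simpa using hab.2⟩)
  simpa using this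

variable {L : Type*} [Field L] (v : AbsoluteValue L ℝ)

theorem col1_of_nonarch (hv : ∀ a b, v (a + b) ≤ max (v a) (v b)) :
    Col1 fun a b : L => v (b - a) := by
  intro s
  refine ⟨max s 0, fun _ => true, fun x y h => ?_⟩
  induction h with
  | refl => simp
  | @tail a b _ hab ih =>
    have := hv (a - x) (b - a)
    rw [sub_add_sub_cancel'] at this
    exact this.trans (max_le ih (hab.2.trans (le_max_left _ _)))

variable {G : Type u} [Group G] {m : ℕ} (ρ : G →* Matrix (Fin m) (Fin m) L)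

/-- The entries of `g` and of its inverse are bounded by `C`. -/
def Bd (C : ℝ) (g : G) : Prop := ∀ i j, v (ρ g i j) ≤ C ∧ v (ρ g⁻¹ i j) ≤ C

/-- The diagonal and the first `d` superdiagonals are bounded. -/
def Qd (d : ℕ) (C : ℝ) (g : G) : Prop :=
  (∀ i, v (ρ g i i) ≤ C ∧ v (ρ g⁻¹ i i) ≤ C) ∧
    ∀ j k : Fin m, (k : ℕ) ≤ j + d → v (ρ g j k) ≤ C

variable {v ρ}

theorem Bd.inv {C : ℝ} {g : G} (h : Bd v ρ C g) : Bd v ρ C g⁻¹ := fun i j => by
  rw [inv_inv]; exact (h i j).symm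

theorem tri_diag (hρ : ∀ g i j, j < i → ρ g i j = 0) (g h : G) (i : Fin m) :
    ρ (g * h) i i = ρ g i i * ρ h i i := by
  rw [map_mul, Matrix.mul_apply]
  refine Finset.sum_eq_single i (fun l _ hl => ?_) (by simp)
  rcases lt_or_gt_of_ne hl with h1 | h1
  · rw [hρ g i l h1, zero_mul]
  · rw [hρ h l i h1, mul_zero]

theorem tri_diag_inv (hρ : ∀ g i j, j < i → ρ g i j = 0) (g : G) (i : Fin m) :
    ρ g i i * ρ g⁻¹ i i = 1 := by
  rw [← tri_diag hρ]; simp

theorem tri_key (hρ : ∀ g i j, j < i → ρ g i j = 0) (y z : G) (j k : Fin m) :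
    ρ (y * z) j k / ρ (y * z) k k - ρ y j k / ρ y k k =
      (∑ l ∈ Finset.univ.erase k, ρ y j l * ρ z l k) * (ρ y⁻¹ k k * ρ z⁻¹ k k) := by
  have h1 := tri_diag_inv hρ y k
  have h2 := tri_diag_inv hρ z k
  have hy : ρ y k k ≠ 0 := left_ne_zero_of_mul_eq_one h1
  have hz : ρ z k k ≠ 0 := left_ne_zero_of_mul_eq_one h2
  rw [tri_diag hρ, map_mul, Matrix.mul_apply, ← Finset.sum_erase_add _ _ (Finset.mem_univ k),
    eq_inv_of_mul_eq_one_right h1, eq_inv_of_mul_eq_one_right h2]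
  field_simp
  ring

theorem absv_sum_le {ι : Type*} (s : Finset ι) (f : ι → L) {C : ℝ} (h : ∀ i ∈ s, v (f i) ≤ C) :
    v (∑ i ∈ s, f i) ≤ s.card * C := by
  refine (v.sum_le s f).trans ?_
  simpa using Finset.sum_le_card_nsmul s (fun i => v (f i)) C h

theorem fdb_tri_zero (hρ : ∀ g i j, j < i → ρ g i j = 0) : FDb (Bd v ρ) (Qd v ρ 0) := by
  refine ⟨Fin m → Bool, inferInstance, fun C => ?_⟩
  obtain ⟨M, κ, h⟩ := col1_real (Real.log (max C 1))
  beta_reduce at h
  have hpos : ∀ g i, 0 < v (ρ g i i) := fun g i =>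
    v.pos (left_ne_zero_of_mul_eq_one (tri_diag_inv hρ g i))
  have hinv : ∀ g i, Real.log (v (ρ g⁻¹ i i)) = -Real.log (v (ρ g i i)) := fun g i => by
    rw [eq_inv_of_mul_eq_one_right (tri_diag_inv hρ g i), map_inv₀, Real.log_inv]
  have hsub : ∀ a b i, Real.log (v (ρ b i i)) - Real.log (v (ρ a i i)) =
      Real.log (v (ρ (a⁻¹ * b) i i)) := fun a b i => by
    rw [tri_diag hρ, map_mul, Real.log_mul (hpos _ _).ne' (hpos _ _).ne', hinv]; ring
  refine ⟨Real.exp M, fun g i => κ (Real.log (v (ρ g i i))), fun x y hc => ?_⟩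
  have hd : ∀ i, v (ρ (x⁻¹ * y) i i) ≤ Real.exp M ∧ v (ρ (x⁻¹ * y)⁻¹ i i) ≤ Real.exp M := by
    intro i
    have := h _ _ (rtg_map (fun g => Real.log (v (ρ g i i))) hc fun a b hab =>
      ⟨congrFun hab.1 i, by
        rw [hsub, abs_le]
        have h1 := Real.log_le_log (hpos _ _) ((hab.2 i i).1.trans (le_max_left C 1))
        have h2 := Real.log_le_log (hpos _ _) ((hab.2 i i).2.trans (le_max_left C 1))
        rw [hinv] at h2
        exact ⟨by linarith, h1⟩⟩)
    rw [hsub, abs_le] at this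
    refine ⟨(Real.log_le_iff_le_exp (hpos _ _)).1 this.2,
      (Real.log_le_iff_le_exp (hpos _ _)).1 ?_⟩
    rw [hinv]; linarith [this.1]
  refine ⟨hd, fun j k hk => ?_⟩
  rcases (show k ≤ j from hk).eq_or_lt with rfl | h1
  · exact (hd k).1
  · rw [hρ _ _ _ h1, map_zero]; positivity

theorem fdb_tri_succ (hv : Col1 fun a b : L => v (b - a)) (hρ : ∀ g i j, j < i → ρ g i j = 0)
    (d : ℕ) (h : FDb (Bd v ρ) (Qd v ρ d)) : FDb (Bd v ρ) (Qd v ρ (d + 1)) := by
  classical
  obtain ⟨γ, _, h⟩ := h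
  refine ⟨γ × (Fin m × Fin m → Bool), inferInstance, fun C0 => ?_⟩
  obtain ⟨M0, κ1, h0⟩ := h C0
  let C := max C0 0
  let M1 := max M0 0
  have hC : 0 ≤ C := le_max_right _ _
  have hM1 : 0 ≤ M1 := le_max_right _ _
  have h1 : ∀ x y, Relation.ReflTransGen (fun a b => κ1 a = κ1 b ∧ Bd v ρ C0 (a⁻¹ * b)) x y →
      Qd v ρ d M1 (x⁻¹ * y) := fun x y hc =>
    ⟨fun i => ⟨((h0 x y hc).1 i).1.trans (le_max_left _ _),
      ((h0 x y hc).1 i).2.trans (le_max_left _ _)⟩,
      fun j k hk => ((h0 x y hc).2 j k hk).trans (le_max_left _ _)⟩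
  obtain ⟨M2, κ2, h2⟩ := hv (m * (M1 * C) * (M1 * C))
  let st : Setoid G := ⟨Relation.ReflTransGen fun a b => κ1 a = κ1 b ∧ Bd v ρ C0 (a⁻¹ * b),
    fun _ => Relation.ReflTransGen.refl, fun {a b} hab => by
      induction hab with
      | refl => exact Relation.ReflTransGen.refl
      | tail _ hab ih =>
        exact Relation.ReflTransGen.head ⟨hab.1.symm, by simpa using hab.2.inv⟩ ih,
    Relation.ReflTransGen.trans⟩
  let rep : G → G := fun x => (Quotient.mk st x).out
  have hrep : ∀ x, Qd v ρ d M1 ((rep x)⁻¹ * x) := fun x => h1 _ _ (Quotient.mk_out (s := st) x)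
  have hrep2 : ∀ x y, Relation.ReflTransGen (fun a b => κ1 a = κ1 b ∧ Bd v ρ C0 (a⁻¹ * b)) x y →
      rep x = rep y := fun x y hc => by
    simp only [rep]
    rw [Quotient.sound (s := st) hc]
  let w : G → Fin m × Fin m → L := fun x jk => if (jk.2 : ℕ) = jk.1 + d + 1 then
    ρ ((rep x)⁻¹ * x) jk.1 jk.2 / ρ ((rep x)⁻¹ * x) jk.2 jk.2 else 0
  refine ⟨max M1 (M1 * (M2 * (M1 * M1) + m * (M1 * M1))), fun x => (κ1 x, fun jk => κ2 (w x jk)),
    fun x y hc => ?_⟩
  have hc1 : Relation.ReflTransGen (fun a b => κ1 a = κ1 b ∧ Bd v ρ C0 (a⁻¹ * b)) x y :=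
    rtg_map id hc fun a b hab => ⟨congrArg Prod.fst hab.1, hab.2⟩
  have hz := h1 x y hc1
  refine ⟨fun i => ⟨(hz.1 i).1.trans (le_max_left _ _), (hz.1 i).2.trans (le_max_left _ _)⟩,
    fun j k hk => ?_⟩
  by_cases hk' : (k : ℕ) ≤ j + d
  · exact (hz.2 j k hk').trans (le_max_left _ _)
  have hkj : (k : ℕ) = j + d + 1 := by omega
  refine le_trans ?_ (le_max_right _ _)
  have hw : v (w y (j, k) - w x (j, k)) ≤ M2 := by
    refine h2 _ _ (rtg_map (fun g => w g (j, k)) hc fun a b hab =>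
      ⟨congrFun (congrArg Prod.snd hab.1) (j, k), ?_⟩)
    have e := hrep2 a b (Relation.ReflTransGen.single ⟨congrArg Prod.fst hab.1, hab.2⟩)
    simp only [w, hkj, if_true, ← e]
    have e2 : (rep a)⁻¹ * b = (rep a)⁻¹ * a * (a⁻¹ * b) := by group
    rw [e2, tri_key hρ, v.map_mul, v.map_mul]
    have h3 := hrep a
    refine mul_le_mul ?_ (mul_le_mul (h3.1 k).2 ((hab.2 k k).2.trans (le_max_left _ _))
      (v.nonneg _) hM1) (by positivity) (by positivity)
    refine (absv_sum_le _ _ (C := M1 * C) fun l hl => ?_).trans ?_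
    · rcases lt_or_gt_of_ne (Finset.ne_of_mem_erase hl) with h4 | h4
      · rw [map_mul]
        have h5 : (l : ℕ) < k := h4
        exact mul_le_mul (h3.2 j l (by omega)) ((hab.2 l k).1.trans (le_max_left _ _))
          (v.nonneg _) hM1
      · rw [hρ _ l k h4, mul_zero, map_zero]; positivity
    · refine mul_le_mul_of_nonneg_right ?_ (by positivity)
      have := Finset.card_le_univ (Finset.univ.erase k)
      rw [Fintype.card_fin] at this
      exact_mod_cast this
  have e := hrep2 x y hc1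
  simp only [w, hkj, if_true, ← e] at hw
  have e2 : (rep x)⁻¹ * y = (rep x)⁻¹ * x * (x⁻¹ * y) := by group
  rw [e2, tri_key hρ] at hw
  have h3 := hrep x
  generalize (rep x)⁻¹ * x = a at hw h3
  generalize x⁻¹ * y = z at hw hz
  have hjk : j ≠ k := fun e => by rw [e] at hkj; omega
  have h4 := tri_diag_inv hρ a k
  have h5 := tri_diag_inv hρ z k
  have h6 := tri_diag_inv hρ a j
  have e3 : ρ z j k = ρ a⁻¹ j j * ((∑ l ∈ Finset.univ.erase k, ρ a j l * ρ z l k) *
      (ρ a⁻¹ k k * ρ z⁻¹ k k) * (ρ a k k * ρ z k k) -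
      ∑ l ∈ (Finset.univ.erase k).erase j, ρ a j l * ρ z l k) := by
    rw [← Finset.sum_erase_add _ _ (Finset.mem_erase.2 ⟨hjk, Finset.mem_univ j⟩)]
    generalize ∑ l ∈ (Finset.univ.erase k).erase j, ρ a j l * ρ z l k = S
    linear_combination (-(ρ z j k)) * h6 -
      ρ a⁻¹ j j * (S + ρ a j j * ρ z j k) * (ρ z k k * ρ z⁻¹ k k * h4 + h5)
  rw [e3, map_mul]
  refine mul_le_mul (h3.1 j).2 ((v.sub_le_add _ _).trans (add_le_add ?_ ?_)) (v.nonneg _) hM1
  · rw [map_mul, map_mul _ (ρ a k k)]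
    exact mul_le_mul hw (mul_le_mul (h3.1 k).1 (hz.1 k).1 (v.nonneg _) hM1) (by positivity)
      ((v.nonneg _).trans hw)
  · refine (absv_sum_le _ _ (C := M1 * M1) fun l hl => ?_).trans ?_
    · have hlj := Finset.ne_of_mem_erase hl
      have hlk := Finset.ne_of_mem_erase (Finset.mem_of_mem_erase hl)
      rcases lt_or_gt_of_ne hlj with h7 | h7
      · rw [hρ _ j l h7, zero_mul, map_zero]; positivity
      rcases lt_or_gt_of_ne hlk with h8 | h8
      · rw [map_mul]
        have h9 : (l : ℕ) < k := h8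
        have h10 : (j : ℕ) < l := h7
        exact mul_le_mul (h3.2 j l (by omega)) (hz.2 l k (by omega)) (v.nonneg _) hM1
      · rw [hρ _ l k h8, mul_zero, map_zero]; positivity
    · refine mul_le_mul_of_nonneg_right ?_ (by positivity)
      have := Finset.card_le_univ ((Finset.univ.erase k).erase j)
      rw [Fintype.card_fin] at this
      exact_mod_cast this

theorem fdb_tri (hv : Col1 fun a b : L => v (b - a)) (hρ : ∀ g i j, j < i → ρ g i j = 0) :
    FDb (Bd v ρ) (Bd v ρ) := by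
  have h : ∀ d, FDb (Bd v ρ) (Qd v ρ d) := fun d => by
    induction d with
    | zero => exact fdb_tri_zero hρ
    | succ d ih => exact fdb_tri_succ hv hρ d ih
  obtain ⟨γ, _, h⟩ := h m
  refine ⟨γ, inferInstance, fun C => ?_⟩
  obtain ⟨M, κ, h⟩ := h C
  refine ⟨M, κ, fun x y hc i j => ⟨(h x y hc).2 i j (by omega), ?_⟩⟩
  have hc' : Relation.ReflTransGen (fun a b => κ a = κ b ∧ Bd v ρ C (a⁻¹ * b)) y x := by
    induction hc with
    | refl => exact Relation.ReflTransGen.refl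
    | tail _ hab ih => exact Relation.ReflTransGen.head ⟨hab.1.symm, by simpa using hab.2.inv⟩ ih
  simpa using (h y x hc').2 i j (by omega)

end Pool.Agent.Apc
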